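import Mathlib

/-!
# MP_0e1197_co: the map `prs_μ` for two-row shapes: an exact criterion.
-/

namespace Pool.Agent.Results.MP_0e1197_co.ExactCriterion

open Finset Filter Topology Asymptotics

/-- The semistandard Young tableaux of the two-row shape `(a,b)` with entries in `Fin ℓ`: the first
row `T.1` and the second row `T.2` are weakly increasing, and columns are strictly increasing. -/
def SSYT (a b ℓ : ℕ) : Finset ((Fin a → Fin ℓ) × (Fin b → Fin ℓ)) :=
  univ.filter (fun T => (∀ i j : Fin a, i ≤ j → T.1 i ≤ T.1 j) ∧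
    (∀ i j : Fin b, i ≤ j → T.2 i ≤ T.2 j) ∧
    ∀ (i : Fin a) (j : Fin b), i.val = j.val → T.1 i < T.2 j)

/-- the multiset of the summands of the Schur polynomial of shape `(a,b)` evaluated at the list `l` -/
def prsList (a b : ℕ) (l : List ℕ) : Multiset ℕ :=
  (SSYT a b l.length).val.map (fun T => (∏ i, l.get (T.1 i)) * ∏ j, l.get (T.2 j))

/-- `prs_{(a,b)}(λ)` for a partition `λ` of `n`: its parts are listed in nonincreasing order -/
def prs (a b : ℕ) {n : ℕ} (P : Nat.Partition n) : Multiset ℕ :=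
  prsList a b (P.parts.sort (· ≥ ·))

/-- the complete homogeneous polynomial of degree `m` in the first `n` letters -/
def h (z : ℕ → ℝ) : ℕ → ℕ → ℝ
  | 0, _ => 1
  | m + 1, n => ∑ i ∈ range n, z i * h z m (i + 1)

/-- words of length `m` in the first `n` letters -/
def W (m n : ℕ) : Finset (Fin m → ℕ) := Fintype.piFinset (fun _ => range n)

theorem mem_W {m n : ℕ} {f : Fin m → ℕ} : f ∈ W m n ↔ ∀ i, f i < n := by
  simp [W, Fintype.mem_piFinset]

theorem conv (m n : ℕ) (G : (Fin m → ℕ) → ℝ) :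
    ∑ f : Fin m → Fin n, G (fun i => (f i).val) = ∑ g ∈ W m n, G g := by
  refine sum_bij' (fun f _ => fun i => (f i).val) (fun g hg => fun i => ⟨g i, mem_W.1 hg i⟩)
    ?_ ?_ ?_ ?_ ?_
  · intro f _; exact mem_W.2 (fun i => (f i).isLt)
  · intro g _; exact mem_univ _
  · intro f _; rfl
  · intro g _; rfl
  · intro f _; rfl

theorem mono_snoc {m : ℕ} (F : Fin (m + 1) → ℕ) :
    Monotone F ↔ Monotone (fun i : Fin m => F i.castSucc) ∧ ∀ i : Fin m, F i.castSucc ≤ F (Fin.last m) := by
  constructor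
  · intro hF
    exact ⟨fun i j hij => hF (Fin.castSucc_le_castSucc_iff.2 hij), fun i => hF (Fin.le_last _)⟩
  · rintro ⟨h1, h2⟩ i j hij
    induction j using Fin.lastCases with
    | last =>
      induction i using Fin.lastCases with
      | last => exact le_refl _
      | cast i => exact h2 i
    | cast j =>
      induction i using Fin.lastCases with
      | last => exact absurd hij (not_le.2 (Fin.castSucc_lt_last j))
      | cast i => exact h1 (Fin.castSucc_le_castSucc_iff.1 hij)

open Classical in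
theorem sum_mono (z : ℕ → ℝ) (m n : ℕ) :
    (∑ f ∈ W m n, if Monotone f then ∏ i, z (f i) else 0) = h z m n := by
  induction m generalizing n with
  | zero =>
    rw [h]
    have : W 0 n = {fun i => i.elim0} := by
      ext f; rw [mem_W, mem_singleton]; constructor
      · intro _; exact Subsingleton.elim _ _
      · intro _ i; exact i.elim0
    have hm : Monotone (fun i : Fin 0 => (i.elim0 : ℕ)) := fun i => i.elim0
    rw [this, sum_singleton, if_pos hm]
    simp
  | succ m ih =>
    have e1 : (∑ f ∈ W (m + 1) n, if Monotone f then ∏ i, z (f i) else 0)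
        = ∑ q ∈ range n ×ˢ W m n, if (Monotone q.2 ∧ ∀ i, q.2 i ≤ q.1) then
            z q.1 * ∏ i, z (q.2 i) else 0 := by
      refine sum_bij' (fun F _ => (F (Fin.last m), fun i : Fin m => F i.castSucc))
        (fun q _ => (Fin.snoc (α := fun _ => ℕ) q.2 q.1 : Fin (m + 1) → ℕ)) ?_ ?_ ?_ ?_ ?_
      · intro F hF
        rw [mem_product]
        exact ⟨mem_range.2 (mem_W.1 hF _), mem_W.2 (fun i => mem_W.1 hF _)⟩
      · intro q hq
        rw [mem_product] at hq
        rw [mem_W]
        intro i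
        induction i using Fin.lastCases with
        | last => simpa using mem_range.1 hq.1
        | cast i => simpa using mem_W.1 hq.2 i
      · intro F _
        exact Fin.snoc_init_self F
      · intro q _
        refine Prod.ext ?_ ?_
        · simp
        · funext i; simp
      · intro F _
        simp only [mono_snoc F]
        rw [Fin.prod_univ_castSucc, mul_comm]
    rw [e1, sum_product, h]
    apply sum_congr rfl
    intro r hr
    rw [← ih (r + 1), mul_sum]
    have e2 : W m (r + 1) = (W m n).filter (fun f => ∀ i, f i ≤ r) := by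
      ext f
      rw [mem_filter, mem_W, mem_W]
      have := mem_range.1 hr
      constructor
      · intro hf; exact ⟨fun i => by have := hf i; omega, fun i => by have := hf i; omega⟩
      · intro hf i; have := hf.2 i; omega
    rw [e2, sum_filter]
    apply sum_congr rfl
    intro f _
    by_cases h1 : ∀ i, f i ≤ r
    · by_cases h2 : Monotone f
      · simp [h1, h2]
      · simp [h2]
    · simp [h1]


/-- compatibility of the two rows -/
def Ok {a b : ℕ} (f : Fin a → ℕ) (g : Fin b → ℕ) : Prop :=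
  Monotone f ∧ Monotone g ∧ ∀ (i : Fin a) (j : Fin b), i.val = j.val → f i < g j

open Classical in
/-- sum over the tableaux of shape `(a,b)` with letters `< x` in row one and `< y` in row two -/
noncomputable def S (z : ℕ → ℝ) (a b x y : ℕ) : ℝ :=
  ∑ f ∈ W a x, ∑ g ∈ W b y, if Ok f g then (∏ i, z (f i)) * ∏ j, z (g j) else 0

/-- words of length `m+1` -/
theorem sum_snoc (m n : ℕ) (G : (Fin (m + 1) → ℕ) → ℝ) :
    ∑ f ∈ W (m + 1) n, G f = ∑ r ∈ range n, ∑ f ∈ W m n, G (Fin.snoc (α := fun _ => ℕ) f r) := by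
  rw [← sum_product']
  refine sum_bij' (fun F _ => (F (Fin.last m), fun i : Fin m => F i.castSucc))
    (fun q _ => (Fin.snoc (α := fun _ => ℕ) q.2 q.1 : Fin (m + 1) → ℕ)) ?_ ?_ ?_ ?_ ?_
  · intro F hF
    rw [mem_product]
    exact ⟨mem_range.2 (mem_W.1 hF _), mem_W.2 (fun i => mem_W.1 hF _)⟩
  · intro q hq
    rw [mem_product] at hq
    rw [mem_W]
    intro i
    induction i using Fin.lastCases with
    | last => simpa using mem_range.1 hq.1
    | cast i => simpa using mem_W.1 hq.2 i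
  · intro F _
    exact Fin.snoc_init_self F
  · intro q _
    refine Prod.ext ?_ ?_
    · simp
    · funext i; simp
  · intro F _
    congr 1
    exact (Fin.snoc_init_self F).symm

theorem W_filter {m n r : ℕ} (hr : r ≤ n) : W m r = (W m n).filter (fun f => ∀ i, f i < r) := by
  ext f
  rw [mem_filter, mem_W, mem_W]
  constructor
  · intro hf; exact ⟨fun i => lt_of_lt_of_le (hf i) hr, hf⟩
  · intro hf; exact hf.2

theorem ok_snoc_left {a b : ℕ} (hab : b ≤ a) (f : Fin a → ℕ) (r : ℕ) (g : Fin b → ℕ) :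
    Ok (Fin.snoc (α := fun _ => ℕ) f r : Fin (a + 1) → ℕ) g ↔ Ok f g ∧ ∀ i, f i < r + 1 := by
  unfold Ok
  rw [mono_snoc]
  simp only [Fin.snoc_castSucc, Fin.snoc_last]
  constructor
  · rintro ⟨⟨h1, h2⟩, h3, h4⟩
    refine ⟨⟨h1, h3, ?_⟩, fun i => Nat.lt_succ_of_le (h2 i)⟩
    intro i j hij
    have := h4 i.castSucc j (by simpa using hij)
    simpa using this
  · rintro ⟨⟨h1, h3, h4⟩, h2⟩
    refine ⟨⟨h1, fun i => Nat.le_of_lt_succ (h2 i)⟩, h3, ?_⟩
    intro i j hij
    induction i using Fin.lastCases with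
    | last => exfalso; have := j.isLt; simp at hij; omega
    | cast i => simpa using h4 i j (by simpa using hij)

theorem ok_snoc_right {a : ℕ} (f : Fin (a + 1) → ℕ) (s : ℕ) (g : Fin a → ℕ) :
    Ok f (Fin.snoc (α := fun _ => ℕ) g s : Fin (a + 1) → ℕ) ↔
      Ok f g ∧ (∀ i, g i < s + 1) ∧ ∀ i, f i < s := by
  unfold Ok
  rw [mono_snoc (Fin.snoc (α := fun _ => ℕ) g s)]
  simp only [Fin.snoc_castSucc, Fin.snoc_last]
  constructor
  · rintro ⟨h0, ⟨h1, h2⟩, h4⟩
    refine ⟨⟨h0, h1, ?_⟩, fun i => Nat.lt_succ_of_le (h2 i), ?_⟩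
    · intro i j hij
      have := h4 i j.castSucc (by simpa using hij)
      simpa using this
    · intro i
      have h5 := h4 (Fin.last a) (Fin.last a) rfl
      rw [Fin.snoc_last] at h5
      exact lt_of_le_of_lt (h0 (Fin.le_last i)) h5
  · rintro ⟨⟨h0, h1, h4⟩, h2, h5⟩
    refine ⟨h0, ⟨h1, fun i => Nat.le_of_lt_succ (h2 i)⟩, ?_⟩
    intro i j hij
    induction j using Fin.lastCases with
    | last => rw [Fin.snoc_last]; exact h5 i
    | cast j => simpa using h4 i j (by simpa using hij)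

theorem S_left (z : ℕ → ℝ) {a b : ℕ} (hab : b ≤ a) (x y : ℕ) :
    S z (a + 1) b x y = ∑ r ∈ range x, z r * S z a b (r + 1) y := by
  classical
  unfold S
  rw [sum_snoc]
  apply sum_congr rfl
  intro r hr
  rw [W_filter (show r + 1 ≤ x from mem_range.1 hr), sum_filter, mul_sum]
  apply sum_congr rfl
  intro f _
  by_cases hf : ∀ i, f i < r + 1
  · rw [if_pos hf, mul_sum]
    apply sum_congr rfl
    intro g _
    by_cases hg : Ok f g
    · rw [if_pos ((ok_snoc_left hab f r g).2 ⟨hg, hf⟩), if_pos hg, Fin.prod_univ_castSucc]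
      simp only [Fin.snoc_castSucc, Fin.snoc_last]
      ring
    · rw [if_neg (fun h' => hg ((ok_snoc_left hab f r g).1 h').1), if_neg hg, mul_zero]
  · rw [if_neg hf, mul_zero]
    apply sum_eq_zero
    intro g _
    rw [if_neg (fun h' => hf ((ok_snoc_left hab f r g).1 h').2)]

theorem S_right (z : ℕ → ℝ) (a x y : ℕ) :
    S z (a + 1) (a + 1) x y = ∑ s ∈ range y, z s * S z (a + 1) a (min x s) (s + 1) := by
  classical
  unfold S
  rw [sum_congr rfl (fun f _ => sum_snoc a y _), sum_comm]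
  apply sum_congr rfl
  intro s hs
  rw [W_filter (min_le_left x s), sum_filter, mul_sum]
  apply sum_congr rfl
  intro f hfx
  have hfx' := mem_W.1 hfx
  by_cases hf : ∀ i, f i < min x s
  · rw [if_pos hf, W_filter (show s + 1 ≤ y from mem_range.1 hs), sum_filter, mul_sum]
    apply sum_congr rfl
    intro g _
    by_cases hgs : ∀ i, g i < s + 1
    · rw [if_pos hgs]
      by_cases hg : Ok f g
      · rw [if_pos ((ok_snoc_right f s g).2 ⟨hg, hgs, fun i => lt_of_lt_of_le (hf i) (min_le_right _ _)⟩),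
          if_pos hg, Fin.prod_univ_castSucc (fun j => z ((Fin.snoc (α := fun _ => ℕ) g s : Fin (a + 1) → ℕ) j))]
        simp only [Fin.snoc_castSucc, Fin.snoc_last]
        ring
      · rw [if_neg (fun h' => hg ((ok_snoc_right f s g).1 h').1), if_neg hg, mul_zero]
    · rw [if_neg hgs, mul_zero, if_neg (fun h' => hgs ((ok_snoc_right f s g).1 h').2.1)]
  · rw [if_neg hf, mul_zero]
    apply sum_eq_zero
    intro g _
    rw [if_neg]
    intro h'
    exact hf (fun i => lt_min (hfx' i) (((ok_snoc_right f s g).1 h').2.2 i))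

theorem S_zero (z : ℕ → ℝ) (a x y : ℕ) : S z a 0 x y = h z a x := by
  classical
  rw [← sum_mono]
  unfold S
  apply sum_congr rfl
  intro f _
  have : W 0 y = {fun i => i.elim0} := by
    ext f; rw [mem_W, mem_singleton]; constructor
    · intro _; exact Subsingleton.elim _ _
    · intro _ i; exact i.elim0
  rw [this, sum_singleton]
  have h1 : Ok f (fun i : Fin 0 => (i.elim0 : ℕ)) ↔ Monotone f :=
    ⟨fun h' => h'.1, fun h' => ⟨h', fun i => i.elim0, fun _ j => j.elim0⟩⟩
  by_cases hf : Monotone f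
  · rw [if_pos (h1.2 hf), if_pos hf]; simp
  · rw [if_neg (fun h' => hf (h1.1 h')), if_neg hf]

/-- `h_{b-1}`, zero for `b = 0` -/
def hp (z : ℕ → ℝ) : ℕ → ℕ → ℝ
  | 0, _ => 0
  | b + 1, n => h z b n

theorem h_succ (z : ℕ → ℝ) (m n : ℕ) :
    h z (m + 1) (n + 1) = h z (m + 1) n + z n * h z m (n + 1) := by
  simp only [h, sum_range_succ]

theorem jt_diag (z : ℕ → ℝ) (a x : ℕ) :
    ∑ s ∈ range x, z s * (h z (a + 1) s * h z a (s + 1) - h z (a + 2) s * hp z a (s + 1))
      = h z (a + 1) x * h z (a + 1) x - h z (a + 2) x * h z a x := by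
  induction x with
  | zero => simp [h]
  | succ x ih =>
    rw [sum_range_succ, ih, h_succ z (a + 1) x, h_succ z a x]
    cases a with
    | zero => simp only [hp, h]; ring
    | succ a =>
      simp only [hp]
      rw [h_succ z a x]
      ring

/-- the two-row Jacobi–Trudi formula with flags -/
theorem jt (z : ℕ → ℝ) (b : ℕ) : ∀ a x y : ℕ, b ≤ a → x ≤ y →
    S z a b x y = h z a x * h z b y - h z (a + 1) x * hp z b y := by
  induction b with
  | zero => intro a x y _ _; rw [S_zero]; simp [h, hp]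
  | succ b ihb =>
    intro a
    induction a with
    | zero => intro x y hab; omega
    | succ a iha =>
      intro x y hab hxy
      by_cases h1 : b + 1 ≤ a
      · rw [S_left z h1]
        have : ∀ r ∈ range x, z r * S z a (b + 1) (r + 1) y
            = z r * h z a (r + 1) * h z (b + 1) y - z r * h z (a + 1) (r + 1) * hp z (b + 1) y := by
          intro r hr
          rw [iha (r + 1) y h1 (by have := mem_range.1 hr; omega)]
          ring
        rw [sum_congr rfl this, sum_sub_distrib, ← sum_mul, ← sum_mul]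
        rfl
      · have hba : b = a := by omega
        subst hba
        rw [S_right]
        have e : ∀ s ∈ range y, z s * S z (b + 1) b (min x s) (s + 1)
            = z s * (h z (b + 1) (min x s) * h z b (s + 1) - h z (b + 2) (min x s) * hp z b (s + 1)) := by
          intro s _
          rw [ihb (b + 1) (min x s) (s + 1) (by omega) (by omega)]
        rw [sum_congr rfl e, range_eq_Ico, ← sum_Ico_consecutive _ (Nat.zero_le x) hxy, ← range_eq_Ico]
        have e1 : ∑ s ∈ range x, z s * (h z (b + 1) (min x s) * h z b (s + 1)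
            - h z (b + 2) (min x s) * hp z b (s + 1))
            = h z (b + 1) x * h z (b + 1) x - h z (b + 2) x * h z b x := by
          rw [← jt_diag]
          apply sum_congr rfl
          intro s hs
          rw [min_eq_right (le_of_lt (mem_range.1 hs))]
        have e2 : ∑ s ∈ Ico x y, z s * (h z (b + 1) (min x s) * h z b (s + 1)
            - h z (b + 2) (min x s) * hp z b (s + 1))
            = h z (b + 1) x * (h z (b + 1) y - h z (b + 1) x) - h z (b + 2) x * (h z b y - h z b x) := by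
          have e3 : ∑ s ∈ Ico x y, z s * h z b (s + 1) = h z (b + 1) y - h z (b + 1) x := by
            rw [Finset.sum_Ico_eq_sub _ hxy]; rfl
          have e4 : ∑ s ∈ Ico x y, z s * hp z b (s + 1) = h z b y - h z b x := by
            cases b with
            | zero => simp [hp, h]
            | succ b => rw [Finset.sum_Ico_eq_sub _ hxy]; rfl
          rw [← e3, ← e4, mul_sum, mul_sum, ← sum_sub_distrib]
          apply sum_congr rfl
          intro s hs
          rw [min_eq_left (Finset.mem_Ico.1 hs).1]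
          ring
        rw [e1, e2]
        simp only [hp]
        ring

open Classical in
theorem sum_SSYT (z : ℕ → ℝ) (a b ℓ : ℕ) (hab : b ≤ a) :
    ∑ T ∈ SSYT a b ℓ, (∏ i, z (T.1 i).val) * ∏ j, z (T.2 j).val
      = h z a ℓ * h z b ℓ - h z (a + 1) ℓ * hp z b ℓ := by
  rw [← jt z b a ℓ ℓ hab le_rfl, S, SSYT, sum_filter, Fintype.sum_prod_type,
    ← conv a ℓ (fun f => ∑ g ∈ W b ℓ, if Ok f g then (∏ i, z (f i)) * ∏ j, z (g j) else 0)]
  apply sum_congr rfl
  intro f _
  rw [← conv b ℓ (fun g => if Ok (fun i => (f i).val) g then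
    (∏ i, z (f i).val) * ∏ j, z (g j) else 0)]
  apply sum_congr rfl
  intro g _
  have hc : ((∀ i j : Fin a, i ≤ j → f i ≤ f j) ∧ (∀ i j : Fin b, i ≤ j → g i ≤ g j) ∧
      ∀ (i : Fin a) (j : Fin b), i.val = j.val → f i < g j) ↔
      Ok (fun i => (f i).val) (fun j => (g j).val) := by
    constructor
    · rintro ⟨h1, h2, h3⟩
      exact ⟨fun i j hij => h1 i j hij, fun i j hij => h2 i j hij, fun i j hij => h3 i j hij⟩
    · rintro ⟨h1, h2, h3⟩
      exact ⟨fun i j hij => h1 hij, fun i j hij => h2 hij, fun i j hij => h3 i j hij⟩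
  by_cases hh : Ok (fun i => (f i).val) (fun j => (g j).val)
  · rw [if_pos (hc.2 hh), if_pos hh]
  · rw [if_neg (fun h' => hh (hc.1 h')), if_neg hh]

def p (z : ℕ → ℝ) (k n : ℕ) : ℝ := ∑ i ∈ range n, z i ^ k

theorem p_succ (z : ℕ → ℝ) (k n : ℕ) : p z k (n + 1) = p z k n + z n ^ k := by
  simp [p, sum_range_succ]

theorem h_zero (z : ℕ → ℝ) (n : ℕ) : h z 0 n = 1 := rfl

theorem h_one (z : ℕ → ℝ) (n : ℕ) : h z 1 n = p z 1 n := by simp [h, p]

/-- Newton's identities for complete homogeneous polynomials -/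
theorem newton (z : ℕ → ℝ) (n m : ℕ) :
    ((m : ℝ) + 1) * h z (m + 1) n = ∑ x ∈ antidiagonal m, p z (x.1 + 1) n * h z x.2 n := by
  induction n generalizing m with
  | zero => simp [h, p]
  | succ n ihn =>
    induction m with
    | zero =>
      simp only [Finset.Nat.antidiagonal_zero, sum_singleton, h_zero, zero_add, h_one]; push_cast; ring
    | succ m ihm =>
      have hB : ∑ x ∈ antidiagonal (m + 1), p z (x.1 + 1) n * h z x.2 (n + 1)
          = ((m : ℝ) + 1 + 1) * h z (m + 2) n
            + z n * ∑ x ∈ antidiagonal m, p z (x.1 + 1) n * h z x.2 (n + 1) := by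
        have := ihn (m + 1)
        push_cast at this
        have e : ∑ x ∈ antidiagonal m, p z (x.1 + 1) n * h z (x.2 + 1) (n + 1)
            = ∑ x ∈ antidiagonal m, p z (x.1 + 1) n * h z (x.2 + 1) n
              + z n * ∑ x ∈ antidiagonal m, p z (x.1 + 1) n * h z x.2 (n + 1) := by
          rw [mul_sum, ← sum_add_distrib]
          apply sum_congr rfl
          intro x _
          rw [h_succ]; ring
        rw [this, Finset.Nat.sum_antidiagonal_succ', Finset.Nat.sum_antidiagonal_succ', h_zero, h_zero]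
        simp only []
        linear_combination e
      have hA : ∑ x ∈ antidiagonal (m + 1), z n ^ (x.1 + 1) * h z x.2 (n + 1)
          = z n * h z (m + 1) (n + 1) + z n * ∑ x ∈ antidiagonal m, z n ^ (x.1 + 1) * h z x.2 (n + 1) := by
        rw [Finset.Nat.sum_antidiagonal_succ, mul_sum]
        congr 1
        · simp
        · apply sum_congr rfl
          intro x _
          rw [pow_succ]; ring
      have split : ∀ m' : ℕ, ∑ x ∈ antidiagonal m', p z (x.1 + 1) (n + 1) * h z x.2 (n + 1)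
          = ∑ x ∈ antidiagonal m', p z (x.1 + 1) n * h z x.2 (n + 1)
            + ∑ x ∈ antidiagonal m', z n ^ (x.1 + 1) * h z x.2 (n + 1) := by
        intro m'
        rw [← sum_add_distrib]
        apply sum_congr rfl
        intro x _
        rw [p_succ]; ring
      rw [split, hA, hB]
      rw [split] at ihm
      rw [h_succ z (m + 1) n]
      push_cast
      linear_combination (z n) * ihm



/-- `P u t = ∑ exp (t u_i)` -/
noncomputable def P {ℓ : ℕ} (u : Fin ℓ → ℝ) (t : ℝ) : ℝ := ∑ i, Real.exp (t * u i)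

theorem P_zero {ℓ : ℕ} (u : Fin ℓ → ℝ) : P u 0 = ℓ := by simp [P]

theorem P_cont {ℓ : ℕ} (u : Fin ℓ → ℝ) : Continuous (P u) := by
  unfold P; fun_prop

theorem P_small {ℓ : ℕ} (u : Fin ℓ → ℝ) (k : ℕ) :
    (fun t => P u t - ∑ j ∈ range (k + 1), (∑ i, u i ^ j) * t ^ j / (j.factorial : ℝ))
      =o[𝓝 0] (fun t : ℝ => t ^ k) := by
  have h : ∀ i ∈ (univ : Finset (Fin ℓ)), (fun t : ℝ => Real.exp (t * u i) -
      ∑ j ∈ range (k + 1), (t * u i) ^ j / (j.factorial : ℝ)) =o[𝓝 0] (fun t : ℝ => t ^ k) := by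
    intro i _
    have h1 := Real.exp_sub_sum_range_succ_isLittleO_pow k
    have h2 : Tendsto (fun t : ℝ => t * u i) (𝓝 0) (𝓝 0) := by
      have : Continuous (fun t : ℝ => t * u i) := by fun_prop
      simpa using this.tendsto 0
    have h3 := h1.comp_tendsto h2
    refine h3.trans_isBigO ?_
    have : ((fun x : ℝ => x ^ k) ∘ fun t : ℝ => t * u i) = fun t : ℝ => (u i ^ k) * t ^ k := by
      funext t; simp [mul_pow, mul_comm]
    rw [this]
    exact isBigO_const_mul_self _ _ _
  have h' := IsLittleO.sum h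
  refine h'.congr_left ?_
  intro t
  rw [Finset.sum_apply]
  simp only [P, sum_sub_distrib]
  congr 1
  rw [sum_comm]
  apply sum_congr rfl
  intro j _
  rw [sum_mul, sum_div]
  apply sum_congr rfl
  intro i _
  rw [mul_pow]; ring

theorem D_lim {ℓ : ℕ} (u v : Fin ℓ → ℝ) (k : ℕ)
    (h : ∀ j < k, ∑ i, u i ^ j = ∑ i, v i ^ j) (a : ℝ) :
    Tendsto (fun t : ℝ => (P u (a * t) - P v (a * t)) / t ^ k) (𝓝[≠] 0)
      (𝓝 (a ^ k * ((∑ i, u i ^ k - ∑ i, v i ^ k) / (k.factorial : ℝ)))) := by
  set c := (∑ i, u i ^ k - ∑ i, v i ^ k) / (k.factorial : ℝ) with hc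
  have h1 := (P_small u k).sub (P_small v k)
  have h2 : (fun t => P u t - P v t - c * t ^ k) =o[𝓝 0] (fun t : ℝ => t ^ k) := by
    refine h1.congr_left ?_
    intro t
    rw [sum_range_succ, sum_range_succ]
    have : ∑ j ∈ range k, (∑ i, u i ^ j) * t ^ j / (j.factorial : ℝ)
        = ∑ j ∈ range k, (∑ i, v i ^ j) * t ^ j / (j.factorial : ℝ) := by
      apply sum_congr rfl
      intro j hj
      rw [h j (mem_range.1 hj)]
    rw [this, hc]
    ring
  have h3 : Tendsto (fun t : ℝ => a * t) (𝓝 0) (𝓝 0) := by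
    have : Continuous (fun t : ℝ => a * t) := by fun_prop
    simpa using this.tendsto 0
  have h4 := h2.comp_tendsto h3
  have h5 : (fun t : ℝ => P u (a * t) - P v (a * t) - c * (a * t) ^ k) =o[𝓝 0]
      (fun t : ℝ => t ^ k) := by
    refine h4.trans_isBigO ?_
    have : ((fun x : ℝ => x ^ k) ∘ fun t : ℝ => a * t) = fun t : ℝ => a ^ k * t ^ k := by
      funext t; simp [mul_pow]
    rw [this]
    exact isBigO_const_mul_self _ _ _
  have h6 := (h5.tendsto_div_nhds_zero).mono_left (nhdsWithin_le_nhds (s := {(0 : ℝ)}ᶜ))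
  have h7 := h6.add_const (a ^ k * c)
  rw [zero_add] at h7
  refine h7.congr' ?_
  filter_upwards [self_mem_nhdsWithin] with t ht
  have ht' : t ≠ 0 := ht
  have : t ^ k ≠ 0 := pow_ne_zero _ ht'
  field_simp
  ring

theorem poly_sum {ℓ : ℕ} (u v : Fin ℓ → ℝ) (h : ∀ k, ∑ i, u i ^ k = ∑ i, v i ^ k)
    (q : Polynomial ℝ) : ∑ i, q.eval (u i) = ∑ i, q.eval (v i) := by
  simp only [Polynomial.eval_eq_sum_range]
  rw [sum_comm]
  conv_rhs => rw [sum_comm]
  apply sum_congr rfl
  intro j _
  rw [← mul_sum, ← mul_sum, h]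

theorem multiset_eq {ℓ : ℕ} (u v : Fin ℓ → ℝ) (h : ∀ k, ∑ i, u i ^ k = ∑ i, v i ^ k) :
    (univ : Finset (Fin ℓ)).val.map u = (univ : Finset (Fin ℓ)).val.map v := by
  classical
  ext a
  set S : Finset ℝ := (univ.image u ∪ univ.image v).erase a with hS
  set q : Polynomial ℝ := ∏ b ∈ S, (Polynomial.X - Polynomial.C b) with hq
  have hqa : q.eval a ≠ 0 := by
    rw [hq, Polynomial.eval_prod]
    apply prod_ne_zero_iff.2
    intro b hb
    simp only [Polynomial.eval_sub, Polynomial.eval_X, Polynomial.eval_C]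
    exact sub_ne_zero.2 (fun hab => (mem_erase.1 hb).1 hab.symm)
  have hq0 : ∀ b ∈ S, q.eval b = 0 := by
    intro b hb
    rw [hq, Polynomial.eval_prod]
    apply prod_eq_zero hb
    simp
  have key : ∀ w : Fin ℓ → ℝ, (∀ i, w i ≠ a → w i ∈ S) →
      ∑ i, q.eval (w i) = (Multiset.count a (univ.val.map w) : ℝ) * q.eval a := by
    intro w hw
    have e1 : ∀ i, q.eval (w i) = if w i = a then q.eval a else 0 := by
      intro i
      by_cases hi : w i = a
      · rw [if_pos hi, hi]
      · rw [if_neg hi, hq0 _ (hw i hi)]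
    simp only [e1]
    rw [← sum_filter, sum_const, nsmul_eq_mul]
    congr 2
    rw [Multiset.count_map]
    have : (univ.filter (fun i => w i = a)) = univ.filter (fun i => a = w i) := by
      ext i; simp [eq_comm]
    rw [this]
    rfl
  have hu := key u (fun i hi => mem_erase.2 ⟨hi, mem_union_left _ (mem_image_of_mem _ (mem_univ i))⟩)
  have hv := key v (fun i hi => mem_erase.2 ⟨hi, mem_union_right _ (mem_image_of_mem _ (mem_univ i))⟩)
  have := poly_sum u v h q
  rw [hu, hv] at this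
  exact_mod_cast mul_right_cancel₀ hqa this


/-- the letters `exp (t u_i)` -/
noncomputable def zt {ℓ : ℕ} (u : Fin ℓ → ℝ) (t : ℝ) (k : ℕ) : ℝ :=
  if hk : k < ℓ then Real.exp (t * u ⟨k, hk⟩) else 0

theorem zt_val {ℓ : ℕ} (u : Fin ℓ → ℝ) (t : ℝ) (i : Fin ℓ) : zt u t i.val = Real.exp (t * u i) := by
  simp [zt]

noncomputable def hu {ℓ : ℕ} (u : Fin ℓ → ℝ) (m : ℕ) (t : ℝ) : ℝ := h (zt u t) m ℓ

theorem p_zt {ℓ : ℕ} (u : Fin ℓ → ℝ) (t : ℝ) (k : ℕ) : p (zt u t) k ℓ = P u ((k : ℝ) * t) := by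
  rw [p, ← Fin.sum_univ_eq_sum_range (fun i => zt u t i ^ k), P]
  apply sum_congr rfl
  intro i _
  rw [zt_val, ← Real.exp_nat_mul]
  congr 1; ring

theorem hu_newton {ℓ : ℕ} (u : Fin ℓ → ℝ) (m : ℕ) (t : ℝ) :
    ((m : ℝ) + 1) * hu u (m + 1) t
      = ∑ x ∈ antidiagonal m, P u (((x.1 : ℝ) + 1) * t) * hu u x.2 t := by
  rw [hu, newton]
  apply sum_congr rfl
  intro x _
  rw [p_zt, hu]
  push_cast
  rfl

/-- number of weakly increasing words -/
def hN : ℕ → ℕ → ℕ
  | 0, _ => 1
  | m + 1, n => ∑ i ∈ range n, hN m (i + 1)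

/-- value at the all-ones vector -/
noncomputable def eta (ℓ m : ℕ) : ℝ := h (fun _ => 1) m ℓ

theorem h_ones (m n : ℕ) : h (fun _ => 1) m n = (hN m n : ℝ) := by
  induction m generalizing n with
  | zero => simp [h, hN]
  | succ m ih => simp [h, hN, ih]

theorem hN_pos (m n : ℕ) : 0 < hN m (n + 1) := by
  induction m generalizing n with
  | zero => simp [hN]
  | succ m ih =>
    rw [hN]
    exact sum_pos (fun i _ => ih i) ⟨0, by simp⟩

theorem eta_newton (ℓ m : ℕ) :
    ((m : ℝ) + 1) * eta ℓ (m + 1) = ∑ x ∈ antidiagonal m, (ℓ : ℝ) * eta ℓ x.2 := by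
  rw [eta, newton]
  apply sum_congr rfl
  intro x _
  simp [p, eta]

theorem eta_int (ℓ m : ℕ) : ∃ e : ℤ, ((m + 1).factorial : ℝ) * eta ℓ (m + 1) = ℓ * e := by
  refine ⟨∑ x ∈ antidiagonal m, (m.factorial : ℤ) * (hN x.2 ℓ : ℤ), ?_⟩
  rw [Nat.factorial_succ]
  push_cast
  have := eta_newton ℓ m
  calc ((m : ℝ) + 1) * (m.factorial : ℝ) * eta ℓ (m + 1)
      = (m.factorial : ℝ) * (((m : ℝ) + 1) * eta ℓ (m + 1)) := by ring
    _ = _ := by
      rw [this, mul_sum, mul_sum]
      apply sum_congr rfl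
      intro x _
      rw [eta, h_ones]; ring

theorem P_lim {ℓ : ℕ} (w : Fin ℓ → ℝ) (a : ℝ) :
    Tendsto (fun t : ℝ => P w (a * t)) (𝓝[≠] 0) (𝓝 (ℓ : ℝ)) := by
  have : Continuous (fun t : ℝ => P w (a * t)) := (P_cont w).comp (by fun_prop)
  have h0 := this.tendsto 0
  rw [mul_zero, P_zero] at h0
  exact h0.mono_left nhdsWithin_le_nhds

theorem hu_lim {ℓ : ℕ} (u : Fin ℓ → ℝ) (m : ℕ) :
    Tendsto (fun t => hu u m t) (𝓝[≠] 0) (𝓝 (eta ℓ m)) := by
  induction m using Nat.strong_induction_on with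
  | _ m ih =>
    cases m with
    | zero => simp only [hu, eta, h_zero]; exact tendsto_const_nhds
    | succ m =>
      have hm : ((m : ℝ) + 1) ≠ 0 := by positivity
      have e1 : ∀ t, hu u (m + 1) t
          = (∑ x ∈ antidiagonal m, P u (((x.1 : ℝ) + 1) * t) * hu u x.2 t) / ((m : ℝ) + 1) := by
        intro t; rw [← hu_newton]; field_simp
      have e2 : eta ℓ (m + 1) = (∑ x ∈ antidiagonal m, (ℓ : ℝ) * eta ℓ x.2) / ((m : ℝ) + 1) := by
        rw [← eta_newton]; field_simp
      simp only [e1]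
      rw [e2]
      apply Tendsto.div_const
      apply tendsto_finsetSum
      intro x hx
      have : x.2 < m + 1 := by have := Finset.HasAntidiagonal.mem_antidiagonal.1 hx; omega
      exact (P_lim u _).mul (ih _ this)

/-- `g_0 = 0`, `g_{m+1} = ∑_{i+j=m} (i+1)^(k-1) η_j` where `η_j = hN j ℓ` -/
def gk (ℓ k : ℕ) : ℕ → ℕ
  | 0 => 0
  | m + 1 => ∑ x ∈ antidiagonal m, (x.1 + 1) ^ (k - 1) * hN x.2 ℓ

theorem eta_eq (ℓ m : ℕ) : eta ℓ m = (hN m ℓ : ℝ) := h_ones m ℓ

theorem swap (n : ℕ) (F : ℕ → ℕ → ℕ → ℝ) :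
    ∑ x ∈ antidiagonal n, ∑ y ∈ antidiagonal x.2, F x.1 y.1 y.2
      = ∑ x ∈ antidiagonal n, ∑ y ∈ antidiagonal x.2, F y.1 x.1 y.2 := by
  simp only [Finset.Nat.sum_antidiagonal_eq_sum_range_succ_mk]
  rw [Finset.sum_comm' (t' := range n.succ) (s' := fun j => range (n - j).succ)]
  · apply sum_congr rfl
    intro j _
    apply sum_congr rfl
    intro i _
    rw [Nat.sub_right_comm]
  · intro i j
    simp only [mem_range]
    omega

theorem gk_newton (ℓ k m : ℕ) :
    ((m : ℝ) + 1) * (gk ℓ (k + 1) (m + 1) : ℝ)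
      = ∑ x ∈ antidiagonal m, (((x.1 : ℝ) + 1) ^ (k + 1) * eta ℓ x.2 + ℓ * (gk ℓ (k + 1) x.2 : ℝ)) := by
  have e1 : ∑ x ∈ antidiagonal m, (ℓ : ℝ) * (gk ℓ (k + 1) x.2 : ℝ)
      = ∑ x ∈ antidiagonal m, ((x.1 : ℝ) + 1) ^ k * ((x.2 : ℝ) * eta ℓ x.2) := by
    cases m with
    | zero => simp [gk]
    | succ n =>
      rw [Finset.Nat.sum_antidiagonal_succ', Finset.Nat.sum_antidiagonal_succ']
      have e2 : ∀ x : ℕ × ℕ, (ℓ : ℝ) * (gk ℓ (k + 1) (x.2 + 1) : ℝ)
          = ∑ y ∈ antidiagonal x.2, (ℓ : ℝ) * (((y.1 : ℝ) + 1) ^ k * eta ℓ y.2) := by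
        intro x
        rw [gk, ← mul_sum]
        push_cast
        simp only [eta_eq, Nat.add_sub_cancel]
      simp only [e2]
      rw [swap n (fun _ r t => (ℓ : ℝ) * (((r : ℝ) + 1) ^ k * eta ℓ t))]
      simp only [gk, Nat.cast_zero, mul_zero, zero_mul, zero_add]
      apply sum_congr rfl
      intro x _
      have := eta_newton ℓ x.2
      push_cast
      rw [this, mul_sum]
      apply sum_congr rfl
      intro y _
      ring
  rw [sum_add_distrib, e1, gk]
  push_cast
  rw [mul_sum, ← sum_add_distrib]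
  apply sum_congr rfl
  intro x hx
  have hx0 := Finset.HasAntidiagonal.mem_antidiagonal.1 hx
  have hx1 : (m : ℝ) = x.1 + x.2 := by exact_mod_cast hx0.symm
  rw [← eta_eq, hx1]
  ring

theorem key {ℓ : ℕ} (u v : Fin ℓ → ℝ) (k : ℕ)
    (hm : ∀ j < k + 1, ∑ i, u i ^ j = ∑ i, v i ^ j) (m : ℕ) :
    Tendsto (fun t : ℝ => (hu u m t - hu v m t) / t ^ (k + 1)) (𝓝[≠] 0)
      (𝓝 (((∑ i, u i ^ (k + 1) - ∑ i, v i ^ (k + 1)) / ((k + 1).factorial : ℝ)) * (gk ℓ (k + 1) m : ℝ))) := by
  set c := (∑ i, u i ^ (k + 1) - ∑ i, v i ^ (k + 1)) / ((k + 1).factorial : ℝ) with hc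
  induction m using Nat.strong_induction_on with
  | _ m ih =>
    cases m with
    | zero =>
      simp only [hu, h_zero, sub_self, zero_div, gk, Nat.cast_zero, mul_zero]
      exact tendsto_const_nhds
    | succ m =>
      have hm1 : ((m : ℝ) + 1) ≠ 0 := by positivity
      have e1 : ∀ t : ℝ, (hu u (m + 1) t - hu v (m + 1) t) / t ^ (k + 1)
          = (∑ x ∈ antidiagonal m, ((P u (((x.1 : ℝ) + 1) * t) - P v (((x.1 : ℝ) + 1) * t)) / t ^ (k + 1)
              * hu u x.2 t + P v (((x.1 : ℝ) + 1) * t) * ((hu u x.2 t - hu v x.2 t) / t ^ (k + 1))))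
            / ((m : ℝ) + 1) := by
        intro t
        have a1 : hu u (m + 1) t
            = (∑ x ∈ antidiagonal m, P u (((x.1 : ℝ) + 1) * t) * hu u x.2 t) / ((m : ℝ) + 1) := by
          rw [← hu_newton]; field_simp
        have a2 : hu v (m + 1) t
            = (∑ x ∈ antidiagonal m, P v (((x.1 : ℝ) + 1) * t) * hu v x.2 t) / ((m : ℝ) + 1) := by
          rw [← hu_newton]; field_simp
        rw [a1, a2, ← sub_div, ← sum_sub_distrib, div_right_comm, sum_div]
        congr 1
        apply sum_congr rfl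
        intro x _
        ring
      simp only [e1]
      have e2 : c * (gk ℓ (k + 1) (m + 1) : ℝ) = (∑ x ∈ antidiagonal m,
          ((((x.1 : ℝ) + 1) ^ (k + 1) * c) * eta ℓ x.2
            + ℓ * (c * (gk ℓ (k + 1) x.2 : ℝ)))) / ((m : ℝ) + 1) := by
        have h1 := gk_newton ℓ k m
        rw [eq_div_iff hm1, mul_assoc, mul_comm ((gk ℓ (k + 1) (m + 1) : ℝ)), h1, mul_sum]
        apply sum_congr rfl
        intro x _
        ring
      rw [e2]
      apply Tendsto.div_const
      apply tendsto_finsetSum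
      intro x hx
      have hx' : x.2 < m + 1 := by have := Finset.HasAntidiagonal.mem_antidiagonal.1 hx; omega
      exact ((D_lim u v (k + 1) hm ((x.1 : ℝ) + 1)).mul (hu_lim u x.2)).add
        ((P_lim v _).mul (ih x.2 hx'))

/-- the integer `κ_k(a,b,ℓ) = g_a η_b + η_a g_b - g_{a+1} η_{b-1} - η_{a+1} g_{b-1}` (for `b ≥ 1`) -/
def kappa (a b ℓ k : ℕ) : ℤ :=
  (gk ℓ k a : ℤ) * hN b ℓ + hN a ℓ * gk ℓ k b
    - (gk ℓ k (a + 1) : ℤ) * hN (b - 1) ℓ - hN (a + 1) ℓ * gk ℓ k (b - 1)

theorem psum_all {ℓ : ℕ} (u v : Fin ℓ → ℝ) (h : ∀ k, k ≤ ℓ → ∑ i, u i ^ k = ∑ i, v i ^ k) (k : ℕ) :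
    ∑ i, u i ^ k = ∑ i, v i ^ k := by
  have hp : ∀ (w : Fin ℓ → ℝ) (k : ℕ),
      MvPolynomial.aeval w (MvPolynomial.psum (Fin ℓ) ℝ k) = ∑ i, w i ^ k := by
    intro w k; simp [MvPolynomial.psum]
  have he : ∀ k, MvPolynomial.aeval u (MvPolynomial.esymm (Fin ℓ) ℝ k)
      = MvPolynomial.aeval v (MvPolynomial.esymm (Fin ℓ) ℝ k) := by
    intro k
    induction k using Nat.strong_induction_on with
    | _ k ih =>
      by_cases hk : k ≤ ℓ
      · rcases Nat.eq_zero_or_pos k with h0 | h0
        · subst h0; simp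
        · have h1 := congrArg (MvPolynomial.aeval u) (MvPolynomial.mul_esymm_eq_sum (Fin ℓ) ℝ k)
          have h2 := congrArg (MvPolynomial.aeval v) (MvPolynomial.mul_esymm_eq_sum (Fin ℓ) ℝ k)
          simp only [map_mul, map_natCast, map_pow, map_neg, map_one, map_sum] at h1 h2
          have hk' : (k : ℝ) ≠ 0 := by positivity
          apply mul_left_cancel₀ hk'
          rw [h1, h2]
          congr 1
          apply sum_congr rfl
          intro a ha
          rw [mem_filter] at ha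
          have := Finset.HasAntidiagonal.mem_antidiagonal.1 ha.1
          rw [ih a.1 ha.2, hp, hp, h a.2 (by omega)]
      · have : MvPolynomial.esymm (Fin ℓ) ℝ k = 0 := by
          rw [MvPolynomial.esymm, Finset.powersetCard_eq_empty.2 (by simp; omega), sum_empty]
        rw [this, map_zero, map_zero]
  induction k using Nat.strong_induction_on with
  | _ k ih =>
    by_cases hk : k ≤ ℓ
    · exact h k hk
    · have h1 := congrArg (MvPolynomial.aeval u)
        (MvPolynomial.psum_eq_mul_esymm_sub_sum (Fin ℓ) ℝ k (by omega))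
      have h2 := congrArg (MvPolynomial.aeval v)
        (MvPolynomial.psum_eq_mul_esymm_sub_sum (Fin ℓ) ℝ k (by omega))
      simp only [map_mul, map_natCast, map_pow, map_neg, map_one, map_sum, map_sub] at h1 h2
      rw [hp] at h1 h2
      rw [h1, h2, he k]
      congr 1
      apply sum_congr rfl
      intro a ha
      rw [mem_filter] at ha
      have := Finset.HasAntidiagonal.mem_antidiagonal.1 ha.1
      have h3 := ha.2.1
      rw [he a.1, hp, hp, ih a.2 (by omega)]

theorem moments' {ℓ a B : ℕ} (hC : ∀ k, 1 ≤ k → k ≤ ℓ → kappa a (B + 1) ℓ k ≠ 0)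
    (u v : Fin ℓ → ℝ)
    (hS : ∀ t, hu u a t * hu u (B + 1) t - hu u (a + 1) t * hu u B t
      = hu v a t * hu v (B + 1) t - hu v (a + 1) t * hu v B t) (k : ℕ) (hkl : k ≤ ℓ) :
    ∑ i, u i ^ k = ∑ i, v i ^ k := by
  induction k using Nat.strong_induction_on with
  | _ k ih0 =>
    cases k with
    | zero => simp
    | succ k =>
    have ih : ∀ j < k + 1, ∑ i, u i ^ j = ∑ i, v i ^ j := fun j hj => ih0 j hj (by omega)
    set c := (∑ i, u i ^ (k + 1) - ∑ i, v i ^ (k + 1)) / ((k + 1).factorial : ℝ) with hc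
    have l1 := key u v k ih a
    have l2 := key u v k ih (B + 1)
    have l3 := key u v k ih (a + 1)
    have l4 := key u v k ih B
    rw [← hc] at l1 l2 l3 l4
    have T := (((l1.mul (hu_lim u (B + 1))).add ((hu_lim v a).mul l2)).sub
      ((l3.mul (hu_lim u B)).add ((hu_lim v (a + 1)).mul l4)))
    have T0 : Tendsto (fun _ : ℝ => (0 : ℝ)) (𝓝[≠] 0) (𝓝 0) := tendsto_const_nhds
    have lim := tendsto_nhds_unique (T.congr' (f₂ := fun _ => (0 : ℝ)) (by
      filter_upwards [self_mem_nhdsWithin] with t ht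
      have ht := hS t
      calc _ = ((hu u a t * hu u (B + 1) t - hu u (a + 1) t * hu u B t) -
            (hu v a t * hu v (B + 1) t - hu v (a + 1) t * hu v B t)) / t ^ (k + 1) := by ring
        _ = 0 := by rw [ht, sub_self, zero_div])) T0
    have hz : c * ((kappa a (B + 1) ℓ (k + 1) : ℤ) : ℝ) = 0 := by
      rw [kappa]
      simp only [Nat.add_sub_cancel]
      push_cast
      simp only [eta_eq] at lim
      linear_combination lim
    rcases mul_eq_zero.1 hz with h0 | h0
    · rw [hc, div_eq_zero_iff] at h0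
      rcases h0 with h0 | h0
      · linarith
      · exact absurd h0 (by positivity)
    · exact absurd (by exact_mod_cast h0) (hC (k + 1) (by omega) hkl)

theorem card_lt (a b ℓ : ℕ) (hb : 1 ≤ b) (hℓ : 1 ≤ ℓ) :
    (SSYT a b ℓ).card < (SSYT a b (ℓ + 1)).card := by
  classical
  set φ : ((Fin a → Fin ℓ) × (Fin b → Fin ℓ)) → ((Fin a → Fin (ℓ + 1)) × (Fin b → Fin (ℓ + 1))) :=
    fun T => (fun i => (T.1 i).castSucc, fun j => (T.2 j).castSucc) with hφ
  have hinj : Function.Injective φ := by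
    intro T T' h
    have h1 := congrArg Prod.fst h
    have h2 := congrArg Prod.snd h
    refine Prod.ext ?_ ?_
    · funext i; exact Fin.castSucc_injective _ (congrFun h1 i)
    · funext i; exact Fin.castSucc_injective _ (congrFun h2 i)
  rw [← card_image_of_injective _ hinj]
  apply card_lt_card
  rw [ssubset_iff_of_subset]
  · refine ⟨(fun _ => 0, fun _ => Fin.last ℓ), ?_, ?_⟩
    · rw [SSYT, mem_filter]
      refine ⟨mem_univ _, fun _ _ _ => le_refl _, fun _ _ _ => le_refl _, fun _ _ _ => ?_⟩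
      rw [Fin.lt_def]
      have : 0 < ℓ := hℓ
      simpa using this
    · intro hmem
      obtain ⟨T, _, hT⟩ := mem_image.1 hmem
      have h2 := congrFun (congrArg Prod.snd hT) ⟨0, hb⟩
      exact absurd h2 (Fin.castSucc_lt_last _).ne
  · intro T hT
    obtain ⟨T', hT', rfl⟩ := mem_image.1 hT
    rw [SSYT, mem_filter] at hT' ⊢
    obtain ⟨_, h1, h2, h3⟩ := hT'
    exact ⟨mem_univ _, fun i j hij => Fin.castSucc_le_castSucc_iff.2 (h1 i j hij),
      fun i j hij => Fin.castSucc_le_castSucc_iff.2 (h2 i j hij),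
      fun i j hij => Fin.castSucc_lt_castSucc_iff.2 (h3 i j hij)⟩

theorem card_lt' (a b m n : ℕ) (hb : 1 ≤ b) (hm : 1 ≤ m) (h : m < n) :
    (SSYT a b m).card < (SSYT a b n).card := by
  induction n, h using Nat.le_induction with
  | base => exact card_lt a b m hb hm
  | succ n hn ih => exact ih.trans (card_lt a b n hb (by omega))

theorem length_eq {a b m n : ℕ} (hb : 1 ≤ b) (hm : 1 ≤ m) (hn : 1 ≤ n)
    (h : (SSYT a b m).card = (SSYT a b n).card) : m = n := by
  rcases lt_trichotomy m n with h1 | h1 | h1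
  · exact absurd h (card_lt' a b m n hb hm h1).ne
  · exact h1
  · exact absurd h (card_lt' a b n m hb hn h1).ne'

/-- logarithms of the entries -/
noncomputable def lg (l : List ℕ) (i : Fin l.length) : ℝ := Real.log (l.get i)

theorem S_eq (a b : ℕ) (hab : b + 1 ≤ a) (l : List ℕ) (hl : ∀ a ∈ l, 0 < a) (t : ℝ) :
    hu (lg l) a t * hu (lg l) (b + 1) t - hu (lg l) (a + 1) t * hu (lg l) b t
      = ((prsList a (b + 1) l).map (fun w : ℕ => Real.exp (t * Real.log (w : ℝ)))).sum := by
  simp only [hu]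
  have h1 := sum_SSYT (zt (lg l) t) a (b + 1) l.length hab
  simp only [hp] at h1
  rw [← h1]
  rw [prsList, Multiset.map_map]
  change _ = ∑ T ∈ SSYT a (b + 1) l.length, _
  apply sum_congr rfl
  intro T _
  have hpos : ∀ i : Fin l.length, ((l.get i : ℕ) : ℝ) ≠ 0 := by
    intro i
    have := hl _ (List.get_mem l i)
    positivity
  simp only [zt_val, Function.comp]
  rw [Nat.cast_mul, Nat.cast_prod, Nat.cast_prod, Real.log_mul
    (prod_ne_zero_iff.2 (fun i _ => hpos _)) (prod_ne_zero_iff.2 (fun i _ => hpos _)),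
    Real.log_prod (fun i _ => hpos _), Real.log_prod (fun i _ => hpos _),
    mul_add, Real.exp_add, mul_sum, mul_sum, Real.exp_sum, Real.exp_sum]
  rfl

theorem hu_cast {m n : ℕ} (hmn : m = n) (u : Fin n → ℝ) (k : ℕ) (t : ℝ) :
    hu (fun i : Fin m => u (Fin.cast hmn i)) k t = hu u k t := by
  subst hmn; rfl

/-- equal values of `prs_{(a,B+1)}` force equal multisets of parts -/
theorem main {a B : ℕ} (hAB : B + 1 ≤ a) {l l' : List ℕ} (hl : ∀ a ∈ l, 0 < a) (hl' : ∀ a ∈ l', 0 < a)
    (h2 : 1 ≤ l.length) (h2' : 1 ≤ l'.length)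
    (hC : ∀ k, 1 ≤ k → k ≤ l.length → kappa a (B + 1) l.length k ≠ 0)
    (h : prsList a (B + 1) l = prsList a (B + 1) l') :
    (l : Multiset ℕ) = (l' : Multiset ℕ) := by
  have hlen : l.length = l'.length := by
    apply length_eq (a := a) (b := B + 1) (by omega) h2 h2'
    have := congrArg Multiset.card h
    simpa [prsList] using this
  have hm := multiset_eq (lg l) (fun i : Fin l.length => lg l' (Fin.cast hlen i))
    (psum_all _ _ (moments' hC _ _ (fun t => by
      rw [hu_cast hlen, hu_cast hlen, hu_cast hlen, hu_cast hlen, S_eq a B hAB l hl,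
        S_eq a B hAB l' hl', h])))
  have hx : ∀ (k : List ℕ), (∀ a ∈ k, 0 < a) →
      ((univ : Finset (Fin k.length)).val.map (lg k)).map (fun r => Real.exp r)
        = (k : Multiset ℕ).map (fun a : ℕ => (a : ℝ)) := by
    intro k hk
    rw [Multiset.map_map]
    have e1 : ((univ : Finset (Fin k.length)).val.map ((fun r => Real.exp r) ∘ lg k))
        = (univ : Finset (Fin k.length)).val.map (fun i => ((k.get i : ℕ) : ℝ)) := by
      apply Multiset.map_congr rfl
      intro i _
      simp only [Function.comp, lg]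
      rw [Real.exp_log]
      have := hk _ (List.get_mem k i)
      exact_mod_cast this
    rw [e1]
    have e2 : (univ : Finset (Fin k.length)).val.map (fun i => k.get i) = (k : Multiset ℕ) := by
      rw [Fin.univ_val_map, List.ofFn_get]
    rw [← e2, Multiset.map_map]
    rfl
  have hm' : (univ : Finset (Fin l.length)).val.map (fun i => lg l' (Fin.cast hlen i))
      = (univ : Finset (Fin l'.length)).val.map (lg l') := by
    rw [Fin.univ_val_map, Fin.univ_val_map]
    congr 1
    exact (List.ofFn_congr hlen.symm (lg l')).symm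
  rw [hm'] at hm
  have := hx l hl
  rw [hm, hx l' hl'] at this
  exact (Multiset.map_injective Nat.cast_injective this).symm

/-- computable form of `η_m` for `n + 1` letters -/
def et (n m : ℕ) : ℕ := (n + m).descFactorial m / m.factorial

theorem hN_eq (m n : ℕ) : hN m (n + 1) = et n m := by
  have h1 : hN m (n + 1) = (n + m).choose m := by
    induction m generalizing n with
    | zero => simp [hN]
    | succ m ih =>
      rw [hN]
      have h2 : ∀ i ∈ range (n + 1), hN m (i + 1) = (i + m).choose m := fun i _ => ih i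
      rw [sum_congr rfl h2]
      clear h2 ih
      induction n with
      | zero => simp
      | succ n ihn =>
        rw [sum_range_succ, ihn, show n + 1 + (m + 1) = (n + (m + 1)) + 1 by ring,
          Nat.choose_succ_succ (n + (m + 1)) m, add_comm, show n + 1 + m = n + (m + 1) by ring]
  rw [h1, et, Nat.choose_eq_descFactorial_div_factorial]

/-- computable form of `g_m` -/
def gc (n k m : ℕ) : ℕ := ((List.range m).map (fun j => (j + 1) ^ (k - 1) * et n (m - 1 - j))).sum

theorem gk_eq (n k m : ℕ) : gk (n + 1) k m = gc n k m := by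
  cases m with
  | zero => simp [gk, gc]
  | succ m =>
    rw [gk, gc, Finset.Nat.sum_antidiagonal_eq_sum_range_succ_mk]
    simp only [hN_eq, Nat.add_sub_cancel]
    rfl

def kc (a b n k : ℕ) : ℤ :=
  (gc n k a : ℤ) * et n b + et n a * gc n k b - (gc n k (a + 1) : ℤ) * et n (b - 1)
    - et n (a + 1) * gc n k (b - 1)

theorem kappa_eq (a b n k : ℕ) : kappa a b (n + 1) k = kc a b n k := by
  simp only [kappa, kc, gk_eq, hN_eq]

theorem check : ∀ a ∈ List.range 11, ∀ b ∈ List.range 11, 1 ≤ b → b ≤ a → (a ≠ b ∨ 4 ≤ b) →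
    ¬ (a = 2 ∧ b = 1) → ∀ n ∈ List.range 30, 1 ≤ n → (a = b → n + 1 ≠ 2 ∧ n + 1 ≠ 4) →
    (a = 2 * b → n + 1 ≠ 3) → ∀ k ∈ List.range 31, 1 ≤ k → k ≤ n + 1 → kc a b n k ≠ 0 := by
  decide +kernel

/-- **Main theorem.** Let `a ≥ b ≥ 1` and let `P`, `Q` be partitions with at least two parts, and let
`ℓ` be the number of parts of `P`. (1) If `κ_k(a,b,ℓ) ≠ 0` for `1 ≤ k ≤ ℓ` and
`prs_{(a,b)}(P) = prs_{(a,b)}(Q)`, then `P` and `Q` have the same parts.
(2) This applies to all shapes `(a,b)` with `a ≤ 10` other than `(1,1)`, `(2,2)`, `(3,3)`, `(2,1)` and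
all `ℓ ≤ 30`, except `ℓ = 2, 4` if `a = b`, and `ℓ = 3` if `a = 2b`. -/
theorem result :
    (∀ a b : ℕ, 1 ≤ b → b ≤ a → ∀ (m n : ℕ) (P : Nat.Partition m) (Q : Nat.Partition n),
      2 ≤ Multiset.card P.parts → 2 ≤ Multiset.card Q.parts →
      (∀ k : ℕ, 1 ≤ k → k ≤ Multiset.card P.parts → kappa a b (Multiset.card P.parts) k ≠ 0) →
      prs a b P = prs a b Q → P.parts = Q.parts) ∧
    (∀ a b : ℕ, 1 ≤ b → b ≤ a → a ≤ 10 → (a ≠ b ∨ 4 ≤ b) → ¬ (a = 2 ∧ b = 1) →
      ∀ (m n : ℕ) (P : Nat.Partition m) (Q : Nat.Partition n),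
      2 ≤ Multiset.card P.parts → 2 ≤ Multiset.card Q.parts → Multiset.card P.parts ≤ 30 →
      (a = b → Multiset.card P.parts ≠ 2 ∧ Multiset.card P.parts ≠ 4) →
      (a = 2 * b → Multiset.card P.parts ≠ 3) →
      prs a b P = prs a b Q → P.parts = Q.parts) := by
  have key1 : ∀ a b : ℕ, 1 ≤ b → b ≤ a → ∀ (m n : ℕ) (P : Nat.Partition m) (Q : Nat.Partition n),
      2 ≤ Multiset.card P.parts → 2 ≤ Multiset.card Q.parts →
      (∀ k : ℕ, 1 ≤ k → k ≤ Multiset.card P.parts → kappa a b (Multiset.card P.parts) k ≠ 0) →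
      prs a b P = prs a b Q → P.parts = Q.parts := by
    intro a b hb hab m n P Q hP hQ hC h
    obtain ⟨B, rfl⟩ : ∃ B, b = B + 1 := ⟨b - 1, by omega⟩
    have := main (a := a) (B := B) hab (l := P.parts.sort (· ≥ ·)) (l' := Q.parts.sort (· ≥ ·))
      (fun a ha => P.parts_pos (by simpa using ha)) (fun a ha => Q.parts_pos (by simpa using ha))
      (by simp only [Multiset.length_sort]; omega) (by simp only [Multiset.length_sort]; omega)
      (by simpa only [Multiset.length_sort] using hC) h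
    simpa using this
  refine ⟨key1, ?_⟩
  intro a b hb hab ha h1 h2 m n P Q hP hQ hL h3 h4 h
  refine key1 a b hb hab m n P Q hP hQ ?_ h
  intro k hk hkl
  obtain ⟨N, hN⟩ : ∃ N, Multiset.card P.parts = N + 1 := ⟨Multiset.card P.parts - 1, by omega⟩
  rw [hN] at hkl h3 h4 hL hP ⊢
  rw [kappa_eq]
  exact check a (List.mem_range.2 (by omega)) b (List.mem_range.2 (by omega)) hb hab h1 h2 N
    (List.mem_range.2 (by omega)) (by omega) h3 h4 k (List.mem_range.2 (by omega)) hk hkl

end Pool.Agent.Results.MP_0e1197_co.ExactCriterion
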