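import Mathlib

/-!
# MP_0e1197_co: the map `prs_μ` for the hooks `μ = (a,1)`.
-/

namespace Pool.Agent.Results.MP_0e1197_co.HookShapes

open Finset Filter Topology Asymptotics

/-- The semistandard Young tableaux of the two-row shape `(a,b)` with entries in `Fin ℓ`: the first
row `T.1` and the second row `T.2` are weakly increasing, and columns are strictly increasing. -/
def SSYT (a b ℓ : ℕ) : Finset ((Fin a → Fin ℓ) × (Fin b → Fin ℓ)) :=
  univ.filter (fun T => (∀ i j : Fin a, i ≤ j → T.1 i ≤ T.1 j) ∧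
    (∀ i j : Fin b, i ≤ j → T.2 i ≤ T.2 j) ∧
    ∀ (i : Fin a) (j : Fin b), i.val = j.val → T.1 i < T.2 j)

/-- the multiset of the summands of the Schur polynomial of shape `(a,b)` evaluated at the list `l` -/
def prsList (a b : ℕ) (l : List ℕ) : Multiset ℕ :=
  (SSYT a b l.length).val.map (fun T => (∏ i, l.get (T.1 i)) * ∏ j, l.get (T.2 j))

/-- `prs_{(a,b)}(λ)` for a partition `λ` of `n`: its parts are listed in nonincreasing order -/
def prs (a b : ℕ) {n : ℕ} (P : Nat.Partition n) : Multiset ℕ :=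
  prsList a b (P.parts.sort (· ≥ ·))

/-- the complete homogeneous polynomial of degree `m` in the first `n` letters -/
def h (z : ℕ → ℝ) : ℕ → ℕ → ℝ
  | 0, _ => 1
  | m + 1, n => ∑ i ∈ range n, z i * h z m (i + 1)

/-- words of length `m` in the first `n` letters -/
def W (m n : ℕ) : Finset (Fin m → ℕ) := Fintype.piFinset (fun _ => range n)

theorem mem_W {m n : ℕ} {f : Fin m → ℕ} : f ∈ W m n ↔ ∀ i, f i < n := by
  simp [W, Fintype.mem_piFinset]

theorem conv (m n : ℕ) (G : (Fin m → ℕ) → ℝ) :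
    ∑ f : Fin m → Fin n, G (fun i => (f i).val) = ∑ g ∈ W m n, G g := by
  refine sum_bij' (fun f _ => fun i => (f i).val) (fun g hg => fun i => ⟨g i, mem_W.1 hg i⟩)
    ?_ ?_ ?_ ?_ ?_
  · intro f _; exact mem_W.2 (fun i => (f i).isLt)
  · intro g _; exact mem_univ _
  · intro f _; rfl
  · intro g _; rfl
  · intro f _; rfl

theorem mono_snoc {m : ℕ} (F : Fin (m + 1) → ℕ) :
    Monotone F ↔ Monotone (fun i : Fin m => F i.castSucc) ∧ ∀ i : Fin m, F i.castSucc ≤ F (Fin.last m) := by
  constructor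
  · intro hF
    exact ⟨fun i j hij => hF (Fin.castSucc_le_castSucc_iff.2 hij), fun i => hF (Fin.le_last _)⟩
  · rintro ⟨h1, h2⟩ i j hij
    induction j using Fin.lastCases with
    | last =>
      induction i using Fin.lastCases with
      | last => exact le_refl _
      | cast i => exact h2 i
    | cast j =>
      induction i using Fin.lastCases with
      | last => exact absurd hij (not_le.2 (Fin.castSucc_lt_last j))
      | cast i => exact h1 (Fin.castSucc_le_castSucc_iff.1 hij)

theorem mono_cons {m : ℕ} (F : Fin (m + 2) → ℕ) :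
    Monotone F ↔ Monotone (fun i : Fin (m + 1) => F i.succ) ∧ F 0 ≤ F (Fin.succ 0) := by
  constructor
  · intro hF
    exact ⟨fun i j hij => hF (Fin.succ_le_succ_iff.2 hij), hF (Fin.zero_le _)⟩
  · rintro ⟨h1, h2⟩ i j hij
    induction i using Fin.cases with
    | zero =>
      induction j using Fin.cases with
      | zero => exact le_refl _
      | succ j => exact h2.trans (h1 (Fin.zero_le j))
    | succ i =>
      induction j using Fin.cases with
      | zero => exact absurd hij (not_le.2 (Fin.succ_pos i))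
      | succ j => exact h1 (Fin.succ_le_succ_iff.1 hij)

open Classical in
theorem sum_mono (z : ℕ → ℝ) (m n : ℕ) :
    (∑ f ∈ W m n, if Monotone f then ∏ i, z (f i) else 0) = h z m n := by
  induction m generalizing n with
  | zero =>
    rw [h]
    have : W 0 n = {fun i => i.elim0} := by
      ext f; rw [mem_W, mem_singleton]; constructor
      · intro _; exact Subsingleton.elim _ _
      · intro _ i; exact i.elim0
    have hm : Monotone (fun i : Fin 0 => (i.elim0 : ℕ)) := fun i => i.elim0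
    rw [this, sum_singleton, if_pos hm]
    simp
  | succ m ih =>
    have e1 : (∑ f ∈ W (m + 1) n, if Monotone f then ∏ i, z (f i) else 0)
        = ∑ q ∈ range n ×ˢ W m n, if (Monotone q.2 ∧ ∀ i, q.2 i ≤ q.1) then
            z q.1 * ∏ i, z (q.2 i) else 0 := by
      refine sum_bij' (fun F _ => (F (Fin.last m), fun i : Fin m => F i.castSucc))
        (fun q _ => (Fin.snoc (α := fun _ => ℕ) q.2 q.1 : Fin (m + 1) → ℕ)) ?_ ?_ ?_ ?_ ?_
      · intro F hF
        rw [mem_product]
        exact ⟨mem_range.2 (mem_W.1 hF _), mem_W.2 (fun i => mem_W.1 hF _)⟩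
      · intro q hq
        rw [mem_product] at hq
        rw [mem_W]
        intro i
        induction i using Fin.lastCases with
        | last => simpa using mem_range.1 hq.1
        | cast i => simpa using mem_W.1 hq.2 i
      · intro F _
        exact Fin.snoc_init_self F
      · intro q _
        refine Prod.ext ?_ ?_
        · simp
        · funext i; simp
      · intro F _
        simp only [mono_snoc F]
        rw [Fin.prod_univ_castSucc, mul_comm]
    rw [e1, sum_product, h]
    apply sum_congr rfl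
    intro r hr
    rw [← ih (r + 1), mul_sum]
    have e2 : W m (r + 1) = (W m n).filter (fun f => ∀ i, f i ≤ r) := by
      ext f
      rw [mem_filter, mem_W, mem_W]
      have := mem_range.1 hr
      constructor
      · intro hf; exact ⟨fun i => by have := hf i; omega, fun i => by have := hf i; omega⟩
      · intro hf i; have := hf.2 i; omega
    rw [e2, sum_filter]
    apply sum_congr rfl
    intro f _
    by_cases h1 : ∀ i, f i ≤ r
    · by_cases h2 : Monotone f
      · simp [h1, h2]
      · simp [h2]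
    · simp [h1]

open Classical in
theorem sum_hook (z : ℕ → ℝ) (a ℓ : ℕ) :
    ∑ T ∈ SSYT (a + 1) 1 ℓ, (∏ i, z (T.1 i).val) * ∏ j, z (T.2 j).val
      = h z (a + 1) ℓ * h z 1 ℓ - h z (a + 2) ℓ := by
  -- rewrite as a sum over pairs (f, r)
  have e0 : ∑ T ∈ SSYT (a + 1) 1 ℓ, (∏ i, z (T.1 i).val) * ∏ j, z (T.2 j).val
      = ∑ f ∈ W (a + 1) ℓ, ∑ r ∈ range ℓ, if Monotone f ∧ f 0 < r then (∏ i, z (f i)) * z r else 0 := by
    rw [SSYT, sum_filter, Fintype.sum_prod_type, ← conv (a + 1) ℓ (fun f => ∑ r ∈ range ℓ,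
      if Monotone f ∧ f 0 < r then (∏ i, z (f i)) * z r else 0)]
    apply sum_congr rfl
    intro f _
    rw [← Fin.sum_univ_eq_sum_range (fun r => if Monotone (fun i => (f i).val) ∧ (f 0).val < r then
      (∏ i, z (f i).val) * z r else 0) ℓ]
    rw [Fintype.sum_equiv (Equiv.funUnique (Fin 1) (Fin ℓ)) _
      (fun r : Fin ℓ => if Monotone (fun i => (f i).val) ∧ (f 0).val < r.val then
      (∏ i, z (f i).val) * z r.val else 0)]
    intro g
    have hc : ((∀ i j : Fin (a + 1), i ≤ j → f i ≤ f j) ∧ (∀ i j : Fin 1, i ≤ j → g i ≤ g j) ∧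
        ∀ (i : Fin (a + 1)) (j : Fin 1), i.val = j.val → f i < g j) ↔
        (Monotone (fun i => (f i).val) ∧ (f 0).val < (g 0).val) := by
      constructor
      · rintro ⟨h1, -, h3⟩
        exact ⟨fun i j hij => h1 i j hij, h3 0 0 rfl⟩
      · rintro ⟨h1, h3⟩
        refine ⟨fun i j hij => h1 hij, ?_, ?_⟩
        · intro i j _; rw [Subsingleton.elim i j]
        · intro i j hij
          have hj : j = 0 := Subsingleton.elim _ _
          subst hj
          have hi : i = 0 := Fin.ext hij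
          subst hi
          exact h3
    simp only [hc, Fin.prod_univ_one]
    rfl
  have e1 : h z (a + 1) ℓ * h z 1 ℓ
      = ∑ f ∈ W (a + 1) ℓ, ∑ r ∈ range ℓ, if Monotone f then (∏ i, z (f i)) * z r else 0 := by
    rw [← sum_mono z (a + 1) ℓ, sum_mul]
    apply sum_congr rfl
    intro f _
    have : h z 1 ℓ = ∑ r ∈ range ℓ, z r := by simp [h]
    rw [this]
    by_cases hf : Monotone f
    · simp only [if_pos hf]; rw [mul_sum]
    · simp [hf]
  have e2 : h z (a + 2) ℓ
      = ∑ f ∈ W (a + 1) ℓ, ∑ r ∈ range ℓ, if Monotone f ∧ r ≤ f 0 then (∏ i, z (f i)) * z r else 0 := by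
    rw [← sum_mono z (a + 2) ℓ, ← sum_product']
    refine sum_bij' (fun F _ => ((fun i : Fin (a + 1) => F i.succ), F 0))
        (fun q _ => (Fin.cons (α := fun _ => ℕ) q.2 q.1 : Fin (a + 2) → ℕ)) ?_ ?_ ?_ ?_ ?_
    · intro F hF
      rw [mem_product]
      exact ⟨mem_W.2 (fun i => mem_W.1 hF _), mem_range.2 (mem_W.1 hF _)⟩
    · intro q hq
      rw [mem_product] at hq
      rw [mem_W]
      intro i
      induction i using Fin.cases with
      | zero => simpa using mem_range.1 hq.2
      | succ i => simpa using mem_W.1 hq.1 i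
    · intro F _
      exact Fin.cons_self_tail F
    · intro q _
      refine Prod.ext ?_ ?_
      · funext i; simp
      · simp
    · intro F _
      simp only [mono_cons F]
      rw [Fin.prod_univ_succ, mul_comm]
  rw [e0, e1, e2, ← sum_sub_distrib]
  apply sum_congr rfl
  intro f _
  rw [← sum_sub_distrib]
  apply sum_congr rfl
  intro r _
  by_cases hf : Monotone f
  · by_cases hr : f 0 < r
    · simp [hf, hr, not_le.2 hr]
    · simp [hf, hr, not_lt.1 hr]
  · simp [hf]


def p (z : ℕ → ℝ) (k n : ℕ) : ℝ := ∑ i ∈ range n, z i ^ k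

theorem p_succ (z : ℕ → ℝ) (k n : ℕ) : p z k (n + 1) = p z k n + z n ^ k := by
  simp [p, sum_range_succ]

theorem h_succ (z : ℕ → ℝ) (m n : ℕ) :
    h z (m + 1) (n + 1) = h z (m + 1) n + z n * h z m (n + 1) := by
  simp only [h, sum_range_succ]

theorem h_zero (z : ℕ → ℝ) (n : ℕ) : h z 0 n = 1 := rfl

theorem h_one (z : ℕ → ℝ) (n : ℕ) : h z 1 n = p z 1 n := by simp [h, p]

/-- Newton's identities for complete homogeneous polynomials -/
theorem newton (z : ℕ → ℝ) (n m : ℕ) :
    ((m : ℝ) + 1) * h z (m + 1) n = ∑ x ∈ antidiagonal m, p z (x.1 + 1) n * h z x.2 n := by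
  induction n generalizing m with
  | zero => simp [h, p]
  | succ n ihn =>
    induction m with
    | zero =>
      simp only [Finset.Nat.antidiagonal_zero, sum_singleton, h_zero, zero_add, h_one]; push_cast; ring
    | succ m ihm =>
      have hB : ∑ x ∈ antidiagonal (m + 1), p z (x.1 + 1) n * h z x.2 (n + 1)
          = ((m : ℝ) + 1 + 1) * h z (m + 2) n
            + z n * ∑ x ∈ antidiagonal m, p z (x.1 + 1) n * h z x.2 (n + 1) := by
        have := ihn (m + 1)
        push_cast at this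
        have e : ∑ x ∈ antidiagonal m, p z (x.1 + 1) n * h z (x.2 + 1) (n + 1)
            = ∑ x ∈ antidiagonal m, p z (x.1 + 1) n * h z (x.2 + 1) n
              + z n * ∑ x ∈ antidiagonal m, p z (x.1 + 1) n * h z x.2 (n + 1) := by
          rw [mul_sum, ← sum_add_distrib]
          apply sum_congr rfl
          intro x _
          rw [h_succ]; ring
        rw [this, Finset.Nat.sum_antidiagonal_succ', Finset.Nat.sum_antidiagonal_succ', h_zero, h_zero]
        simp only []
        linear_combination e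
      have hA : ∑ x ∈ antidiagonal (m + 1), z n ^ (x.1 + 1) * h z x.2 (n + 1)
          = z n * h z (m + 1) (n + 1) + z n * ∑ x ∈ antidiagonal m, z n ^ (x.1 + 1) * h z x.2 (n + 1) := by
        rw [Finset.Nat.sum_antidiagonal_succ, mul_sum]
        congr 1
        · simp
        · apply sum_congr rfl
          intro x _
          rw [pow_succ]; ring
      have split : ∀ m' : ℕ, ∑ x ∈ antidiagonal m', p z (x.1 + 1) (n + 1) * h z x.2 (n + 1)
          = ∑ x ∈ antidiagonal m', p z (x.1 + 1) n * h z x.2 (n + 1)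
            + ∑ x ∈ antidiagonal m', z n ^ (x.1 + 1) * h z x.2 (n + 1) := by
        intro m'
        rw [← sum_add_distrib]
        apply sum_congr rfl
        intro x _
        rw [p_succ]; ring
      rw [split, hA, hB]
      rw [split] at ihm
      rw [h_succ z (m + 1) n]
      push_cast
      linear_combination (z n) * ihm



/-- `P u t = ∑ exp (t u_i)` -/
noncomputable def P {ℓ : ℕ} (u : Fin ℓ → ℝ) (t : ℝ) : ℝ := ∑ i, Real.exp (t * u i)

theorem P_zero {ℓ : ℕ} (u : Fin ℓ → ℝ) : P u 0 = ℓ := by simp [P]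

theorem P_cont {ℓ : ℕ} (u : Fin ℓ → ℝ) : Continuous (P u) := by
  unfold P; fun_prop

theorem P_small {ℓ : ℕ} (u : Fin ℓ → ℝ) (k : ℕ) :
    (fun t => P u t - ∑ j ∈ range (k + 1), (∑ i, u i ^ j) * t ^ j / (j.factorial : ℝ))
      =o[𝓝 0] (fun t : ℝ => t ^ k) := by
  have h : ∀ i ∈ (univ : Finset (Fin ℓ)), (fun t : ℝ => Real.exp (t * u i) -
      ∑ j ∈ range (k + 1), (t * u i) ^ j / (j.factorial : ℝ)) =o[𝓝 0] (fun t : ℝ => t ^ k) := by
    intro i _
    have h1 := Real.exp_sub_sum_range_succ_isLittleO_pow k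
    have h2 : Tendsto (fun t : ℝ => t * u i) (𝓝 0) (𝓝 0) := by
      have : Continuous (fun t : ℝ => t * u i) := by fun_prop
      simpa using this.tendsto 0
    have h3 := h1.comp_tendsto h2
    refine h3.trans_isBigO ?_
    have : ((fun x : ℝ => x ^ k) ∘ fun t : ℝ => t * u i) = fun t : ℝ => (u i ^ k) * t ^ k := by
      funext t; simp [mul_pow, mul_comm]
    rw [this]
    exact isBigO_const_mul_self _ _ _
  have h' := IsLittleO.sum h
  refine h'.congr_left ?_
  intro t
  rw [Finset.sum_apply]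
  simp only [P, sum_sub_distrib]
  congr 1
  rw [sum_comm]
  apply sum_congr rfl
  intro j _
  rw [sum_mul, sum_div]
  apply sum_congr rfl
  intro i _
  rw [mul_pow]; ring

theorem D_lim {ℓ : ℕ} (u v : Fin ℓ → ℝ) (k : ℕ)
    (h : ∀ j < k, ∑ i, u i ^ j = ∑ i, v i ^ j) (a : ℝ) :
    Tendsto (fun t : ℝ => (P u (a * t) - P v (a * t)) / t ^ k) (𝓝[≠] 0)
      (𝓝 (a ^ k * ((∑ i, u i ^ k - ∑ i, v i ^ k) / (k.factorial : ℝ)))) := by
  set c := (∑ i, u i ^ k - ∑ i, v i ^ k) / (k.factorial : ℝ) with hc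
  have h1 := (P_small u k).sub (P_small v k)
  have h2 : (fun t => P u t - P v t - c * t ^ k) =o[𝓝 0] (fun t : ℝ => t ^ k) := by
    refine h1.congr_left ?_
    intro t
    rw [sum_range_succ, sum_range_succ]
    have : ∑ j ∈ range k, (∑ i, u i ^ j) * t ^ j / (j.factorial : ℝ)
        = ∑ j ∈ range k, (∑ i, v i ^ j) * t ^ j / (j.factorial : ℝ) := by
      apply sum_congr rfl
      intro j hj
      rw [h j (mem_range.1 hj)]
    rw [this, hc]
    ring
  have h3 : Tendsto (fun t : ℝ => a * t) (𝓝 0) (𝓝 0) := by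
    have : Continuous (fun t : ℝ => a * t) := by fun_prop
    simpa using this.tendsto 0
  have h4 := h2.comp_tendsto h3
  have h5 : (fun t : ℝ => P u (a * t) - P v (a * t) - c * (a * t) ^ k) =o[𝓝 0]
      (fun t : ℝ => t ^ k) := by
    refine h4.trans_isBigO ?_
    have : ((fun x : ℝ => x ^ k) ∘ fun t : ℝ => a * t) = fun t : ℝ => a ^ k * t ^ k := by
      funext t; simp [mul_pow]
    rw [this]
    exact isBigO_const_mul_self _ _ _
  have h6 := (h5.tendsto_div_nhds_zero).mono_left (nhdsWithin_le_nhds (s := {(0 : ℝ)}ᶜ))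
  have h7 := h6.add_const (a ^ k * c)
  rw [zero_add] at h7
  refine h7.congr' ?_
  filter_upwards [self_mem_nhdsWithin] with t ht
  have ht' : t ≠ 0 := ht
  have : t ^ k ≠ 0 := pow_ne_zero _ ht'
  field_simp
  ring

theorem poly_sum {ℓ : ℕ} (u v : Fin ℓ → ℝ) (h : ∀ k, ∑ i, u i ^ k = ∑ i, v i ^ k)
    (q : Polynomial ℝ) : ∑ i, q.eval (u i) = ∑ i, q.eval (v i) := by
  simp only [Polynomial.eval_eq_sum_range]
  rw [sum_comm]
  conv_rhs => rw [sum_comm]
  apply sum_congr rfl
  intro j _
  rw [← mul_sum, ← mul_sum, h]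

theorem multiset_eq {ℓ : ℕ} (u v : Fin ℓ → ℝ) (h : ∀ k, ∑ i, u i ^ k = ∑ i, v i ^ k) :
    (univ : Finset (Fin ℓ)).val.map u = (univ : Finset (Fin ℓ)).val.map v := by
  classical
  ext a
  set S : Finset ℝ := (univ.image u ∪ univ.image v).erase a with hS
  set q : Polynomial ℝ := ∏ b ∈ S, (Polynomial.X - Polynomial.C b) with hq
  have hqa : q.eval a ≠ 0 := by
    rw [hq, Polynomial.eval_prod]
    apply prod_ne_zero_iff.2
    intro b hb
    simp only [Polynomial.eval_sub, Polynomial.eval_X, Polynomial.eval_C]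
    exact sub_ne_zero.2 (fun hab => (mem_erase.1 hb).1 hab.symm)
  have hq0 : ∀ b ∈ S, q.eval b = 0 := by
    intro b hb
    rw [hq, Polynomial.eval_prod]
    apply prod_eq_zero hb
    simp
  have key : ∀ w : Fin ℓ → ℝ, (∀ i, w i ≠ a → w i ∈ S) →
      ∑ i, q.eval (w i) = (Multiset.count a (univ.val.map w) : ℝ) * q.eval a := by
    intro w hw
    have e1 : ∀ i, q.eval (w i) = if w i = a then q.eval a else 0 := by
      intro i
      by_cases hi : w i = a
      · rw [if_pos hi, hi]
      · rw [if_neg hi, hq0 _ (hw i hi)]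
    simp only [e1]
    rw [← sum_filter, sum_const, nsmul_eq_mul]
    congr 2
    rw [Multiset.count_map]
    have : (univ.filter (fun i => w i = a)) = univ.filter (fun i => a = w i) := by
      ext i; simp [eq_comm]
    rw [this]
    rfl
  have hu := key u (fun i hi => mem_erase.2 ⟨hi, mem_union_left _ (mem_image_of_mem _ (mem_univ i))⟩)
  have hv := key v (fun i hi => mem_erase.2 ⟨hi, mem_union_right _ (mem_image_of_mem _ (mem_univ i))⟩)
  have := poly_sum u v h q
  rw [hu, hv] at this
  exact_mod_cast mul_right_cancel₀ hqa this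


/-- the letters `exp (t u_i)` -/
noncomputable def zt {ℓ : ℕ} (u : Fin ℓ → ℝ) (t : ℝ) (k : ℕ) : ℝ :=
  if hk : k < ℓ then Real.exp (t * u ⟨k, hk⟩) else 0

theorem zt_val {ℓ : ℕ} (u : Fin ℓ → ℝ) (t : ℝ) (i : Fin ℓ) : zt u t i.val = Real.exp (t * u i) := by
  simp [zt]

noncomputable def hu {ℓ : ℕ} (u : Fin ℓ → ℝ) (m : ℕ) (t : ℝ) : ℝ := h (zt u t) m ℓ

theorem p_zt {ℓ : ℕ} (u : Fin ℓ → ℝ) (t : ℝ) (k : ℕ) : p (zt u t) k ℓ = P u ((k : ℝ) * t) := by
  rw [p, ← Fin.sum_univ_eq_sum_range (fun i => zt u t i ^ k), P]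
  apply sum_congr rfl
  intro i _
  rw [zt_val, ← Real.exp_nat_mul]
  congr 1; ring

theorem hu_newton {ℓ : ℕ} (u : Fin ℓ → ℝ) (m : ℕ) (t : ℝ) :
    ((m : ℝ) + 1) * hu u (m + 1) t
      = ∑ x ∈ antidiagonal m, P u (((x.1 : ℝ) + 1) * t) * hu u x.2 t := by
  rw [hu, newton]
  apply sum_congr rfl
  intro x _
  rw [p_zt, hu]
  push_cast
  rfl

/-- number of weakly increasing words -/
def hN : ℕ → ℕ → ℕ
  | 0, _ => 1
  | m + 1, n => ∑ i ∈ range n, hN m (i + 1)

/-- value at the all-ones vector -/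
noncomputable def eta (ℓ m : ℕ) : ℝ := h (fun _ => 1) m ℓ

theorem h_ones (m n : ℕ) : h (fun _ => 1) m n = (hN m n : ℝ) := by
  induction m generalizing n with
  | zero => simp [h, hN]
  | succ m ih => simp [h, hN, ih]

theorem hN_pos (m n : ℕ) : 0 < hN m (n + 1) := by
  induction m generalizing n with
  | zero => simp [hN]
  | succ m ih =>
    rw [hN]
    exact sum_pos (fun i _ => ih i) ⟨0, by simp⟩

theorem eta_newton (ℓ m : ℕ) :
    ((m : ℝ) + 1) * eta ℓ (m + 1) = ∑ x ∈ antidiagonal m, (ℓ : ℝ) * eta ℓ x.2 := by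
  rw [eta, newton]
  apply sum_congr rfl
  intro x _
  simp [p, eta]

theorem eta_int (ℓ m : ℕ) : ∃ e : ℤ, ((m + 1).factorial : ℝ) * eta ℓ (m + 1) = ℓ * e := by
  refine ⟨∑ x ∈ antidiagonal m, (m.factorial : ℤ) * (hN x.2 ℓ : ℤ), ?_⟩
  rw [Nat.factorial_succ]
  push_cast
  have := eta_newton ℓ m
  calc ((m : ℝ) + 1) * (m.factorial : ℝ) * eta ℓ (m + 1)
      = (m.factorial : ℝ) * (((m : ℝ) + 1) * eta ℓ (m + 1)) := by ring
    _ = _ := by
      rw [this, mul_sum, mul_sum]
      apply sum_congr rfl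
      intro x _
      rw [eta, h_ones]; ring

theorem P_lim {ℓ : ℕ} (w : Fin ℓ → ℝ) (a : ℝ) :
    Tendsto (fun t : ℝ => P w (a * t)) (𝓝[≠] 0) (𝓝 (ℓ : ℝ)) := by
  have : Continuous (fun t : ℝ => P w (a * t)) := (P_cont w).comp (by fun_prop)
  have h0 := this.tendsto 0
  rw [mul_zero, P_zero] at h0
  exact h0.mono_left nhdsWithin_le_nhds

theorem hu_lim {ℓ : ℕ} (u : Fin ℓ → ℝ) (m : ℕ) :
    Tendsto (fun t => hu u m t) (𝓝[≠] 0) (𝓝 (eta ℓ m)) := by
  induction m using Nat.strong_induction_on with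
  | _ m ih =>
    cases m with
    | zero => simp only [hu, eta, h_zero]; exact tendsto_const_nhds
    | succ m =>
      have hm : ((m : ℝ) + 1) ≠ 0 := by positivity
      have e1 : ∀ t, hu u (m + 1) t
          = (∑ x ∈ antidiagonal m, P u (((x.1 : ℝ) + 1) * t) * hu u x.2 t) / ((m : ℝ) + 1) := by
        intro t; rw [← hu_newton]; field_simp
      have e2 : eta ℓ (m + 1) = (∑ x ∈ antidiagonal m, (ℓ : ℝ) * eta ℓ x.2) / ((m : ℝ) + 1) := by
        rw [← eta_newton]; field_simp
      simp only [e1]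
      rw [e2]
      apply Tendsto.div_const
      apply tendsto_finsetSum
      intro x hx
      have : x.2 < m + 1 := by have := Finset.HasAntidiagonal.mem_antidiagonal.1 hx; omega
      exact (P_lim u _).mul (ih _ this)

/-- the main term of `m! g_m` modulo `ℓ` -/
def Bf (k m : ℕ) : ℤ := if m = 0 then 0 else ((m - 1).factorial : ℤ) * (m : ℤ) ^ k

theorem key {ℓ : ℕ} (u v : Fin ℓ → ℝ) (k : ℕ)
    (hm : ∀ j < k, ∑ i, u i ^ j = ∑ i, v i ^ j) (m : ℕ) :
    ∃ r : ℝ, Tendsto (fun t : ℝ => (hu u m t - hu v m t) / t ^ k) (𝓝[≠] 0)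
      (𝓝 (((∑ i, u i ^ k - ∑ i, v i ^ k) / (k.factorial : ℝ)) * r)) ∧
      ∃ w : ℤ, (m.factorial : ℝ) * r = (Bf k m : ℝ) + ℓ * w := by
  set c := (∑ i, u i ^ k - ∑ i, v i ^ k) / (k.factorial : ℝ) with hc
  induction m using Nat.strong_induction_on with
  | _ m ih =>
    cases m with
    | zero =>
      refine ⟨0, ?_, 0, by simp [Bf]⟩
      simp only [hu, h_zero, sub_self, zero_div, mul_zero]
      exact tendsto_const_nhds
    | succ m =>
      have hm1 : ((m : ℝ) + 1) ≠ 0 := by positivity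
      choose! g hg using ih
      refine ⟨(∑ x ∈ antidiagonal m, (((x.1 : ℝ) + 1) ^ k * eta ℓ x.2 + ℓ * g x.2)) / ((m : ℝ) + 1),
        ?_, ?_⟩
      · have e1 : ∀ t : ℝ, (hu u (m + 1) t - hu v (m + 1) t) / t ^ k
            = (∑ x ∈ antidiagonal m, ((P u (((x.1 : ℝ) + 1) * t) - P v (((x.1 : ℝ) + 1) * t)) / t ^ k
                * hu u x.2 t + P v (((x.1 : ℝ) + 1) * t) * ((hu u x.2 t - hu v x.2 t) / t ^ k)))
              / ((m : ℝ) + 1) := by
          intro t
          have a1 : hu u (m + 1) t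
              = (∑ x ∈ antidiagonal m, P u (((x.1 : ℝ) + 1) * t) * hu u x.2 t) / ((m : ℝ) + 1) := by
            rw [← hu_newton]; field_simp
          have a2 : hu v (m + 1) t
              = (∑ x ∈ antidiagonal m, P v (((x.1 : ℝ) + 1) * t) * hu v x.2 t) / ((m : ℝ) + 1) := by
            rw [← hu_newton]; field_simp
          rw [a1, a2, ← sub_div, ← sum_sub_distrib, div_right_comm, sum_div]
          congr 1
          apply sum_congr rfl
          intro x _
          ring
        simp only [e1]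
        have e2 : c * ((∑ x ∈ antidiagonal m, (((x.1 : ℝ) + 1) ^ k * eta ℓ x.2 + ℓ * g x.2))
            / ((m : ℝ) + 1)) = (∑ x ∈ antidiagonal m, ((((x.1 : ℝ) + 1) ^ k * c) * eta ℓ x.2
              + ℓ * (c * g x.2))) / ((m : ℝ) + 1) := by
          rw [← mul_div_assoc, mul_sum]
          congr 1
          apply sum_congr rfl
          intro x _
          ring
        rw [e2]
        apply Tendsto.div_const
        apply tendsto_finsetSum
        intro x hx
        have hx' : x.2 < m + 1 := by have := Finset.HasAntidiagonal.mem_antidiagonal.1 hx; omega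
        exact ((D_lim u v k hm ((x.1 : ℝ) + 1)).mul (hu_lim u x.2)).add
          ((P_lim v _).mul (hg x.2 hx').1)
      · have each : ∀ x ∈ antidiagonal m, ∃ w : ℤ,
            (m.factorial : ℝ) * (((x.1 : ℝ) + 1) ^ k * eta ℓ x.2 + ℓ * g x.2)
            = (if x.2 = 0 then ((m.factorial : ℝ) * ((m : ℝ) + 1) ^ k) else 0) + ℓ * w := by
          intro x hx
          have hx0 := Finset.HasAntidiagonal.mem_antidiagonal.1 hx
          obtain ⟨w0, hw0⟩ := (hg x.2 (by omega)).2
          by_cases h0 : x.2 = 0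
          · rw [if_pos h0]
            have hx1 : x.1 = m := by omega
            rw [h0] at hw0 ⊢
            simp only [Bf, Nat.factorial_zero, Nat.cast_one, one_mul, if_true, Int.cast_zero,
              zero_add] at hw0
            refine ⟨(m.factorial : ℤ) * (ℓ * w0), ?_⟩
            rw [hx1, hw0, eta, h_zero]
            push_cast
            ring
          · rw [if_neg h0]
            obtain ⟨j, hj⟩ := Nat.exists_eq_succ_of_ne_zero h0
            obtain ⟨e, he⟩ := eta_int ℓ j
            obtain ⟨q, hq⟩ := Nat.factorial_dvd_factorial (show x.2 ≤ m by omega)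
            rw [← Nat.succ_eq_add_one, ← hj] at he
            refine ⟨(q : ℤ) * (((x.1 : ℤ) + 1) ^ k * e + (Bf k x.2 + ℓ * w0)), ?_⟩
            have hqr : (m.factorial : ℝ) = (x.2.factorial : ℝ) * q := by exact_mod_cast hq
            rw [hqr]
            push_cast
            linear_combination (q : ℝ) * ((x.1 : ℝ) + 1) ^ k * he + (q : ℝ) * ℓ * hw0
        choose! w hw using each
        refine ⟨∑ x ∈ antidiagonal m, w x, ?_⟩
        have e3 : (((m + 1).factorial : ℕ) : ℝ) * ((∑ x ∈ antidiagonal m, (((x.1 : ℝ) + 1) ^ k * eta ℓ x.2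
            + ℓ * g x.2)) / ((m : ℝ) + 1)) = ∑ x ∈ antidiagonal m, (m.factorial : ℝ) *
              (((x.1 : ℝ) + 1) ^ k * eta ℓ x.2 + ℓ * g x.2) := by
          rw [← mul_sum, Nat.factorial_succ]
          push_cast
          field_simp
        rw [e3, sum_congr rfl hw, sum_add_distrib, ← mul_sum]
        have e4 : ∑ x ∈ antidiagonal m, (if x.2 = 0 then ((m.factorial : ℝ) * ((m : ℝ) + 1) ^ k) else 0)
            = (Bf k (m + 1) : ℝ) := by
          rw [sum_eq_single (m, 0)]
          · simp [Bf]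
          · intro x hx hne
            rw [if_neg]
            intro h0
            apply hne
            have := Finset.HasAntidiagonal.mem_antidiagonal.1 hx
            exact Prod.ext (by simp; omega) h0
          · intro hnot
            exact absurd (Finset.HasAntidiagonal.mem_antidiagonal.2 (by simp)) hnot
        rw [e4]
        push_cast
        rfl

theorem moments {ℓ a : ℕ} (hℓ : ∀ k, ¬ ℓ ∣ (a + 1).factorial * (a + 2) ^ k) (u v : Fin ℓ → ℝ)
    (hS : ∀ t, hu u (a + 1) t * hu u 1 t - hu u (a + 2) t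
      = hu v (a + 1) t * hu v 1 t - hu v (a + 2) t) (k : ℕ) :
    ∑ i, u i ^ k = ∑ i, v i ^ k := by
  induction k using Nat.strong_induction_on with
  | _ k ih =>
    set c := (∑ i, u i ^ k - ∑ i, v i ^ k) / (k.factorial : ℝ) with hc
    obtain ⟨r1, l1, w1, hw1⟩ := key u v k ih (a + 1)
    obtain ⟨r2, l2, w2, hw2⟩ := key u v k ih (a + 2)
    have l0 := D_lim u v k ih 1
    rw [← hc] at l0 l1 l2
    simp only [one_mul, one_pow] at l0
    have h1 : ∀ (w : Fin ℓ → ℝ) (t : ℝ), hu w 1 t = P w t := by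
      intro w t
      rw [hu, h_one, p_zt]; simp
    have T := ((l1.mul (P_lim u 1)).add ((hu_lim v (a + 1)).mul l0)).sub l2
    have T0 : Tendsto (fun _ : ℝ => (0 : ℝ)) (𝓝[≠] 0) (𝓝 0) := tendsto_const_nhds
    have lim := tendsto_nhds_unique (T.congr' (f₂ := fun _ => (0 : ℝ)) (by
      filter_upwards [self_mem_nhdsWithin] with t ht
      have ht := hS t
      rw [h1, h1] at ht
      rw [one_mul]
      calc _ = ((hu u (a + 1) t * P u t - hu u (a + 2) t) -
            (hu v (a + 1) t * P v t - hu v (a + 2) t)) / t ^ k := by ring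
        _ = 0 := by rw [ht, sub_self, zero_div])) T0
    obtain ⟨e, he⟩ := eta_int ℓ a
    have hz : c * (((a + 2).factorial : ℝ) * (r1 * ℓ + eta ℓ (a + 1) - r2)) = 0 := by
      linear_combination ((a + 2).factorial : ℝ) * lim
    rcases mul_eq_zero.1 hz with h0 | h0
    · rw [hc, div_eq_zero_iff] at h0
      rcases h0 with h0 | h0
      · linarith
      · exact absurd h0 (by positivity)
    · exfalso
      apply hℓ k
      have f2 : ((a + 2).factorial : ℝ) = ((a : ℝ) + 2) * ((a + 1).factorial : ℝ) := by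
        rw [Nat.factorial_succ (a + 1)]; push_cast; ring
      have hB : (Bf k (a + 2) : ℝ) = ((a + 1).factorial : ℝ) * ((a : ℝ) + 2) ^ k := by
        simp [Bf]
      have h3 : (((a + 1).factorial : ℝ) * ((a : ℝ) + 2) ^ k)
          = ℓ * (((a : ℝ) + 2) * ((Bf k (a + 1) : ℝ) + ℓ * w1) + ((a : ℝ) + 2) * e - w2) := by
        rw [hB] at hw2
        have h0' : ((a + 2).factorial : ℝ) * r1 * ℓ + ((a + 2).factorial : ℝ) * eta ℓ (a + 1)
            - ((a + 2).factorial : ℝ) * r2 = 0 := by linear_combination h0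
        rw [hw2, f2] at h0'
        linear_combination (-1 : ℝ) * h0' + ((a : ℝ) + 2) * ℓ * hw1 + ((a : ℝ) + 2) * he
      have h4 : (((a + 1).factorial * (a + 2) ^ k : ℕ) : ℤ)
          = (ℓ : ℤ) * (((a : ℤ) + 2) * (Bf k (a + 1) + ℓ * w1) + ((a : ℤ) + 2) * e - w2) := by
        have : (((((a + 1).factorial * (a + 2) ^ k : ℕ) : ℤ)) : ℝ)
          = (((ℓ : ℤ) * (((a : ℤ) + 2) * (Bf k (a + 1) + ℓ * w1) + ((a : ℤ) + 2) * e - w2) : ℤ) : ℝ) := by
          push_cast
          exact h3
        exact_mod_cast this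
      exact Int.natCast_dvd_natCast.1 ⟨_, h4⟩

theorem card_SSYT (a ℓ : ℕ) : ((SSYT (a + 1) 1 ℓ).card : ℝ)
    = eta ℓ (a + 1) * ℓ - eta ℓ (a + 2) := by
  have := sum_hook (fun _ => 1) a ℓ
  simp only [prod_const_one, mul_one, sum_const, nsmul_eq_mul] at this
  rw [this, eta, eta, h_one]
  simp [p]

theorem card_lt (a ℓ : ℕ) (hℓ : 1 ≤ ℓ) : (SSYT (a + 1) 1 ℓ).card < (SSYT (a + 1) 1 (ℓ + 1)).card := by
  have h1 := card_SSYT a ℓ
  have h2 := card_SSYT a (ℓ + 1)
  have h3 : ((SSYT (a + 1) 1 (ℓ + 1)).card : ℝ) - (SSYT (a + 1) 1 ℓ).card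
      = ℓ * (hN a (ℓ + 1) : ℝ) := by
    rw [h1, h2]
    simp only [eta]
    rw [h_succ _ (a + 1) ℓ, h_succ _ a ℓ, ← h_ones a (ℓ + 1)]
    push_cast
    ring
  have h4 : (0 : ℝ) < ℓ * (hN a (ℓ + 1) : ℝ) := by
    have := hN_pos a ℓ
    have : 0 < ℓ := hℓ
    positivity
  have : ((SSYT (a + 1) 1 ℓ).card : ℝ) < (SSYT (a + 1) 1 (ℓ + 1)).card := by linarith
  exact_mod_cast this

theorem card_lt' (a m n : ℕ) (hm : 1 ≤ m) (h : m < n) :
    (SSYT (a + 1) 1 m).card < (SSYT (a + 1) 1 n).card := by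
  induction n, h using Nat.le_induction with
  | base => exact card_lt a m hm
  | succ n hn ih => exact ih.trans (card_lt a n (by omega))

theorem length_eq {a m n : ℕ} (hm : 1 ≤ m) (hn : 1 ≤ n)
    (h : (SSYT (a + 1) 1 m).card = (SSYT (a + 1) 1 n).card) : m = n := by
  rcases lt_trichotomy m n with h1 | h1 | h1
  · exact absurd h (card_lt' a m n hm h1).ne
  · exact h1
  · exact absurd h (card_lt' a n m hn h1).ne'

/-- logarithms of the entries -/
noncomputable def lg (l : List ℕ) (i : Fin l.length) : ℝ := Real.log (l.get i)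

theorem S_eq (a : ℕ) (l : List ℕ) (hl : ∀ a ∈ l, 0 < a) (t : ℝ) :
    hu (lg l) (a + 1) t * hu (lg l) 1 t - hu (lg l) (a + 2) t
      = ((prsList (a + 1) 1 l).map (fun w : ℕ => Real.exp (t * Real.log (w : ℝ)))).sum := by
  simp only [hu]
  rw [← sum_hook]
  rw [prsList, Multiset.map_map]
  change _ = ∑ T ∈ SSYT (a + 1) 1 l.length, _
  apply sum_congr rfl
  intro T _
  have hpos : ∀ i : Fin l.length, ((l.get i : ℕ) : ℝ) ≠ 0 := by
    intro i
    have := hl _ (List.get_mem l i)
    positivity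
  simp only [zt_val, Function.comp]
  rw [Nat.cast_mul, Nat.cast_prod, Nat.cast_prod, Real.log_mul
    (prod_ne_zero_iff.2 (fun i _ => hpos _)) (prod_ne_zero_iff.2 (fun i _ => hpos _)),
    Real.log_prod (fun i _ => hpos _), Real.log_prod (fun i _ => hpos _),
    mul_add, Real.exp_add, mul_sum, mul_sum, Real.exp_sum, Real.exp_sum]
  rfl

theorem hu_cast {m n : ℕ} (hmn : m = n) (u : Fin n → ℝ) (k : ℕ) (t : ℝ) :
    hu (fun i : Fin m => u (Fin.cast hmn i)) k t = hu u k t := by
  subst hmn; rfl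

/-- equal values of `prs_{(a+1,1)}` force equal multisets of parts -/
theorem main {a : ℕ} {l l' : List ℕ} (hl : ∀ a ∈ l, 0 < a) (hl' : ∀ a ∈ l', 0 < a)
    (h2 : 1 ≤ l.length) (h2' : 1 ≤ l'.length)
    (hd : ∀ k, ¬ l.length ∣ (a + 1).factorial * (a + 2) ^ k)
    (h : prsList (a + 1) 1 l = prsList (a + 1) 1 l') :
    (l : Multiset ℕ) = (l' : Multiset ℕ) := by
  have hlen : l.length = l'.length := by
    apply length_eq (a := a) h2 h2'
    have := congrArg Multiset.card h
    simpa [prsList] using this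
  have hm := multiset_eq (lg l) (fun i : Fin l.length => lg l' (Fin.cast hlen i))
    (moments hd _ _ (fun t => by
      rw [hu_cast hlen, hu_cast hlen, hu_cast hlen, S_eq a l hl, S_eq a l' hl', h]))
  have hx : ∀ (k : List ℕ), (∀ a ∈ k, 0 < a) →
      ((univ : Finset (Fin k.length)).val.map (lg k)).map (fun r => Real.exp r)
        = (k : Multiset ℕ).map (fun a : ℕ => (a : ℝ)) := by
    intro k hk
    rw [Multiset.map_map]
    have e1 : ((univ : Finset (Fin k.length)).val.map ((fun r => Real.exp r) ∘ lg k))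
        = (univ : Finset (Fin k.length)).val.map (fun i => ((k.get i : ℕ) : ℝ)) := by
      apply Multiset.map_congr rfl
      intro i _
      simp only [Function.comp, lg]
      rw [Real.exp_log]
      have := hk _ (List.get_mem k i)
      exact_mod_cast this
    rw [e1]
    have e2 : (univ : Finset (Fin k.length)).val.map (fun i => k.get i) = (k : Multiset ℕ) := by
      rw [Fin.univ_val_map, List.ofFn_get]
    rw [← e2, Multiset.map_map]
    rfl
  have hm' : (univ : Finset (Fin l.length)).val.map (fun i => lg l' (Fin.cast hlen i))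
      = (univ : Finset (Fin l'.length)).val.map (lg l') := by
    rw [Fin.univ_val_map, Fin.univ_val_map]
    congr 1
    exact (List.ofFn_congr hlen.symm (lg l')).symm
  rw [hm'] at hm
  have := hx l hl
  rw [hm, hx l' hl'] at this
  exact (Multiset.map_injective Nat.cast_injective this).symm

/-- **Main theorem.** Let `a ≥ 1`, let `P`, `Q` be partitions with at least two parts, and suppose
that the number of parts of `P` divides no number `a! (a+1)^k`. If `prs_{(a,1)}(P) = prs_{(a,1)}(Q)`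
then `P` and `Q` have the same parts. The second part is the special case where the number of parts
of `P` has a prime factor larger than `a+1`, for partitions of the same `n`. -/
theorem result :
    (∀ a : ℕ, 1 ≤ a → ∀ (m n : ℕ) (P : Nat.Partition m) (Q : Nat.Partition n),
      2 ≤ Multiset.card P.parts → 2 ≤ Multiset.card Q.parts →
      (∀ k : ℕ, ¬ Multiset.card P.parts ∣ a.factorial * (a + 1) ^ k) →
      prs a 1 P = prs a 1 Q → P.parts = Q.parts) ∧
    (∀ a : ℕ, 1 ≤ a → ∀ (n : ℕ) (P Q : Nat.Partition n),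
      2 ≤ Multiset.card P.parts → 2 ≤ Multiset.card Q.parts →
      (∃ q : ℕ, q.Prime ∧ a + 1 < q ∧ q ∣ Multiset.card P.parts) →
      prs a 1 P = prs a 1 Q → P = Q) := by
  have key : ∀ a : ℕ, 1 ≤ a → ∀ (m n : ℕ) (P : Nat.Partition m) (Q : Nat.Partition n),
      2 ≤ Multiset.card P.parts → 2 ≤ Multiset.card Q.parts →
      (∀ k : ℕ, ¬ Multiset.card P.parts ∣ a.factorial * (a + 1) ^ k) →
      prs a 1 P = prs a 1 Q → P.parts = Q.parts := by
    intro a ha m n P Q hP hQ hd h
    obtain ⟨b, rfl⟩ := Nat.exists_eq_succ_of_ne_zero (by omega : a ≠ 0)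
    have := main (a := b) (l := P.parts.sort (· ≥ ·)) (l' := Q.parts.sort (· ≥ ·))
      (fun a ha => P.parts_pos (by simpa using ha)) (fun a ha => Q.parts_pos (by simpa using ha))
      (by simp only [Multiset.length_sort]; omega) (by simp only [Multiset.length_sort]; omega)
      (by simpa only [Multiset.length_sort] using hd) h
    simpa using this
  refine ⟨key, ?_⟩
  rintro a ha n P Q hP hQ ⟨q, hq, hqa, hqd⟩ h
  refine Nat.Partition.ext (key a ha n n P Q hP hQ ?_ h)
  intro k hk
  rcases (hq.dvd_mul).1 (hqd.trans hk) with h1 | h1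
  · have := (hq.dvd_factorial).1 h1
    omega
  · have := Nat.le_of_dvd (by omega) (hq.dvd_of_dvd_pow h1)
    omega

end Pool.Agent.Results.MP_0e1197_co.HookShapes
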