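import Mathlib

/-!
# MP_0e1197_co: the map `prs_μ` is injective for the shape `μ = (3,1)`.
-/

namespace Pool.Agent.Results.MP_0e1197_co.ShapeThreeOne

open Finset Filter Topology Asymptotics

/-- The semistandard Young tableaux of the two-row shape `(a,b)` with entries in `Fin ℓ`: the first
row `T.1` and the second row `T.2` are weakly increasing, and columns are strictly increasing. -/
def SSYT (a b ℓ : ℕ) : Finset ((Fin a → Fin ℓ) × (Fin b → Fin ℓ)) :=
  univ.filter (fun T => (∀ i j : Fin a, i ≤ j → T.1 i ≤ T.1 j) ∧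
    (∀ i j : Fin b, i ≤ j → T.2 i ≤ T.2 j) ∧
    ∀ (i : Fin a) (j : Fin b), i.val = j.val → T.1 i < T.2 j)

/-- the multiset of the summands of the Schur polynomial of shape `(a,b)` evaluated at the list `l` -/
def prsList (a b : ℕ) (l : List ℕ) : Multiset ℕ :=
  (SSYT a b l.length).val.map (fun T => (∏ i, l.get (T.1 i)) * ∏ j, l.get (T.2 j))

/-- `prs_{(a,b)}(λ)` for a partition `λ` of `n`: its parts are listed in nonincreasing order -/
def prs (a b : ℕ) {n : ℕ} (P : Nat.Partition n) : Multiset ℕ :=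
  prsList a b (P.parts.sort (· ≥ ·))

section algebra

/-- power sum of the first `n` terms -/
def p (z : ℕ → ℝ) (k n : ℕ) : ℝ := ∑ i ∈ range n, z i ^ k

def H1 (z : ℕ → ℝ) (n : ℕ) : ℝ := ∑ i ∈ range n, z i
def H2 (z : ℕ → ℝ) (n : ℕ) : ℝ := ∑ i ∈ range n, z i * H1 z (i + 1)
def H3 (z : ℕ → ℝ) (n : ℕ) : ℝ := ∑ i ∈ range n, z i * H2 z (i + 1)
def H4 (z : ℕ → ℝ) (n : ℕ) : ℝ := ∑ i ∈ range n, z i * H3 z (i + 1)

theorem p_succ (z : ℕ → ℝ) (k n : ℕ) : p z k (n + 1) = p z k n + z n ^ k := by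
  simp [p, sum_range_succ]

theorem H1_eq (z : ℕ → ℝ) (n : ℕ) : H1 z n = p z 1 n := by simp [H1, p]

theorem H2_eq (z : ℕ → ℝ) (n : ℕ) : 2 * H2 z n = p z 1 n ^ 2 + p z 2 n := by
  induction n with
  | zero => simp [H2, p]
  | succ n ih =>
    have : H2 z (n + 1) = H2 z n + z n * H1 z (n + 1) := by simp [H2, sum_range_succ]
    rw [this, H1_eq, mul_add, ih]
    simp only [p_succ]; ring

theorem H3_eq (z : ℕ → ℝ) (n : ℕ) :
    6 * H3 z n = p z 1 n ^ 3 + 3 * p z 1 n * p z 2 n + 2 * p z 3 n := by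
  induction n with
  | zero => simp [H3, p]
  | succ n ih =>
    have : H3 z (n + 1) = H3 z n + z n * H2 z (n + 1) := by simp [H3, sum_range_succ]
    have h2 := H2_eq z (n + 1)
    simp only [p_succ] at h2 ⊢
    rw [this]
    linear_combination ih + 3 * z n * h2

theorem H4_eq (z : ℕ → ℝ) (n : ℕ) :
    24 * H4 z n = p z 1 n ^ 4 + 6 * p z 1 n ^ 2 * p z 2 n + 3 * p z 2 n ^ 2
      + 8 * p z 1 n * p z 3 n + 6 * p z 4 n := by
  induction n with
  | zero => simp [H4, p]
  | succ n ih =>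
    have : H4 z (n + 1) = H4 z n + z n * H3 z (n + 1) := by simp [H4, sum_range_succ]
    have h3 := H3_eq z (n + 1)
    simp only [p_succ] at h3 ⊢
    rw [this]
    linear_combination ih + 4 * z n * h3

theorem nested (z : ℕ → ℝ) (n : ℕ) :
    8 * ∑ m ∈ range n, z m * ∑ j ∈ range (m + 1), z j * ∑ i ∈ range (j + 1),
      z i * (H1 z n - H1 z (i + 1))
      = p z 1 n ^ 4 + 2 * p z 1 n ^ 2 * p z 2 n - p z 2 n ^ 2 - 2 * p z 4 n := by
  have h1 : ∀ j, ∑ i ∈ range (j + 1), z i * (H1 z n - H1 z (i + 1))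
      = H1 z n * H1 z (j + 1) - H2 z (j + 1) := by
    intro j
    simp only [mul_sub, sum_sub_distrib, H2]
    congr 1
    rw [← sum_mul, mul_comm]; rfl
  have h2 : ∀ m, ∑ j ∈ range (m + 1), z j * ∑ i ∈ range (j + 1), z i * (H1 z n - H1 z (i + 1))
      = H1 z n * H2 z (m + 1) - H3 z (m + 1) := by
    intro m
    simp only [h1]
    simp only [mul_sub, sum_sub_distrib]
    rw [H3, H2, mul_sum]
    congr 1
    apply sum_congr rfl; intros; ring
  have h3 : ∑ m ∈ range n, z m * ∑ j ∈ range (m + 1), z j * ∑ i ∈ range (j + 1),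
      z i * (H1 z n - H1 z (i + 1)) = H1 z n * H3 z n - H4 z n := by
    simp only [h2]
    simp only [mul_sub, sum_sub_distrib]
    rw [H4]
    congr 1
    conv_rhs => rw [H3, mul_sum]
    apply sum_congr rfl; intros; ring
  rw [h3]
  have a3 := H3_eq z n
  have a4 := H4_eq z n
  rw [H1_eq]
  linear_combination (4 / 3 * p z 1 n) * a3 - (1 / 3) * a4

/-- the tableaux of shape `(3,1)` as quadruples `(m,j,i,r)` -/
def eqv (ℓ : ℕ) : ((Fin 3 → Fin ℓ) × (Fin 1 → Fin ℓ)) ≃ Fin ℓ × Fin ℓ × Fin ℓ × Fin ℓ where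
  toFun T := (T.1 2, T.1 1, T.1 0, T.2 0)
  invFun q := (![q.2.2.1, q.2.1, q.1], ![q.2.2.2])
  left_inv T := by
    refine Prod.ext ?_ ?_
    · funext i; fin_cases i <;> rfl
    · funext i; fin_cases i; rfl
  right_inv q := rfl

theorem cond_iff {ℓ : ℕ} (T : (Fin 3 → Fin ℓ) × (Fin 1 → Fin ℓ)) :
    ((∀ i j : Fin 3, i ≤ j → T.1 i ≤ T.1 j) ∧ (∀ i j : Fin 1, i ≤ j → T.2 i ≤ T.2 j) ∧
    ∀ (i : Fin 3) (j : Fin 1), i.val = j.val → T.1 i < T.2 j) ↔
    ((T.1 0).val ≤ (T.1 1).val ∧ (T.1 1).val ≤ (T.1 2).val ∧ (T.1 0).val < (T.2 0).val) := by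
  constructor
  · rintro ⟨h1, -, h3⟩
    exact ⟨h1 0 1 (by decide), h1 1 2 (by decide), h3 0 0 rfl⟩
  · rintro ⟨h1, h2, h3⟩
    have h1' : T.1 0 ≤ T.1 1 := h1
    have h2' : T.1 1 ≤ T.1 2 := h2
    have h3' : T.1 0 < T.2 0 := h3
    refine ⟨?_, ?_, ?_⟩
    · intro i j hij
      fin_cases i <;> fin_cases j <;> first
        | exact le_refl _
        | exact h1'
        | exact h2'
        | exact h1'.trans h2'
        | exact absurd hij (by decide)
    · intro i j _
      rw [Subsingleton.elim i j]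
    · intro i j hij
      have hj : j = 0 := Subsingleton.elim _ _
      subst hj
      have hi : i = 0 := Fin.ext hij
      subst hi
      exact h3'

theorem sumT (z : ℕ → ℝ) (ℓ : ℕ) :
    8 * ∑ T ∈ SSYT 3 1 ℓ, (∏ i, z (T.1 i).val) * ∏ j, z (T.2 j).val
      = p z 1 ℓ ^ 4 + 2 * p z 1 ℓ ^ 2 * p z 2 ℓ - p z 2 ℓ ^ 2 - 2 * p z 4 ℓ := by
  rw [← nested]
  congr 1
  rw [SSYT, sum_filter]
  simp only [cond_iff]
  rw [Fintype.sum_equiv (eqv ℓ) _ (fun q => if (q.2.2.1.val ≤ q.2.1.val ∧ q.2.1.val ≤ q.1.val ∧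
    q.2.2.1.val < q.2.2.2.val) then z q.2.2.1.val * z q.2.1.val * z q.1.val * z q.2.2.2.val else 0)
    (by
      intro T
      simp only [Fin.prod_univ_three, Fin.prod_univ_one]
      rfl)]
  rw [Fintype.sum_prod_type]
  simp only [Fintype.sum_prod_type]
  rw [← Fin.sum_univ_eq_sum_range (fun m => z m * ∑ j ∈ range (m + 1), z j * ∑ i ∈ range (j + 1),
      z i * (H1 z ℓ - H1 z (i + 1))) ℓ]
  apply sum_congr rfl
  intro m _
  have hm : range (m.val + 1) = (range ℓ).filter (· ≤ m.val) := by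
    ext a; simp only [mem_range, mem_filter]; omega
  rw [hm, sum_filter, mul_sum, ← Fin.sum_univ_eq_sum_range (fun j => z m.val *
    if j ≤ m.val then z j * ∑ i ∈ range (j + 1), z i * (H1 z ℓ - H1 z (i + 1)) else 0) ℓ]
  apply sum_congr rfl
  intro j _
  by_cases hjm : j.val ≤ m.val
  · rw [if_pos hjm]
    have hj : range (j.val + 1) = (range ℓ).filter (· ≤ j.val) := by
      ext a; simp only [mem_range, mem_filter]; omega
    rw [hj, sum_filter, mul_sum, mul_sum, ← Fin.sum_univ_eq_sum_range (fun i => z m.val * (z j.val *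
      if i ≤ j.val then z i * (H1 z ℓ - H1 z (i + 1)) else 0)) ℓ]
    apply sum_congr rfl
    intro i _
    by_cases hij : i.val ≤ j.val
    · rw [if_pos hij]
      have hi : H1 z ℓ - H1 z (i.val + 1) = ∑ r ∈ range ℓ, if i.val < r then z r else 0 := by
        have e1 : H1 z (i.val + 1) = ∑ r ∈ range ℓ, if i.val < r then 0 else z r := by
          have : range (i.val + 1) = (range ℓ).filter (fun r => ¬ i.val < r) := by
            ext a; simp only [mem_range, mem_filter]; omega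
          rw [H1, this, sum_filter]
          apply sum_congr rfl
          intro r _
          by_cases h : i.val < r
          · simp [h]
          · simp [h]
        rw [e1, H1, ← sum_sub_distrib]
        apply sum_congr rfl
        intro r _
        by_cases h : i.val < r
        · simp [h]
        · simp [h]
      rw [hi, ← Fin.sum_univ_eq_sum_range (fun r => if i.val < r then z r else 0) ℓ]
      rw [mul_sum, mul_sum, mul_sum]
      apply sum_congr rfl
      intro r _
      by_cases h : i.val < r.val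
      · rw [if_pos ⟨hij, hjm, h⟩, if_pos h]; ring
      · rw [if_neg (fun h' => h h'.2.2), if_neg h]; ring
    · rw [if_neg hij, mul_zero, mul_zero]
      apply sum_eq_zero
      intro r _
      rw [if_neg (fun h' => hij h'.1)]
  · rw [if_neg hjm, mul_zero]
    apply sum_eq_zero
    intro i _
    apply sum_eq_zero
    intro r _
    rw [if_neg (fun h' => hjm h'.2.1)]

end algebra

section analysis

/-- `P u t = ∑ exp (t u_i)` -/
noncomputable def P {ℓ : ℕ} (u : Fin ℓ → ℝ) (t : ℝ) : ℝ := ∑ i, Real.exp (t * u i)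

/-- the polynomial expression giving `8 s_{(3,1)}` -/
noncomputable def E {ℓ : ℕ} (u : Fin ℓ → ℝ) (t : ℝ) : ℝ :=
  P u t ^ 4 + 2 * P u t ^ 2 * P u (2 * t) - P u (2 * t) ^ 2 - 2 * P u (4 * t)

theorem P_zero {ℓ : ℕ} (u : Fin ℓ → ℝ) : P u 0 = ℓ := by simp [P]

theorem P_cont {ℓ : ℕ} (u : Fin ℓ → ℝ) : Continuous (P u) := by
  unfold P; fun_prop

theorem P_small {ℓ : ℕ} (u : Fin ℓ → ℝ) (k : ℕ) :
    (fun t => P u t - ∑ j ∈ range (k + 1), (∑ i, u i ^ j) * t ^ j / (j.factorial : ℝ))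
      =o[𝓝 0] (fun t : ℝ => t ^ k) := by
  have h : ∀ i ∈ (univ : Finset (Fin ℓ)), (fun t : ℝ => Real.exp (t * u i) -
      ∑ j ∈ range (k + 1), (t * u i) ^ j / (j.factorial : ℝ)) =o[𝓝 0] (fun t : ℝ => t ^ k) := by
    intro i _
    have h1 := Real.exp_sub_sum_range_succ_isLittleO_pow k
    have h2 : Tendsto (fun t : ℝ => t * u i) (𝓝 0) (𝓝 0) := by
      have : Continuous (fun t : ℝ => t * u i) := by fun_prop
      simpa using this.tendsto 0
    have h3 := h1.comp_tendsto h2
    refine h3.trans_isBigO ?_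
    have : ((fun x : ℝ => x ^ k) ∘ fun t : ℝ => t * u i) = fun t : ℝ => (u i ^ k) * t ^ k := by
      funext t; simp [mul_pow, mul_comm]
    rw [this]
    exact isBigO_const_mul_self _ _ _
  have h' := IsLittleO.sum h
  refine h'.congr_left ?_
  intro t
  rw [Finset.sum_apply]
  simp only [P, sum_sub_distrib]
  congr 1
  rw [sum_comm]
  apply sum_congr rfl
  intro j _
  rw [sum_mul, sum_div]
  apply sum_congr rfl
  intro i _
  rw [mul_pow]; ring

theorem D_lim {ℓ : ℕ} (u v : Fin ℓ → ℝ) (k : ℕ)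
    (h : ∀ j < k, ∑ i, u i ^ j = ∑ i, v i ^ j) (a : ℝ) :
    Tendsto (fun t : ℝ => (P u (a * t) - P v (a * t)) / t ^ k) (𝓝[≠] 0)
      (𝓝 (a ^ k * ((∑ i, u i ^ k - ∑ i, v i ^ k) / (k.factorial : ℝ)))) := by
  set c := (∑ i, u i ^ k - ∑ i, v i ^ k) / (k.factorial : ℝ) with hc
  have h1 := (P_small u k).sub (P_small v k)
  have h2 : (fun t => P u t - P v t - c * t ^ k) =o[𝓝 0] (fun t : ℝ => t ^ k) := by
    refine h1.congr_left ?_
    intro t
    rw [sum_range_succ, sum_range_succ]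
    have : ∑ j ∈ range k, (∑ i, u i ^ j) * t ^ j / (j.factorial : ℝ)
        = ∑ j ∈ range k, (∑ i, v i ^ j) * t ^ j / (j.factorial : ℝ) := by
      apply sum_congr rfl
      intro j hj
      rw [h j (mem_range.1 hj)]
    rw [this, hc]
    ring
  have h3 : Tendsto (fun t : ℝ => a * t) (𝓝 0) (𝓝 0) := by
    have : Continuous (fun t : ℝ => a * t) := by fun_prop
    simpa using this.tendsto 0
  have h4 := h2.comp_tendsto h3
  have h5 : (fun t : ℝ => P u (a * t) - P v (a * t) - c * (a * t) ^ k) =o[𝓝 0]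
      (fun t : ℝ => t ^ k) := by
    refine h4.trans_isBigO ?_
    have : ((fun x : ℝ => x ^ k) ∘ fun t : ℝ => a * t) = fun t : ℝ => a ^ k * t ^ k := by
      funext t; simp [mul_pow]
    rw [this]
    exact isBigO_const_mul_self _ _ _
  have h6 := (h5.tendsto_div_nhds_zero).mono_left (nhdsWithin_le_nhds (s := {(0 : ℝ)}ᶜ))
  have h7 := h6.add_const (a ^ k * c)
  rw [zero_add] at h7
  refine h7.congr' ?_
  filter_upwards [self_mem_nhdsWithin] with t ht
  have ht' : t ≠ 0 := ht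
  have : t ^ k ≠ 0 := pow_ne_zero _ ht'
  field_simp
  ring

theorem coef_ne {ℓ : ℕ} (hℓ : 2 ≤ ℓ) (k : ℕ) :
    (4 * (ℓ : ℝ) ^ 3 + 2 * (2 * ℓ * ℓ + ℓ ^ 2 * 2 ^ k) - 2 * ℓ * 2 ^ k - 2 * 4 ^ k) ≠ 0 := by
  intro h
  have e4 : (4 : ℝ) ^ k = (2 : ℝ) ^ k * 2 ^ k := by rw [← mul_pow]; norm_num
  rw [e4] at h
  have h' : ((2 : ℝ) ^ k - ℓ * (ℓ + 1)) * (2 ^ k + 2 * ℓ) = 0 := by linear_combination (-1 / 2) * h
  have hpos : (0 : ℝ) < 2 ^ k + 2 * ℓ := by positivity
  have h2 : (2 : ℝ) ^ k = ℓ * (ℓ + 1) := by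
    rcases mul_eq_zero.1 h' with h' | h'
    · linarith
    · exact absurd h' hpos.ne'
  have h3 : 2 ^ k = ℓ * (ℓ + 1) := by exact_mod_cast h2
  have d1 : ℓ ∣ 2 ^ k := ⟨_, h3⟩
  have d2 : (ℓ + 1) ∣ 2 ^ k := ⟨ℓ, by rw [h3, mul_comm]⟩
  obtain ⟨a, -, ha⟩ := (Nat.dvd_prime_pow Nat.prime_two).1 d1
  obtain ⟨b, -, hb⟩ := (Nat.dvd_prime_pow Nat.prime_two).1 d2
  have ha0 : a ≠ 0 := by rintro rfl; simp at ha; omega
  have hb0 : b ≠ 0 := by rintro rfl; simp at hb; omega
  have ea : 2 ∣ ℓ := ha ▸ dvd_pow_self 2 ha0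
  have eb : 2 ∣ ℓ + 1 := hb ▸ dvd_pow_self 2 hb0
  omega

theorem moments {ℓ : ℕ} (hℓ : 2 ≤ ℓ) (u v : Fin ℓ → ℝ) (h : ∀ t, E u t = E v t) (k : ℕ) :
    ∑ i, u i ^ k = ∑ i, v i ^ k := by
  induction k using Nat.strong_induction_on with
  | _ k ih =>
    set c := (∑ i, u i ^ k - ∑ i, v i ^ k) / (k.factorial : ℝ) with hc
    have l1 := D_lim u v k ih 1
    have l2 := D_lim u v k ih 2
    have l4 := D_lim u v k ih 4
    rw [← hc] at l1 l2 l4
    simp only [one_mul, one_pow] at l1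
    have cu : ∀ (w : Fin ℓ → ℝ) (a : ℝ), Tendsto (fun t : ℝ => P w (a * t)) (𝓝[≠] 0) (𝓝 (ℓ : ℝ)) := by
      intro w a
      have : Continuous (fun t : ℝ => P w (a * t)) := (P_cont w).comp (by fun_prop)
      have h0 := this.tendsto 0
      rw [mul_zero, P_zero] at h0
      exact h0.mono_left nhdsWithin_le_nhds
    have u1 := cu u 1
    have v1 := cu v 1
    have u2 := cu u 2
    have v2 := cu v 2
    simp only [one_mul] at u1 v1
    have T := ((((l1.mul (((u1.add v1)).mul ((u1.pow 2).add (v1.pow 2)))).add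
      ((((l1.mul (u1.add v1)).mul u2).add ((v1.pow 2).mul l2)).const_mul 2))).sub
      (l2.mul (u2.add v2))).sub (l4.const_mul 2)
    have T0 : Tendsto (fun _ : ℝ => (0 : ℝ)) (𝓝[≠] 0) (𝓝 0) := tendsto_const_nhds
    have key := tendsto_nhds_unique (T.congr' (f₂ := fun _ => (0 : ℝ)) (by
      filter_upwards [self_mem_nhdsWithin] with t ht
      have ht' : t ≠ 0 := ht
      have ht := h t
      unfold E at ht
      calc _ = ((P u t ^ 4 + 2 * P u t ^ 2 * P u (2 * t) - P u (2 * t) ^ 2 - 2 * P u (4 * t)) -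
            (P v t ^ 4 + 2 * P v t ^ 2 * P v (2 * t) - P v (2 * t) ^ 2 - 2 * P v (4 * t))) / t ^ k := by
              ring
        _ = 0 := by rw [ht, sub_self, zero_div])) T0
    have hco := coef_ne hℓ k
    have : c * (4 * (ℓ : ℝ) ^ 3 + 2 * (2 * ℓ * ℓ + ℓ ^ 2 * 2 ^ k) - 2 * ℓ * 2 ^ k - 2 * 4 ^ k) = 0 := by
      linear_combination key
    rcases mul_eq_zero.1 this with h0 | h0
    · rw [hc, div_eq_zero_iff] at h0
      rcases h0 with h0 | h0
      · linarith
      · exact absurd h0 (by positivity)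
    · exact absurd h0 hco

theorem poly_sum {ℓ : ℕ} (u v : Fin ℓ → ℝ) (h : ∀ k, ∑ i, u i ^ k = ∑ i, v i ^ k)
    (q : Polynomial ℝ) : ∑ i, q.eval (u i) = ∑ i, q.eval (v i) := by
  simp only [Polynomial.eval_eq_sum_range]
  rw [sum_comm]
  conv_rhs => rw [sum_comm]
  apply sum_congr rfl
  intro j _
  rw [← mul_sum, ← mul_sum, h]

theorem multiset_eq {ℓ : ℕ} (u v : Fin ℓ → ℝ) (h : ∀ k, ∑ i, u i ^ k = ∑ i, v i ^ k) :
    (univ : Finset (Fin ℓ)).val.map u = (univ : Finset (Fin ℓ)).val.map v := by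
  classical
  ext a
  set S : Finset ℝ := (univ.image u ∪ univ.image v).erase a with hS
  set q : Polynomial ℝ := ∏ b ∈ S, (Polynomial.X - Polynomial.C b) with hq
  have hqa : q.eval a ≠ 0 := by
    rw [hq, Polynomial.eval_prod]
    apply prod_ne_zero_iff.2
    intro b hb
    simp only [Polynomial.eval_sub, Polynomial.eval_X, Polynomial.eval_C]
    exact sub_ne_zero.2 (fun hab => (mem_erase.1 hb).1 hab.symm)
  have hq0 : ∀ b ∈ S, q.eval b = 0 := by
    intro b hb
    rw [hq, Polynomial.eval_prod]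
    apply prod_eq_zero hb
    simp
  have key : ∀ w : Fin ℓ → ℝ, (∀ i, w i ≠ a → w i ∈ S) →
      ∑ i, q.eval (w i) = (Multiset.count a (univ.val.map w) : ℝ) * q.eval a := by
    intro w hw
    have e1 : ∀ i, q.eval (w i) = if w i = a then q.eval a else 0 := by
      intro i
      by_cases hi : w i = a
      · rw [if_pos hi, hi]
      · rw [if_neg hi, hq0 _ (hw i hi)]
    simp only [e1]
    rw [← sum_filter, sum_const, nsmul_eq_mul]
    congr 2
    rw [Multiset.count_map]
    have : (univ.filter (fun i => w i = a)) = univ.filter (fun i => a = w i) := by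
      ext i; simp [eq_comm]
    rw [this]
    rfl
  have hu := key u (fun i hi => mem_erase.2 ⟨hi, mem_union_left _ (mem_image_of_mem _ (mem_univ i))⟩)
  have hv := key v (fun i hi => mem_erase.2 ⟨hi, mem_union_right _ (mem_image_of_mem _ (mem_univ i))⟩)
  have := poly_sum u v h q
  rw [hu, hv] at this
  exact_mod_cast mul_right_cancel₀ hqa this

end analysis

theorem card_SSYT (ℓ : ℕ) : 8 * ((SSYT 3 1 ℓ).card : ℝ) = (ℓ : ℝ) ^ 4 + 2 * ℓ ^ 3 - ℓ ^ 2 - 2 * ℓ := by
  have := sumT (fun _ => 1) ℓ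
  simp only [prod_const_one, mul_one, sum_const, nsmul_eq_mul, p, one_pow, card_range] at this
  linear_combination this

theorem length_eq {m n : ℕ} (hm : 2 ≤ m) (hn : 2 ≤ n)
    (h : (SSYT 3 1 m).card = (SSYT 3 1 n).card) : m = n := by
  have h1 := card_SSYT m
  have h2 := card_SSYT n
  rw [h] at h1
  have h3 : (m : ℝ) ^ 4 + 2 * m ^ 3 - m ^ 2 - 2 * m = (n : ℝ) ^ 4 + 2 * n ^ 3 - n ^ 2 - 2 * n := by
    linarith
  have hm' : (2 : ℝ) ≤ m := by exact_mod_cast hm
  have hn' : (2 : ℝ) ≤ n := by exact_mod_cast hn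
  have h4 : ((m : ℝ) - n) * (m ^ 3 + m ^ 2 * n + m * n ^ 2 + n ^ 3 + 2 * (m ^ 2 + m * n + n ^ 2)
      - (m + n) - 2) = 0 := by linear_combination h3
  have h5 : (0 : ℝ) < m ^ 3 + m ^ 2 * n + m * n ^ 2 + n ^ 3 + 2 * (m ^ 2 + m * n + n ^ 2)
      - (m + n) - 2 := by
    nlinarith [mul_nonneg (sub_nonneg.2 hm') (sub_nonneg.2 hn'),
      mul_nonneg (sub_nonneg.2 hm') (sub_nonneg.2 hm'),
      mul_nonneg (sub_nonneg.2 hn') (sub_nonneg.2 hn'), pow_pos (lt_of_lt_of_le two_pos hm') 3,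
      pow_pos (lt_of_lt_of_le two_pos hn') 3,
      mul_pos (pow_pos (lt_of_lt_of_le two_pos hm') 2) (lt_of_lt_of_le two_pos hn'),
      mul_pos (pow_pos (lt_of_lt_of_le two_pos hn') 2) (lt_of_lt_of_le two_pos hm')]
  rcases mul_eq_zero.1 h4 with h6 | h6
  · have : (m : ℝ) = n := by linarith
    exact_mod_cast this
  · exact absurd h6 h5.ne'

/-- logarithms of the entries -/
noncomputable def lg (l : List ℕ) (i : Fin l.length) : ℝ := Real.log (l.get i)

theorem E_eq (l : List ℕ) (hl : ∀ a ∈ l, 0 < a) (t : ℝ) :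
    E (lg l) t = 8 * ((prsList 3 1 l).map (fun w : ℕ => Real.exp (t * Real.log (w : ℝ)))).sum := by
  set z : ℕ → ℝ := fun k => Real.exp (t * Real.log ((l.getD k 0 : ℕ) : ℝ)) with hz
  have hzi : ∀ i : Fin l.length, z i.val = Real.exp (t * lg l i) := by
    intro i
    simp [hz, lg]
  have hp : ∀ k : ℕ, p z k l.length = P (lg l) (k * t) := by
    intro k
    rw [p, ← Fin.sum_univ_eq_sum_range (fun i => z i ^ k), P]
    apply sum_congr rfl
    intro i _
    rw [hzi, ← Real.exp_nat_mul]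
    congr 1; ring
  have h1 := sumT z l.length
  have h2 : ((prsList 3 1 l).map (fun w : ℕ => Real.exp (t * Real.log (w : ℝ)))).sum
      = ∑ T ∈ SSYT 3 1 l.length, (∏ i, z (T.1 i).val) * ∏ j, z (T.2 j).val := by
    rw [prsList, Multiset.map_map]
    change ∑ T ∈ SSYT 3 1 l.length, _ = _
    apply sum_congr rfl
    intro T _
    have hpos : ∀ i : Fin l.length, ((l.get i : ℕ) : ℝ) ≠ 0 := by
      intro i
      have := hl _ (List.get_mem l i)
      positivity
    simp only [hzi, Function.comp]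
    rw [Nat.cast_mul, Nat.cast_prod, Nat.cast_prod, Real.log_mul
      (prod_ne_zero_iff.2 (fun i _ => hpos _)) (prod_ne_zero_iff.2 (fun i _ => hpos _)),
      Real.log_prod (fun i _ => hpos _), Real.log_prod (fun i _ => hpos _),
      mul_add, Real.exp_add, mul_sum, mul_sum, Real.exp_sum, Real.exp_sum]
    rfl
  rw [h2, h1, hp, hp, hp, E]
  norm_num

/-- equal values of `prs_{(3,1)}` force equal multisets of parts -/
theorem main {l l' : List ℕ} (hl : ∀ a ∈ l, 0 < a) (hl' : ∀ a ∈ l', 0 < a)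
    (h2 : 2 ≤ l.length) (h2' : 2 ≤ l'.length) (h : prsList 3 1 l = prsList 3 1 l') :
    (l : Multiset ℕ) = (l' : Multiset ℕ) := by
  have hlen : l.length = l'.length := by
    apply length_eq h2 h2'
    have := congrArg Multiset.card h
    simpa [prsList] using this
  have hE : ∀ t, E (lg l) t = E (lg l') t := by
    intro t; rw [E_eq l hl, E_eq l' hl', h]
  -- transport along the equality of lengths
  have hE' : ∀ t, E (fun i : Fin l.length => lg l' (Fin.cast hlen i)) t = E (lg l') t := by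
    intro t
    have hP : ∀ s, P (fun i : Fin l.length => lg l' (Fin.cast hlen i)) s = P (lg l') s := by
      intro s
      unfold P
      exact Fintype.sum_equiv (finCongr hlen) _ _ (fun i => rfl)
    simp only [E, hP]
  have hm := multiset_eq (lg l) (fun i : Fin l.length => lg l' (Fin.cast hlen i))
    (moments h2 _ _ (fun t => by rw [hE, hE']))
  have hx : ∀ (k : List ℕ), (∀ a ∈ k, 0 < a) →
      ((univ : Finset (Fin k.length)).val.map (lg k)).map (fun r => Real.exp r)
        = (k : Multiset ℕ).map (fun a : ℕ => (a : ℝ)) := by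
    intro k hk
    rw [Multiset.map_map]
    have e1 : ((univ : Finset (Fin k.length)).val.map ((fun r => Real.exp r) ∘ lg k))
        = (univ : Finset (Fin k.length)).val.map (fun i => ((k.get i : ℕ) : ℝ)) := by
      apply Multiset.map_congr rfl
      intro i _
      simp only [Function.comp, lg]
      rw [Real.exp_log]
      have := hk _ (List.get_mem k i)
      exact_mod_cast this
    rw [e1]
    have e2 : (univ : Finset (Fin k.length)).val.map (fun i => k.get i) = (k : Multiset ℕ) := by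
      rw [Fin.univ_val_map, List.ofFn_get]
    rw [← e2, Multiset.map_map]
    rfl
  have hm' : (univ : Finset (Fin l.length)).val.map (fun i => lg l' (Fin.cast hlen i))
      = (univ : Finset (Fin l'.length)).val.map (lg l') := by
    rw [Fin.univ_val_map, Fin.univ_val_map]
    congr 1
    exact (List.ofFn_congr hlen.symm (lg l')).symm
  rw [hm'] at hm
  have := hx l hl
  rw [hm, hx l' hl'] at this
  exact (Multiset.map_injective Nat.cast_injective this).symm

/-- **Main theorem.** If `prs_{(3,1)}(λ) = prs_{(3,1)}(ν)` for two partitions with at least two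
parts (of possibly different integers), then `λ` and `ν` have the same parts; in particular
`prs_{(3,1)}` is injective on the partitions of `n` with at least two parts, for every `n`. -/
theorem result :
    (∀ (m n : ℕ) (P : Nat.Partition m) (Q : Nat.Partition n), 2 ≤ Multiset.card P.parts →
      2 ≤ Multiset.card Q.parts → prs 3 1 P = prs 3 1 Q → P.parts = Q.parts) ∧
    (∀ n : ℕ, Set.InjOn (fun P : Nat.Partition n => prs 3 1 P)
      {P | 2 ≤ Multiset.card P.parts}) := by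
  have key : ∀ (m n : ℕ) (P : Nat.Partition m) (Q : Nat.Partition n), 2 ≤ Multiset.card P.parts →
      2 ≤ Multiset.card Q.parts → prs 3 1 P = prs 3 1 Q → P.parts = Q.parts := by
    intro m n P Q hP hQ h
    have := main (l := P.parts.sort (· ≥ ·)) (l' := Q.parts.sort (· ≥ ·))
      (fun a ha => P.parts_pos (by simpa using ha)) (fun a ha => Q.parts_pos (by simpa using ha))
      (by simpa using hP) (by simpa using hQ) h
    simpa using this
  refine ⟨key, ?_⟩
  intro n P hP Q hQ h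
  exact Nat.Partition.ext (key n n P Q hP hQ h)

end Pool.Agent.Results.MP_0e1197_co.ShapeThreeOne
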