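import Mathlib

/-!
# MP_0e1197_co: the map `prs_μ` for two-row shapes `μ = (a,b)` with `b ≥ 2`.
-/

namespace Pool.Agent.Results.MP_0e1197_co.TwoRowShapes

open Finset Filter Topology Asymptotics

/-- The semistandard Young tableaux of the two-row shape `(a,b)` with entries in `Fin ℓ`: the first
row `T.1` and the second row `T.2` are weakly increasing, and columns are strictly increasing. -/
def SSYT (a b ℓ : ℕ) : Finset ((Fin a → Fin ℓ) × (Fin b → Fin ℓ)) :=
  univ.filter (fun T => (∀ i j : Fin a, i ≤ j → T.1 i ≤ T.1 j) ∧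
    (∀ i j : Fin b, i ≤ j → T.2 i ≤ T.2 j) ∧
    ∀ (i : Fin a) (j : Fin b), i.val = j.val → T.1 i < T.2 j)

/-- the multiset of the summands of the Schur polynomial of shape `(a,b)` evaluated at the list `l` -/
def prsList (a b : ℕ) (l : List ℕ) : Multiset ℕ :=
  (SSYT a b l.length).val.map (fun T => (∏ i, l.get (T.1 i)) * ∏ j, l.get (T.2 j))

/-- `prs_{(a,b)}(λ)` for a partition `λ` of `n`: its parts are listed in nonincreasing order -/
def prs (a b : ℕ) {n : ℕ} (P : Nat.Partition n) : Multiset ℕ :=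
  prsList a b (P.parts.sort (· ≥ ·))

/-- the complete homogeneous polynomial of degree `m` in the first `n` letters -/
def h (z : ℕ → ℝ) : ℕ → ℕ → ℝ
  | 0, _ => 1
  | m + 1, n => ∑ i ∈ range n, z i * h z m (i + 1)

/-- words of length `m` in the first `n` letters -/
def W (m n : ℕ) : Finset (Fin m → ℕ) := Fintype.piFinset (fun _ => range n)

theorem mem_W {m n : ℕ} {f : Fin m → ℕ} : f ∈ W m n ↔ ∀ i, f i < n := by
  simp [W, Fintype.mem_piFinset]

theorem conv (m n : ℕ) (G : (Fin m → ℕ) → ℝ) :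
    ∑ f : Fin m → Fin n, G (fun i => (f i).val) = ∑ g ∈ W m n, G g := by
  refine sum_bij' (fun f _ => fun i => (f i).val) (fun g hg => fun i => ⟨g i, mem_W.1 hg i⟩)
    ?_ ?_ ?_ ?_ ?_
  · intro f _; exact mem_W.2 (fun i => (f i).isLt)
  · intro g _; exact mem_univ _
  · intro f _; rfl
  · intro g _; rfl
  · intro f _; rfl

theorem mono_snoc {m : ℕ} (F : Fin (m + 1) → ℕ) :
    Monotone F ↔ Monotone (fun i : Fin m => F i.castSucc) ∧ ∀ i : Fin m, F i.castSucc ≤ F (Fin.last m) := by
  constructor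
  · intro hF
    exact ⟨fun i j hij => hF (Fin.castSucc_le_castSucc_iff.2 hij), fun i => hF (Fin.le_last _)⟩
  · rintro ⟨h1, h2⟩ i j hij
    induction j using Fin.lastCases with
    | last =>
      induction i using Fin.lastCases with
      | last => exact le_refl _
      | cast i => exact h2 i
    | cast j =>
      induction i using Fin.lastCases with
      | last => exact absurd hij (not_le.2 (Fin.castSucc_lt_last j))
      | cast i => exact h1 (Fin.castSucc_le_castSucc_iff.1 hij)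

open Classical in
theorem sum_mono (z : ℕ → ℝ) (m n : ℕ) :
    (∑ f ∈ W m n, if Monotone f then ∏ i, z (f i) else 0) = h z m n := by
  induction m generalizing n with
  | zero =>
    rw [h]
    have : W 0 n = {fun i => i.elim0} := by
      ext f; rw [mem_W, mem_singleton]; constructor
      · intro _; exact Subsingleton.elim _ _
      · intro _ i; exact i.elim0
    have hm : Monotone (fun i : Fin 0 => (i.elim0 : ℕ)) := fun i => i.elim0
    rw [this, sum_singleton, if_pos hm]
    simp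
  | succ m ih =>
    have e1 : (∑ f ∈ W (m + 1) n, if Monotone f then ∏ i, z (f i) else 0)
        = ∑ q ∈ range n ×ˢ W m n, if (Monotone q.2 ∧ ∀ i, q.2 i ≤ q.1) then
            z q.1 * ∏ i, z (q.2 i) else 0 := by
      refine sum_bij' (fun F _ => (F (Fin.last m), fun i : Fin m => F i.castSucc))
        (fun q _ => (Fin.snoc (α := fun _ => ℕ) q.2 q.1 : Fin (m + 1) → ℕ)) ?_ ?_ ?_ ?_ ?_
      · intro F hF
        rw [mem_product]
        exact ⟨mem_range.2 (mem_W.1 hF _), mem_W.2 (fun i => mem_W.1 hF _)⟩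
      · intro q hq
        rw [mem_product] at hq
        rw [mem_W]
        intro i
        induction i using Fin.lastCases with
        | last => simpa using mem_range.1 hq.1
        | cast i => simpa using mem_W.1 hq.2 i
      · intro F _
        exact Fin.snoc_init_self F
      · intro q _
        refine Prod.ext ?_ ?_
        · simp
        · funext i; simp
      · intro F _
        simp only [mono_snoc F]
        rw [Fin.prod_univ_castSucc, mul_comm]
    rw [e1, sum_product, h]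
    apply sum_congr rfl
    intro r hr
    rw [← ih (r + 1), mul_sum]
    have e2 : W m (r + 1) = (W m n).filter (fun f => ∀ i, f i ≤ r) := by
      ext f
      rw [mem_filter, mem_W, mem_W]
      have := mem_range.1 hr
      constructor
      · intro hf; exact ⟨fun i => by have := hf i; omega, fun i => by have := hf i; omega⟩
      · intro hf i; have := hf.2 i; omega
    rw [e2, sum_filter]
    apply sum_congr rfl
    intro f _
    by_cases h1 : ∀ i, f i ≤ r
    · by_cases h2 : Monotone f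
      · simp [h1, h2]
      · simp [h2]
    · simp [h1]


/-- compatibility of the two rows -/
def Ok {a b : ℕ} (f : Fin a → ℕ) (g : Fin b → ℕ) : Prop :=
  Monotone f ∧ Monotone g ∧ ∀ (i : Fin a) (j : Fin b), i.val = j.val → f i < g j

open Classical in
/-- sum over the tableaux of shape `(a,b)` with letters `< x` in row one and `< y` in row two -/
noncomputable def S (z : ℕ → ℝ) (a b x y : ℕ) : ℝ :=
  ∑ f ∈ W a x, ∑ g ∈ W b y, if Ok f g then (∏ i, z (f i)) * ∏ j, z (g j) else 0

/-- words of length `m+1` -/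
theorem sum_snoc (m n : ℕ) (G : (Fin (m + 1) → ℕ) → ℝ) :
    ∑ f ∈ W (m + 1) n, G f = ∑ r ∈ range n, ∑ f ∈ W m n, G (Fin.snoc (α := fun _ => ℕ) f r) := by
  rw [← sum_product']
  refine sum_bij' (fun F _ => (F (Fin.last m), fun i : Fin m => F i.castSucc))
    (fun q _ => (Fin.snoc (α := fun _ => ℕ) q.2 q.1 : Fin (m + 1) → ℕ)) ?_ ?_ ?_ ?_ ?_
  · intro F hF
    rw [mem_product]
    exact ⟨mem_range.2 (mem_W.1 hF _), mem_W.2 (fun i => mem_W.1 hF _)⟩
  · intro q hq
    rw [mem_product] at hq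
    rw [mem_W]
    intro i
    induction i using Fin.lastCases with
    | last => simpa using mem_range.1 hq.1
    | cast i => simpa using mem_W.1 hq.2 i
  · intro F _
    exact Fin.snoc_init_self F
  · intro q _
    refine Prod.ext ?_ ?_
    · simp
    · funext i; simp
  · intro F _
    congr 1
    exact (Fin.snoc_init_self F).symm

theorem W_filter {m n r : ℕ} (hr : r ≤ n) : W m r = (W m n).filter (fun f => ∀ i, f i < r) := by
  ext f
  rw [mem_filter, mem_W, mem_W]
  constructor
  · intro hf; exact ⟨fun i => lt_of_lt_of_le (hf i) hr, hf⟩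
  · intro hf; exact hf.2

theorem ok_snoc_left {a b : ℕ} (hab : b ≤ a) (f : Fin a → ℕ) (r : ℕ) (g : Fin b → ℕ) :
    Ok (Fin.snoc (α := fun _ => ℕ) f r : Fin (a + 1) → ℕ) g ↔ Ok f g ∧ ∀ i, f i < r + 1 := by
  unfold Ok
  rw [mono_snoc]
  simp only [Fin.snoc_castSucc, Fin.snoc_last]
  constructor
  · rintro ⟨⟨h1, h2⟩, h3, h4⟩
    refine ⟨⟨h1, h3, ?_⟩, fun i => Nat.lt_succ_of_le (h2 i)⟩
    intro i j hij
    have := h4 i.castSucc j (by simpa using hij)
    simpa using this
  · rintro ⟨⟨h1, h3, h4⟩, h2⟩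
    refine ⟨⟨h1, fun i => Nat.le_of_lt_succ (h2 i)⟩, h3, ?_⟩
    intro i j hij
    induction i using Fin.lastCases with
    | last => exfalso; have := j.isLt; simp at hij; omega
    | cast i => simpa using h4 i j (by simpa using hij)

theorem ok_snoc_right {a : ℕ} (f : Fin (a + 1) → ℕ) (s : ℕ) (g : Fin a → ℕ) :
    Ok f (Fin.snoc (α := fun _ => ℕ) g s : Fin (a + 1) → ℕ) ↔
      Ok f g ∧ (∀ i, g i < s + 1) ∧ ∀ i, f i < s := by
  unfold Ok
  rw [mono_snoc (Fin.snoc (α := fun _ => ℕ) g s)]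
  simp only [Fin.snoc_castSucc, Fin.snoc_last]
  constructor
  · rintro ⟨h0, ⟨h1, h2⟩, h4⟩
    refine ⟨⟨h0, h1, ?_⟩, fun i => Nat.lt_succ_of_le (h2 i), ?_⟩
    · intro i j hij
      have := h4 i j.castSucc (by simpa using hij)
      simpa using this
    · intro i
      have h5 := h4 (Fin.last a) (Fin.last a) rfl
      rw [Fin.snoc_last] at h5
      exact lt_of_le_of_lt (h0 (Fin.le_last i)) h5
  · rintro ⟨⟨h0, h1, h4⟩, h2, h5⟩
    refine ⟨h0, ⟨h1, fun i => Nat.le_of_lt_succ (h2 i)⟩, ?_⟩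
    intro i j hij
    induction j using Fin.lastCases with
    | last => rw [Fin.snoc_last]; exact h5 i
    | cast j => simpa using h4 i j (by simpa using hij)

theorem S_left (z : ℕ → ℝ) {a b : ℕ} (hab : b ≤ a) (x y : ℕ) :
    S z (a + 1) b x y = ∑ r ∈ range x, z r * S z a b (r + 1) y := by
  classical
  unfold S
  rw [sum_snoc]
  apply sum_congr rfl
  intro r hr
  rw [W_filter (show r + 1 ≤ x from mem_range.1 hr), sum_filter, mul_sum]
  apply sum_congr rfl
  intro f _
  by_cases hf : ∀ i, f i < r + 1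
  · rw [if_pos hf, mul_sum]
    apply sum_congr rfl
    intro g _
    by_cases hg : Ok f g
    · rw [if_pos ((ok_snoc_left hab f r g).2 ⟨hg, hf⟩), if_pos hg, Fin.prod_univ_castSucc]
      simp only [Fin.snoc_castSucc, Fin.snoc_last]
      ring
    · rw [if_neg (fun h' => hg ((ok_snoc_left hab f r g).1 h').1), if_neg hg, mul_zero]
  · rw [if_neg hf, mul_zero]
    apply sum_eq_zero
    intro g _
    rw [if_neg (fun h' => hf ((ok_snoc_left hab f r g).1 h').2)]

theorem S_right (z : ℕ → ℝ) (a x y : ℕ) :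
    S z (a + 1) (a + 1) x y = ∑ s ∈ range y, z s * S z (a + 1) a (min x s) (s + 1) := by
  classical
  unfold S
  rw [sum_congr rfl (fun f _ => sum_snoc a y _), sum_comm]
  apply sum_congr rfl
  intro s hs
  rw [W_filter (min_le_left x s), sum_filter, mul_sum]
  apply sum_congr rfl
  intro f hfx
  have hfx' := mem_W.1 hfx
  by_cases hf : ∀ i, f i < min x s
  · rw [if_pos hf, W_filter (show s + 1 ≤ y from mem_range.1 hs), sum_filter, mul_sum]
    apply sum_congr rfl
    intro g _
    by_cases hgs : ∀ i, g i < s + 1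
    · rw [if_pos hgs]
      by_cases hg : Ok f g
      · rw [if_pos ((ok_snoc_right f s g).2 ⟨hg, hgs, fun i => lt_of_lt_of_le (hf i) (min_le_right _ _)⟩),
          if_pos hg, Fin.prod_univ_castSucc (fun j => z ((Fin.snoc (α := fun _ => ℕ) g s : Fin (a + 1) → ℕ) j))]
        simp only [Fin.snoc_castSucc, Fin.snoc_last]
        ring
      · rw [if_neg (fun h' => hg ((ok_snoc_right f s g).1 h').1), if_neg hg, mul_zero]
    · rw [if_neg hgs, mul_zero, if_neg (fun h' => hgs ((ok_snoc_right f s g).1 h').2.1)]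
  · rw [if_neg hf, mul_zero]
    apply sum_eq_zero
    intro g _
    rw [if_neg]
    intro h'
    exact hf (fun i => lt_min (hfx' i) (((ok_snoc_right f s g).1 h').2.2 i))

theorem S_zero (z : ℕ → ℝ) (a x y : ℕ) : S z a 0 x y = h z a x := by
  classical
  rw [← sum_mono]
  unfold S
  apply sum_congr rfl
  intro f _
  have : W 0 y = {fun i => i.elim0} := by
    ext f; rw [mem_W, mem_singleton]; constructor
    · intro _; exact Subsingleton.elim _ _
    · intro _ i; exact i.elim0
  rw [this, sum_singleton]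
  have h1 : Ok f (fun i : Fin 0 => (i.elim0 : ℕ)) ↔ Monotone f :=
    ⟨fun h' => h'.1, fun h' => ⟨h', fun i => i.elim0, fun _ j => j.elim0⟩⟩
  by_cases hf : Monotone f
  · rw [if_pos (h1.2 hf), if_pos hf]; simp
  · rw [if_neg (fun h' => hf (h1.1 h')), if_neg hf]

/-- `h_{b-1}`, zero for `b = 0` -/
def hp (z : ℕ → ℝ) : ℕ → ℕ → ℝ
  | 0, _ => 0
  | b + 1, n => h z b n

theorem h_succ (z : ℕ → ℝ) (m n : ℕ) :
    h z (m + 1) (n + 1) = h z (m + 1) n + z n * h z m (n + 1) := by
  simp only [h, sum_range_succ]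

theorem jt_diag (z : ℕ → ℝ) (a x : ℕ) :
    ∑ s ∈ range x, z s * (h z (a + 1) s * h z a (s + 1) - h z (a + 2) s * hp z a (s + 1))
      = h z (a + 1) x * h z (a + 1) x - h z (a + 2) x * h z a x := by
  induction x with
  | zero => simp [h]
  | succ x ih =>
    rw [sum_range_succ, ih, h_succ z (a + 1) x, h_succ z a x]
    cases a with
    | zero => simp only [hp, h]; ring
    | succ a =>
      simp only [hp]
      rw [h_succ z a x]
      ring

/-- the two-row Jacobi–Trudi formula with flags -/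
theorem jt (z : ℕ → ℝ) (b : ℕ) : ∀ a x y : ℕ, b ≤ a → x ≤ y →
    S z a b x y = h z a x * h z b y - h z (a + 1) x * hp z b y := by
  induction b with
  | zero => intro a x y _ _; rw [S_zero]; simp [h, hp]
  | succ b ihb =>
    intro a
    induction a with
    | zero => intro x y hab; omega
    | succ a iha =>
      intro x y hab hxy
      by_cases h1 : b + 1 ≤ a
      · rw [S_left z h1]
        have : ∀ r ∈ range x, z r * S z a (b + 1) (r + 1) y
            = z r * h z a (r + 1) * h z (b + 1) y - z r * h z (a + 1) (r + 1) * hp z (b + 1) y := by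
          intro r hr
          rw [iha (r + 1) y h1 (by have := mem_range.1 hr; omega)]
          ring
        rw [sum_congr rfl this, sum_sub_distrib, ← sum_mul, ← sum_mul]
        rfl
      · have hba : b = a := by omega
        subst hba
        rw [S_right]
        have e : ∀ s ∈ range y, z s * S z (b + 1) b (min x s) (s + 1)
            = z s * (h z (b + 1) (min x s) * h z b (s + 1) - h z (b + 2) (min x s) * hp z b (s + 1)) := by
          intro s _
          rw [ihb (b + 1) (min x s) (s + 1) (by omega) (by omega)]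
        rw [sum_congr rfl e, range_eq_Ico, ← sum_Ico_consecutive _ (Nat.zero_le x) hxy, ← range_eq_Ico]
        have e1 : ∑ s ∈ range x, z s * (h z (b + 1) (min x s) * h z b (s + 1)
            - h z (b + 2) (min x s) * hp z b (s + 1))
            = h z (b + 1) x * h z (b + 1) x - h z (b + 2) x * h z b x := by
          rw [← jt_diag]
          apply sum_congr rfl
          intro s hs
          rw [min_eq_right (le_of_lt (mem_range.1 hs))]
        have e2 : ∑ s ∈ Ico x y, z s * (h z (b + 1) (min x s) * h z b (s + 1)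
            - h z (b + 2) (min x s) * hp z b (s + 1))
            = h z (b + 1) x * (h z (b + 1) y - h z (b + 1) x) - h z (b + 2) x * (h z b y - h z b x) := by
          have e3 : ∑ s ∈ Ico x y, z s * h z b (s + 1) = h z (b + 1) y - h z (b + 1) x := by
            rw [Finset.sum_Ico_eq_sub _ hxy]; rfl
          have e4 : ∑ s ∈ Ico x y, z s * hp z b (s + 1) = h z b y - h z b x := by
            cases b with
            | zero => simp [hp, h]
            | succ b => rw [Finset.sum_Ico_eq_sub _ hxy]; rfl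
          rw [← e3, ← e4, mul_sum, mul_sum, ← sum_sub_distrib]
          apply sum_congr rfl
          intro s hs
          rw [min_eq_left (Finset.mem_Ico.1 hs).1]
          ring
        rw [e1, e2]
        simp only [hp]
        ring

open Classical in
theorem sum_SSYT (z : ℕ → ℝ) (a b ℓ : ℕ) (hab : b ≤ a) :
    ∑ T ∈ SSYT a b ℓ, (∏ i, z (T.1 i).val) * ∏ j, z (T.2 j).val
      = h z a ℓ * h z b ℓ - h z (a + 1) ℓ * hp z b ℓ := by
  rw [← jt z b a ℓ ℓ hab le_rfl, S, SSYT, sum_filter, Fintype.sum_prod_type,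
    ← conv a ℓ (fun f => ∑ g ∈ W b ℓ, if Ok f g then (∏ i, z (f i)) * ∏ j, z (g j) else 0)]
  apply sum_congr rfl
  intro f _
  rw [← conv b ℓ (fun g => if Ok (fun i => (f i).val) g then
    (∏ i, z (f i).val) * ∏ j, z (g j) else 0)]
  apply sum_congr rfl
  intro g _
  have hc : ((∀ i j : Fin a, i ≤ j → f i ≤ f j) ∧ (∀ i j : Fin b, i ≤ j → g i ≤ g j) ∧
      ∀ (i : Fin a) (j : Fin b), i.val = j.val → f i < g j) ↔
      Ok (fun i => (f i).val) (fun j => (g j).val) := by
    constructor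
    · rintro ⟨h1, h2, h3⟩
      exact ⟨fun i j hij => h1 i j hij, fun i j hij => h2 i j hij, fun i j hij => h3 i j hij⟩
    · rintro ⟨h1, h2, h3⟩
      exact ⟨fun i j hij => h1 hij, fun i j hij => h2 hij, fun i j hij => h3 i j hij⟩
  by_cases hh : Ok (fun i => (f i).val) (fun j => (g j).val)
  · rw [if_pos (hc.2 hh), if_pos hh]
  · rw [if_neg (fun h' => hh (hc.1 h')), if_neg hh]

def p (z : ℕ → ℝ) (k n : ℕ) : ℝ := ∑ i ∈ range n, z i ^ k

theorem p_succ (z : ℕ → ℝ) (k n : ℕ) : p z k (n + 1) = p z k n + z n ^ k := by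
  simp [p, sum_range_succ]

theorem h_zero (z : ℕ → ℝ) (n : ℕ) : h z 0 n = 1 := rfl

theorem h_one (z : ℕ → ℝ) (n : ℕ) : h z 1 n = p z 1 n := by simp [h, p]

/-- Newton's identities for complete homogeneous polynomials -/
theorem newton (z : ℕ → ℝ) (n m : ℕ) :
    ((m : ℝ) + 1) * h z (m + 1) n = ∑ x ∈ antidiagonal m, p z (x.1 + 1) n * h z x.2 n := by
  induction n generalizing m with
  | zero => simp [h, p]
  | succ n ihn =>
    induction m with
    | zero =>
      simp only [Finset.Nat.antidiagonal_zero, sum_singleton, h_zero, zero_add, h_one]; push_cast; ring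
    | succ m ihm =>
      have hB : ∑ x ∈ antidiagonal (m + 1), p z (x.1 + 1) n * h z x.2 (n + 1)
          = ((m : ℝ) + 1 + 1) * h z (m + 2) n
            + z n * ∑ x ∈ antidiagonal m, p z (x.1 + 1) n * h z x.2 (n + 1) := by
        have := ihn (m + 1)
        push_cast at this
        have e : ∑ x ∈ antidiagonal m, p z (x.1 + 1) n * h z (x.2 + 1) (n + 1)
            = ∑ x ∈ antidiagonal m, p z (x.1 + 1) n * h z (x.2 + 1) n
              + z n * ∑ x ∈ antidiagonal m, p z (x.1 + 1) n * h z x.2 (n + 1) := by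
          rw [mul_sum, ← sum_add_distrib]
          apply sum_congr rfl
          intro x _
          rw [h_succ]; ring
        rw [this, Finset.Nat.sum_antidiagonal_succ', Finset.Nat.sum_antidiagonal_succ', h_zero, h_zero]
        simp only []
        linear_combination e
      have hA : ∑ x ∈ antidiagonal (m + 1), z n ^ (x.1 + 1) * h z x.2 (n + 1)
          = z n * h z (m + 1) (n + 1) + z n * ∑ x ∈ antidiagonal m, z n ^ (x.1 + 1) * h z x.2 (n + 1) := by
        rw [Finset.Nat.sum_antidiagonal_succ, mul_sum]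
        congr 1
        · simp
        · apply sum_congr rfl
          intro x _
          rw [pow_succ]; ring
      have split : ∀ m' : ℕ, ∑ x ∈ antidiagonal m', p z (x.1 + 1) (n + 1) * h z x.2 (n + 1)
          = ∑ x ∈ antidiagonal m', p z (x.1 + 1) n * h z x.2 (n + 1)
            + ∑ x ∈ antidiagonal m', z n ^ (x.1 + 1) * h z x.2 (n + 1) := by
        intro m'
        rw [← sum_add_distrib]
        apply sum_congr rfl
        intro x _
        rw [p_succ]; ring
      rw [split, hA, hB]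
      rw [split] at ihm
      rw [h_succ z (m + 1) n]
      push_cast
      linear_combination (z n) * ihm



/-- `P u t = ∑ exp (t u_i)` -/
noncomputable def P {ℓ : ℕ} (u : Fin ℓ → ℝ) (t : ℝ) : ℝ := ∑ i, Real.exp (t * u i)

theorem P_zero {ℓ : ℕ} (u : Fin ℓ → ℝ) : P u 0 = ℓ := by simp [P]

theorem P_cont {ℓ : ℕ} (u : Fin ℓ → ℝ) : Continuous (P u) := by
  unfold P; fun_prop

theorem P_small {ℓ : ℕ} (u : Fin ℓ → ℝ) (k : ℕ) :
    (fun t => P u t - ∑ j ∈ range (k + 1), (∑ i, u i ^ j) * t ^ j / (j.factorial : ℝ))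
      =o[𝓝 0] (fun t : ℝ => t ^ k) := by
  have h : ∀ i ∈ (univ : Finset (Fin ℓ)), (fun t : ℝ => Real.exp (t * u i) -
      ∑ j ∈ range (k + 1), (t * u i) ^ j / (j.factorial : ℝ)) =o[𝓝 0] (fun t : ℝ => t ^ k) := by
    intro i _
    have h1 := Real.exp_sub_sum_range_succ_isLittleO_pow k
    have h2 : Tendsto (fun t : ℝ => t * u i) (𝓝 0) (𝓝 0) := by
      have : Continuous (fun t : ℝ => t * u i) := by fun_prop
      simpa using this.tendsto 0
    have h3 := h1.comp_tendsto h2
    refine h3.trans_isBigO ?_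
    have : ((fun x : ℝ => x ^ k) ∘ fun t : ℝ => t * u i) = fun t : ℝ => (u i ^ k) * t ^ k := by
      funext t; simp [mul_pow, mul_comm]
    rw [this]
    exact isBigO_const_mul_self _ _ _
  have h' := IsLittleO.sum h
  refine h'.congr_left ?_
  intro t
  rw [Finset.sum_apply]
  simp only [P, sum_sub_distrib]
  congr 1
  rw [sum_comm]
  apply sum_congr rfl
  intro j _
  rw [sum_mul, sum_div]
  apply sum_congr rfl
  intro i _
  rw [mul_pow]; ring

theorem D_lim {ℓ : ℕ} (u v : Fin ℓ → ℝ) (k : ℕ)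
    (h : ∀ j < k, ∑ i, u i ^ j = ∑ i, v i ^ j) (a : ℝ) :
    Tendsto (fun t : ℝ => (P u (a * t) - P v (a * t)) / t ^ k) (𝓝[≠] 0)
      (𝓝 (a ^ k * ((∑ i, u i ^ k - ∑ i, v i ^ k) / (k.factorial : ℝ)))) := by
  set c := (∑ i, u i ^ k - ∑ i, v i ^ k) / (k.factorial : ℝ) with hc
  have h1 := (P_small u k).sub (P_small v k)
  have h2 : (fun t => P u t - P v t - c * t ^ k) =o[𝓝 0] (fun t : ℝ => t ^ k) := by
    refine h1.congr_left ?_
    intro t
    rw [sum_range_succ, sum_range_succ]
    have : ∑ j ∈ range k, (∑ i, u i ^ j) * t ^ j / (j.factorial : ℝ)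
        = ∑ j ∈ range k, (∑ i, v i ^ j) * t ^ j / (j.factorial : ℝ) := by
      apply sum_congr rfl
      intro j hj
      rw [h j (mem_range.1 hj)]
    rw [this, hc]
    ring
  have h3 : Tendsto (fun t : ℝ => a * t) (𝓝 0) (𝓝 0) := by
    have : Continuous (fun t : ℝ => a * t) := by fun_prop
    simpa using this.tendsto 0
  have h4 := h2.comp_tendsto h3
  have h5 : (fun t : ℝ => P u (a * t) - P v (a * t) - c * (a * t) ^ k) =o[𝓝 0]
      (fun t : ℝ => t ^ k) := by
    refine h4.trans_isBigO ?_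
    have : ((fun x : ℝ => x ^ k) ∘ fun t : ℝ => a * t) = fun t : ℝ => a ^ k * t ^ k := by
      funext t; simp [mul_pow]
    rw [this]
    exact isBigO_const_mul_self _ _ _
  have h6 := (h5.tendsto_div_nhds_zero).mono_left (nhdsWithin_le_nhds (s := {(0 : ℝ)}ᶜ))
  have h7 := h6.add_const (a ^ k * c)
  rw [zero_add] at h7
  refine h7.congr' ?_
  filter_upwards [self_mem_nhdsWithin] with t ht
  have ht' : t ≠ 0 := ht
  have : t ^ k ≠ 0 := pow_ne_zero _ ht'
  field_simp
  ring

theorem poly_sum {ℓ : ℕ} (u v : Fin ℓ → ℝ) (h : ∀ k, ∑ i, u i ^ k = ∑ i, v i ^ k)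
    (q : Polynomial ℝ) : ∑ i, q.eval (u i) = ∑ i, q.eval (v i) := by
  simp only [Polynomial.eval_eq_sum_range]
  rw [sum_comm]
  conv_rhs => rw [sum_comm]
  apply sum_congr rfl
  intro j _
  rw [← mul_sum, ← mul_sum, h]

theorem multiset_eq {ℓ : ℕ} (u v : Fin ℓ → ℝ) (h : ∀ k, ∑ i, u i ^ k = ∑ i, v i ^ k) :
    (univ : Finset (Fin ℓ)).val.map u = (univ : Finset (Fin ℓ)).val.map v := by
  classical
  ext a
  set S : Finset ℝ := (univ.image u ∪ univ.image v).erase a with hS
  set q : Polynomial ℝ := ∏ b ∈ S, (Polynomial.X - Polynomial.C b) with hq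
  have hqa : q.eval a ≠ 0 := by
    rw [hq, Polynomial.eval_prod]
    apply prod_ne_zero_iff.2
    intro b hb
    simp only [Polynomial.eval_sub, Polynomial.eval_X, Polynomial.eval_C]
    exact sub_ne_zero.2 (fun hab => (mem_erase.1 hb).1 hab.symm)
  have hq0 : ∀ b ∈ S, q.eval b = 0 := by
    intro b hb
    rw [hq, Polynomial.eval_prod]
    apply prod_eq_zero hb
    simp
  have key : ∀ w : Fin ℓ → ℝ, (∀ i, w i ≠ a → w i ∈ S) →
      ∑ i, q.eval (w i) = (Multiset.count a (univ.val.map w) : ℝ) * q.eval a := by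
    intro w hw
    have e1 : ∀ i, q.eval (w i) = if w i = a then q.eval a else 0 := by
      intro i
      by_cases hi : w i = a
      · rw [if_pos hi, hi]
      · rw [if_neg hi, hq0 _ (hw i hi)]
    simp only [e1]
    rw [← sum_filter, sum_const, nsmul_eq_mul]
    congr 2
    rw [Multiset.count_map]
    have : (univ.filter (fun i => w i = a)) = univ.filter (fun i => a = w i) := by
      ext i; simp [eq_comm]
    rw [this]
    rfl
  have hu := key u (fun i hi => mem_erase.2 ⟨hi, mem_union_left _ (mem_image_of_mem _ (mem_univ i))⟩)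
  have hv := key v (fun i hi => mem_erase.2 ⟨hi, mem_union_right _ (mem_image_of_mem _ (mem_univ i))⟩)
  have := poly_sum u v h q
  rw [hu, hv] at this
  exact_mod_cast mul_right_cancel₀ hqa this


/-- the letters `exp (t u_i)` -/
noncomputable def zt {ℓ : ℕ} (u : Fin ℓ → ℝ) (t : ℝ) (k : ℕ) : ℝ :=
  if hk : k < ℓ then Real.exp (t * u ⟨k, hk⟩) else 0

theorem zt_val {ℓ : ℕ} (u : Fin ℓ → ℝ) (t : ℝ) (i : Fin ℓ) : zt u t i.val = Real.exp (t * u i) := by
  simp [zt]

noncomputable def hu {ℓ : ℕ} (u : Fin ℓ → ℝ) (m : ℕ) (t : ℝ) : ℝ := h (zt u t) m ℓ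

theorem p_zt {ℓ : ℕ} (u : Fin ℓ → ℝ) (t : ℝ) (k : ℕ) : p (zt u t) k ℓ = P u ((k : ℝ) * t) := by
  rw [p, ← Fin.sum_univ_eq_sum_range (fun i => zt u t i ^ k), P]
  apply sum_congr rfl
  intro i _
  rw [zt_val, ← Real.exp_nat_mul]
  congr 1; ring

theorem hu_newton {ℓ : ℕ} (u : Fin ℓ → ℝ) (m : ℕ) (t : ℝ) :
    ((m : ℝ) + 1) * hu u (m + 1) t
      = ∑ x ∈ antidiagonal m, P u (((x.1 : ℝ) + 1) * t) * hu u x.2 t := by
  rw [hu, newton]
  apply sum_congr rfl
  intro x _
  rw [p_zt, hu]
  push_cast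
  rfl

/-- number of weakly increasing words -/
def hN : ℕ → ℕ → ℕ
  | 0, _ => 1
  | m + 1, n => ∑ i ∈ range n, hN m (i + 1)

/-- value at the all-ones vector -/
noncomputable def eta (ℓ m : ℕ) : ℝ := h (fun _ => 1) m ℓ

theorem h_ones (m n : ℕ) : h (fun _ => 1) m n = (hN m n : ℝ) := by
  induction m generalizing n with
  | zero => simp [h, hN]
  | succ m ih => simp [h, hN, ih]

theorem hN_pos (m n : ℕ) : 0 < hN m (n + 1) := by
  induction m generalizing n with
  | zero => simp [hN]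
  | succ m ih =>
    rw [hN]
    exact sum_pos (fun i _ => ih i) ⟨0, by simp⟩

theorem eta_newton (ℓ m : ℕ) :
    ((m : ℝ) + 1) * eta ℓ (m + 1) = ∑ x ∈ antidiagonal m, (ℓ : ℝ) * eta ℓ x.2 := by
  rw [eta, newton]
  apply sum_congr rfl
  intro x _
  simp [p, eta]

theorem eta_int (ℓ m : ℕ) : ∃ e : ℤ, ((m + 1).factorial : ℝ) * eta ℓ (m + 1) = ℓ * e := by
  refine ⟨∑ x ∈ antidiagonal m, (m.factorial : ℤ) * (hN x.2 ℓ : ℤ), ?_⟩
  rw [Nat.factorial_succ]
  push_cast
  have := eta_newton ℓ m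
  calc ((m : ℝ) + 1) * (m.factorial : ℝ) * eta ℓ (m + 1)
      = (m.factorial : ℝ) * (((m : ℝ) + 1) * eta ℓ (m + 1)) := by ring
    _ = _ := by
      rw [this, mul_sum, mul_sum]
      apply sum_congr rfl
      intro x _
      rw [eta, h_ones]; ring

theorem P_lim {ℓ : ℕ} (w : Fin ℓ → ℝ) (a : ℝ) :
    Tendsto (fun t : ℝ => P w (a * t)) (𝓝[≠] 0) (𝓝 (ℓ : ℝ)) := by
  have : Continuous (fun t : ℝ => P w (a * t)) := (P_cont w).comp (by fun_prop)
  have h0 := this.tendsto 0
  rw [mul_zero, P_zero] at h0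
  exact h0.mono_left nhdsWithin_le_nhds

theorem hu_lim {ℓ : ℕ} (u : Fin ℓ → ℝ) (m : ℕ) :
    Tendsto (fun t => hu u m t) (𝓝[≠] 0) (𝓝 (eta ℓ m)) := by
  induction m using Nat.strong_induction_on with
  | _ m ih =>
    cases m with
    | zero => simp only [hu, eta, h_zero]; exact tendsto_const_nhds
    | succ m =>
      have hm : ((m : ℝ) + 1) ≠ 0 := by positivity
      have e1 : ∀ t, hu u (m + 1) t
          = (∑ x ∈ antidiagonal m, P u (((x.1 : ℝ) + 1) * t) * hu u x.2 t) / ((m : ℝ) + 1) := by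
        intro t; rw [← hu_newton]; field_simp
      have e2 : eta ℓ (m + 1) = (∑ x ∈ antidiagonal m, (ℓ : ℝ) * eta ℓ x.2) / ((m : ℝ) + 1) := by
        rw [← eta_newton]; field_simp
      simp only [e1]
      rw [e2]
      apply Tendsto.div_const
      apply tendsto_finsetSum
      intro x hx
      have : x.2 < m + 1 := by have := Finset.HasAntidiagonal.mem_antidiagonal.1 hx; omega
      exact (P_lim u _).mul (ih _ this)

/-- the main term of `m! g_m` modulo `ℓ` -/
def Bf (k m : ℕ) : ℤ := if m = 0 then 0 else ((m - 1).factorial : ℤ) * (m : ℤ) ^ k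

theorem key {ℓ : ℕ} (u v : Fin ℓ → ℝ) (k : ℕ)
    (hm : ∀ j < k, ∑ i, u i ^ j = ∑ i, v i ^ j) (m : ℕ) :
    ∃ r : ℝ, Tendsto (fun t : ℝ => (hu u m t - hu v m t) / t ^ k) (𝓝[≠] 0)
      (𝓝 (((∑ i, u i ^ k - ∑ i, v i ^ k) / (k.factorial : ℝ)) * r)) ∧
      ∃ w : ℤ, (m.factorial : ℝ) * r = (Bf k m : ℝ) + ℓ * w := by
  set c := (∑ i, u i ^ k - ∑ i, v i ^ k) / (k.factorial : ℝ) with hc
  induction m using Nat.strong_induction_on with
  | _ m ih =>
    cases m with
    | zero =>
      refine ⟨0, ?_, 0, by simp [Bf]⟩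
      simp only [hu, h_zero, sub_self, zero_div, mul_zero]
      exact tendsto_const_nhds
    | succ m =>
      have hm1 : ((m : ℝ) + 1) ≠ 0 := by positivity
      choose! g hg using ih
      refine ⟨(∑ x ∈ antidiagonal m, (((x.1 : ℝ) + 1) ^ k * eta ℓ x.2 + ℓ * g x.2)) / ((m : ℝ) + 1),
        ?_, ?_⟩
      · have e1 : ∀ t : ℝ, (hu u (m + 1) t - hu v (m + 1) t) / t ^ k
            = (∑ x ∈ antidiagonal m, ((P u (((x.1 : ℝ) + 1) * t) - P v (((x.1 : ℝ) + 1) * t)) / t ^ k
                * hu u x.2 t + P v (((x.1 : ℝ) + 1) * t) * ((hu u x.2 t - hu v x.2 t) / t ^ k)))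
              / ((m : ℝ) + 1) := by
          intro t
          have a1 : hu u (m + 1) t
              = (∑ x ∈ antidiagonal m, P u (((x.1 : ℝ) + 1) * t) * hu u x.2 t) / ((m : ℝ) + 1) := by
            rw [← hu_newton]; field_simp
          have a2 : hu v (m + 1) t
              = (∑ x ∈ antidiagonal m, P v (((x.1 : ℝ) + 1) * t) * hu v x.2 t) / ((m : ℝ) + 1) := by
            rw [← hu_newton]; field_simp
          rw [a1, a2, ← sub_div, ← sum_sub_distrib, div_right_comm, sum_div]
          congr 1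
          apply sum_congr rfl
          intro x _
          ring
        simp only [e1]
        have e2 : c * ((∑ x ∈ antidiagonal m, (((x.1 : ℝ) + 1) ^ k * eta ℓ x.2 + ℓ * g x.2))
            / ((m : ℝ) + 1)) = (∑ x ∈ antidiagonal m, ((((x.1 : ℝ) + 1) ^ k * c) * eta ℓ x.2
              + ℓ * (c * g x.2))) / ((m : ℝ) + 1) := by
          rw [← mul_div_assoc, mul_sum]
          congr 1
          apply sum_congr rfl
          intro x _
          ring
        rw [e2]
        apply Tendsto.div_const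
        apply tendsto_finsetSum
        intro x hx
        have hx' : x.2 < m + 1 := by have := Finset.HasAntidiagonal.mem_antidiagonal.1 hx; omega
        exact ((D_lim u v k hm ((x.1 : ℝ) + 1)).mul (hu_lim u x.2)).add
          ((P_lim v _).mul (hg x.2 hx').1)
      · have each : ∀ x ∈ antidiagonal m, ∃ w : ℤ,
            (m.factorial : ℝ) * (((x.1 : ℝ) + 1) ^ k * eta ℓ x.2 + ℓ * g x.2)
            = (if x.2 = 0 then ((m.factorial : ℝ) * ((m : ℝ) + 1) ^ k) else 0) + ℓ * w := by
          intro x hx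
          have hx0 := Finset.HasAntidiagonal.mem_antidiagonal.1 hx
          obtain ⟨w0, hw0⟩ := (hg x.2 (by omega)).2
          by_cases h0 : x.2 = 0
          · rw [if_pos h0]
            have hx1 : x.1 = m := by omega
            rw [h0] at hw0 ⊢
            simp only [Bf, Nat.factorial_zero, Nat.cast_one, one_mul, if_true, Int.cast_zero,
              zero_add] at hw0
            refine ⟨(m.factorial : ℤ) * (ℓ * w0), ?_⟩
            rw [hx1, hw0, eta, h_zero]
            push_cast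
            ring
          · rw [if_neg h0]
            obtain ⟨j, hj⟩ := Nat.exists_eq_succ_of_ne_zero h0
            obtain ⟨e, he⟩ := eta_int ℓ j
            obtain ⟨q, hq⟩ := Nat.factorial_dvd_factorial (show x.2 ≤ m by omega)
            rw [← Nat.succ_eq_add_one, ← hj] at he
            refine ⟨(q : ℤ) * (((x.1 : ℤ) + 1) ^ k * e + (Bf k x.2 + ℓ * w0)), ?_⟩
            have hqr : (m.factorial : ℝ) = (x.2.factorial : ℝ) * q := by exact_mod_cast hq
            rw [hqr]
            push_cast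
            linear_combination (q : ℝ) * ((x.1 : ℝ) + 1) ^ k * he + (q : ℝ) * ℓ * hw0
        choose! w hw using each
        refine ⟨∑ x ∈ antidiagonal m, w x, ?_⟩
        have e3 : (((m + 1).factorial : ℕ) : ℝ) * ((∑ x ∈ antidiagonal m, (((x.1 : ℝ) + 1) ^ k * eta ℓ x.2
            + ℓ * g x.2)) / ((m : ℝ) + 1)) = ∑ x ∈ antidiagonal m, (m.factorial : ℝ) *
              (((x.1 : ℝ) + 1) ^ k * eta ℓ x.2 + ℓ * g x.2) := by
          rw [← mul_sum, Nat.factorial_succ]
          push_cast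
          field_simp
        rw [e3, sum_congr rfl hw, sum_add_distrib, ← mul_sum]
        have e4 : ∑ x ∈ antidiagonal m, (if x.2 = 0 then ((m.factorial : ℝ) * ((m : ℝ) + 1) ^ k) else 0)
            = (Bf k (m + 1) : ℝ) := by
          rw [sum_eq_single (m, 0)]
          · simp [Bf]
          · intro x hx hne
            rw [if_neg]
            intro h0
            apply hne
            have := Finset.HasAntidiagonal.mem_antidiagonal.1 hx
            exact Prod.ext (by simp; omega) h0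
          · intro hnot
            exact absurd (Finset.HasAntidiagonal.mem_antidiagonal.2 (by simp)) hnot
        rw [e4]
        push_cast
        rfl


theorem eta_int2 (ℓ m : ℕ) : ∃ e : ℤ, ((m + 1).factorial : ℝ) * eta ℓ (m + 1)
    = (m.factorial : ℝ) * ℓ + (ℓ : ℝ) ^ 2 * e := by
  have each : ∀ x ∈ antidiagonal m, ∃ w : ℤ,
      (m.factorial : ℝ) * eta ℓ x.2 = (if x.2 = 0 then (m.factorial : ℝ) else 0) + ℓ * w := by
    intro x hx
    have hx0 := Finset.HasAntidiagonal.mem_antidiagonal.1 hx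
    by_cases h0 : x.2 = 0
    · refine ⟨0, ?_⟩
      rw [if_pos h0, h0, eta, h_zero]; simp
    · rw [if_neg h0]
      obtain ⟨j, hj⟩ := Nat.exists_eq_succ_of_ne_zero h0
      obtain ⟨e, he⟩ := eta_int ℓ j
      obtain ⟨q, hq⟩ := Nat.factorial_dvd_factorial (show x.2 ≤ m by omega)
      rw [← Nat.succ_eq_add_one, ← hj] at he
      refine ⟨(q : ℤ) * e, ?_⟩
      have hqr : (m.factorial : ℝ) = (x.2.factorial : ℝ) * q := by exact_mod_cast hq
      rw [hqr]
      push_cast
      linear_combination (q : ℝ) * he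
  choose! w hw using each
  refine ⟨∑ x ∈ antidiagonal m, w x, ?_⟩
  have hn := eta_newton ℓ m
  have e3 : ∑ x ∈ antidiagonal m, (m.factorial : ℝ) * eta ℓ x.2
      = (m.factorial : ℝ) + ℓ * ∑ x ∈ antidiagonal m, (w x : ℝ) := by
    rw [sum_congr rfl hw, sum_add_distrib, ← mul_sum]
    congr 1
    rw [sum_eq_single (m, 0)]
    · simp
    · intro x hx hne
      rw [if_neg]
      intro h0
      apply hne
      have := Finset.HasAntidiagonal.mem_antidiagonal.1 hx
      exact Prod.ext (by simp; omega) h0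
    · intro hnot
      exact absurd (Finset.HasAntidiagonal.mem_antidiagonal.2 (by simp)) hnot
  rw [Nat.factorial_succ]
  push_cast
  calc ((m : ℝ) + 1) * (m.factorial : ℝ) * eta ℓ (m + 1)
      = (m.factorial : ℝ) * (((m : ℝ) + 1) * eta ℓ (m + 1)) := by ring
    _ = ℓ * ∑ x ∈ antidiagonal m, (m.factorial : ℝ) * eta ℓ x.2 := by
      rw [hn, mul_sum, mul_sum]
      apply sum_congr rfl
      intro x _
      ring
    _ = _ := by rw [e3]; ring

/-- the integer `Φ_k(a,b) = (a+1)(b-1)(a^k+b^k) - ab((a+1)^k+(b-1)^k)` -/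
def Phi (a b k : ℕ) : ℤ :=
  ((a : ℤ) + 1) * ((b : ℤ) - 1) * ((a : ℤ) ^ k + (b : ℤ) ^ k)
    - (a : ℤ) * b * (((a : ℤ) + 1) ^ k + ((b : ℤ) - 1) ^ k)

theorem moments {ℓ A B : ℕ} (hℓ0 : 1 ≤ ℓ)
    (hC : ∀ k, 1 ≤ k → ¬ (ℓ : ℤ) ∣ (A.factorial : ℤ) * B.factorial * Phi (A + 1) (B + 2) k)
    (u v : Fin ℓ → ℝ)
    (hS : ∀ t, hu u (A + 1) t * hu u (B + 2) t - hu u (A + 2) t * hu u (B + 1) t
      = hu v (A + 1) t * hu v (B + 2) t - hu v (A + 2) t * hu v (B + 1) t) (k : ℕ) :
    ∑ i, u i ^ k = ∑ i, v i ^ k := by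
  induction k using Nat.strong_induction_on with
  | _ k ih =>
    rcases Nat.eq_zero_or_pos k with hk0 | hk0
    · subst hk0; simp
    set c := (∑ i, u i ^ k - ∑ i, v i ^ k) / (k.factorial : ℝ) with hc
    obtain ⟨r1, l1, w1, hw1⟩ := key u v k ih (A + 1)
    obtain ⟨r2, l2, w2, hw2⟩ := key u v k ih (B + 2)
    obtain ⟨r3, l3, w3, hw3⟩ := key u v k ih (A + 2)
    obtain ⟨r4, l4, w4, hw4⟩ := key u v k ih (B + 1)
    rw [← hc] at l1 l2 l3 l4
    have T := (((l1.mul (hu_lim u (B + 2))).add ((hu_lim v (A + 1)).mul l2)).sub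
      ((l3.mul (hu_lim u (B + 1))).add ((hu_lim v (A + 2)).mul l4)))
    have T0 : Tendsto (fun _ : ℝ => (0 : ℝ)) (𝓝[≠] 0) (𝓝 0) := tendsto_const_nhds
    have lim := tendsto_nhds_unique (T.congr' (f₂ := fun _ => (0 : ℝ)) (by
      filter_upwards [self_mem_nhdsWithin] with t ht
      have ht := hS t
      calc _ = ((hu u (A + 1) t * hu u (B + 2) t - hu u (A + 2) t * hu u (B + 1) t) -
            (hu v (A + 1) t * hu v (B + 2) t - hu v (A + 2) t * hu v (B + 1) t)) / t ^ k := by ring
        _ = 0 := by rw [ht, sub_self, zero_div])) T0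
    obtain ⟨e1, he1⟩ := eta_int2 ℓ A
    obtain ⟨e2, he2⟩ := eta_int2 ℓ (B + 1)
    obtain ⟨e3, he3⟩ := eta_int2 ℓ (A + 1)
    obtain ⟨e4, he4⟩ := eta_int2 ℓ B
    have hz : c * (r1 * eta ℓ (B + 2) + eta ℓ (A + 1) * r2 - r3 * eta ℓ (B + 1)
        - eta ℓ (A + 2) * r4) = 0 := by
      linear_combination lim
    rcases mul_eq_zero.1 hz with h0 | h0
    · rw [hc, div_eq_zero_iff] at h0
      rcases h0 with h0 | h0
      · linarith
      · exact absurd h0 (by positivity)
    · exfalso
      apply hC k hk0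
      have hB1 : (Bf k (A + 1) : ℝ) = (A.factorial : ℝ) * ((A : ℝ) + 1) ^ k := by simp [Bf]
      have hB2 : (Bf k (B + 2) : ℝ) = ((B + 1).factorial : ℝ) * ((B : ℝ) + 2) ^ k := by simp [Bf]
      have hB3 : (Bf k (A + 2) : ℝ) = ((A + 1).factorial : ℝ) * ((A : ℝ) + 2) ^ k := by simp [Bf]
      have hB4 : (Bf k (B + 1) : ℝ) = (B.factorial : ℝ) * ((B : ℝ) + 1) ^ k := by simp [Bf]
      rw [hB1] at hw1
      rw [hB2] at hw2
      rw [hB3] at hw3
      rw [hB4] at hw4
      have fA2 : ((A + 2).factorial : ℝ) = ((A : ℝ) + 2) * ((A + 1).factorial : ℝ) := by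
        rw [Nat.factorial_succ (A + 1)]; push_cast; ring
      have fB2 : ((B + 2).factorial : ℝ) = ((B : ℝ) + 2) * ((B + 1).factorial : ℝ) := by
        rw [Nat.factorial_succ (B + 1)]; push_cast; ring
      have hℓr : (ℓ : ℝ) ≠ 0 := by
        have : 0 < ℓ := hℓ0
        positivity
      have main1 : (ℓ : ℝ) * (((A : ℝ) + 2) * ((A.factorial : ℝ) * ((A : ℝ) + 1) ^ k + ℓ * w1)
            * (((B + 1).factorial : ℝ) + ℓ * e2)
          + ((A : ℝ) + 2) * ((A.factorial : ℝ) + ℓ * e1)
            * (((B + 1).factorial : ℝ) * ((B : ℝ) + 2) ^ k + ℓ * w2)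
          - ((B : ℝ) + 2) * (((A + 1).factorial : ℝ) * ((A : ℝ) + 2) ^ k + ℓ * w3)
            * ((B.factorial : ℝ) + ℓ * e4)
          - ((B : ℝ) + 2) * (((A + 1).factorial : ℝ) + ℓ * e3)
            * ((B.factorial : ℝ) * ((B : ℝ) + 1) ^ k + ℓ * w4)) = 0 := by
        have q1 : ((A : ℝ) + 2) * (((A + 1).factorial : ℝ) * r1) * (((B + 2).factorial : ℝ) * eta ℓ (B + 2))
          + ((A : ℝ) + 2) * (((A + 1).factorial : ℝ) * eta ℓ (A + 1)) * (((B + 2).factorial : ℝ) * r2)
          - ((B : ℝ) + 2) * (((A + 2).factorial : ℝ) * r3) * (((B + 1).factorial : ℝ) * eta ℓ (B + 1))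
          - ((B : ℝ) + 2) * (((A + 2).factorial : ℝ) * eta ℓ (A + 2)) * (((B + 1).factorial : ℝ) * r4)
            = 0 := by
          rw [fA2, fB2]
          linear_combination (((A : ℝ) + 2) * ((A + 1).factorial : ℝ) * (((B : ℝ) + 2)
            * ((B + 1).factorial : ℝ))) * h0
        rw [hw1, he2, he1, hw2, hw3, he4, he3, hw4] at q1
        linear_combination q1
      have main2 := (mul_eq_zero.1 main1).resolve_left hℓr
      have main3 : (((A : ℤ) + 2) * ((A.factorial : ℤ) * ((A : ℤ) + 1) ^ k + ℓ * w1)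
            * (((B + 1).factorial : ℤ) + ℓ * e2)
          + ((A : ℤ) + 2) * ((A.factorial : ℤ) + ℓ * e1)
            * (((B + 1).factorial : ℤ) * ((B : ℤ) + 2) ^ k + ℓ * w2)
          - ((B : ℤ) + 2) * (((A + 1).factorial : ℤ) * ((A : ℤ) + 2) ^ k + ℓ * w3)
            * ((B.factorial : ℤ) + ℓ * e4)
          - ((B : ℤ) + 2) * (((A + 1).factorial : ℤ) + ℓ * e3)
            * ((B.factorial : ℤ) * ((B : ℤ) + 1) ^ k + ℓ * w4)) = 0 := by
        exact_mod_cast main2
      have gA : ((A + 1).factorial : ℤ) = ((A : ℤ) + 1) * (A.factorial : ℤ) := by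
        rw [Nat.factorial_succ]; push_cast; ring
      have gB : ((B + 1).factorial : ℤ) = ((B : ℤ) + 1) * (B.factorial : ℤ) := by
        rw [Nat.factorial_succ]; push_cast; ring
      rw [gA, gB] at main3
      set FA := (A.factorial : ℤ)
      set FB := (B.factorial : ℤ)
      refine ⟨-(((A : ℤ) + 2) * (FA * ((A : ℤ) + 1) ^ k * e2 + w1 * (((B : ℤ) + 1) * FB) + ℓ * w1 * e2)
        + ((A : ℤ) + 2) * (FA * w2 + e1 * (((B : ℤ) + 1) * FB * ((B : ℤ) + 2) ^ k) + ℓ * e1 * w2)
        - ((B : ℤ) + 2) * (((A : ℤ) + 1) * FA * ((A : ℤ) + 2) ^ k * e4 + w3 * FB + ℓ * w3 * e4)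
        - ((B : ℤ) + 2) * (((A : ℤ) + 1) * FA * w4 + e3 * (FB * ((B : ℤ) + 1) ^ k) + ℓ * e3 * w4)), ?_⟩
      unfold Phi
      push_cast
      have s1 : ((A : ℤ) + 1 + 1) = (A : ℤ) + 2 := by ring
      have s2 : ((B : ℤ) + 2 - 1) = (B : ℤ) + 1 := by ring
      rw [s1, s2]
      linear_combination main3

theorem card_lt (a b ℓ : ℕ) (hb : 1 ≤ b) (hℓ : 1 ≤ ℓ) :
    (SSYT a b ℓ).card < (SSYT a b (ℓ + 1)).card := by
  classical
  set φ : ((Fin a → Fin ℓ) × (Fin b → Fin ℓ)) → ((Fin a → Fin (ℓ + 1)) × (Fin b → Fin (ℓ + 1))) :=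
    fun T => (fun i => (T.1 i).castSucc, fun j => (T.2 j).castSucc) with hφ
  have hinj : Function.Injective φ := by
    intro T T' h
    have h1 := congrArg Prod.fst h
    have h2 := congrArg Prod.snd h
    refine Prod.ext ?_ ?_
    · funext i; exact Fin.castSucc_injective _ (congrFun h1 i)
    · funext i; exact Fin.castSucc_injective _ (congrFun h2 i)
  rw [← card_image_of_injective _ hinj]
  apply card_lt_card
  rw [ssubset_iff_of_subset]
  · refine ⟨(fun _ => 0, fun _ => Fin.last ℓ), ?_, ?_⟩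
    · rw [SSYT, mem_filter]
      refine ⟨mem_univ _, fun _ _ _ => le_refl _, fun _ _ _ => le_refl _, fun _ _ _ => ?_⟩
      rw [Fin.lt_def]
      have : 0 < ℓ := hℓ
      simpa using this
    · intro hmem
      obtain ⟨T, _, hT⟩ := mem_image.1 hmem
      have h2 := congrFun (congrArg Prod.snd hT) ⟨0, hb⟩
      exact absurd h2 (Fin.castSucc_lt_last _).ne
  · intro T hT
    obtain ⟨T', hT', rfl⟩ := mem_image.1 hT
    rw [SSYT, mem_filter] at hT' ⊢
    obtain ⟨_, h1, h2, h3⟩ := hT'
    exact ⟨mem_univ _, fun i j hij => Fin.castSucc_le_castSucc_iff.2 (h1 i j hij),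
      fun i j hij => Fin.castSucc_le_castSucc_iff.2 (h2 i j hij),
      fun i j hij => Fin.castSucc_lt_castSucc_iff.2 (h3 i j hij)⟩

theorem card_lt' (a b m n : ℕ) (hb : 1 ≤ b) (hm : 1 ≤ m) (h : m < n) :
    (SSYT a b m).card < (SSYT a b n).card := by
  induction n, h using Nat.le_induction with
  | base => exact card_lt a b m hb hm
  | succ n hn ih => exact ih.trans (card_lt a b n hb (by omega))

theorem length_eq {a b m n : ℕ} (hb : 1 ≤ b) (hm : 1 ≤ m) (hn : 1 ≤ n)
    (h : (SSYT a b m).card = (SSYT a b n).card) : m = n := by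
  rcases lt_trichotomy m n with h1 | h1 | h1
  · exact absurd h (card_lt' a b m n hb hm h1).ne
  · exact h1
  · exact absurd h (card_lt' a b n m hb hn h1).ne'

/-- logarithms of the entries -/
noncomputable def lg (l : List ℕ) (i : Fin l.length) : ℝ := Real.log (l.get i)

theorem S_eq (a b : ℕ) (hab : b + 1 ≤ a) (l : List ℕ) (hl : ∀ a ∈ l, 0 < a) (t : ℝ) :
    hu (lg l) a t * hu (lg l) (b + 1) t - hu (lg l) (a + 1) t * hu (lg l) b t
      = ((prsList a (b + 1) l).map (fun w : ℕ => Real.exp (t * Real.log (w : ℝ)))).sum := by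
  simp only [hu]
  have h1 := sum_SSYT (zt (lg l) t) a (b + 1) l.length hab
  simp only [hp] at h1
  rw [← h1]
  rw [prsList, Multiset.map_map]
  change _ = ∑ T ∈ SSYT a (b + 1) l.length, _
  apply sum_congr rfl
  intro T _
  have hpos : ∀ i : Fin l.length, ((l.get i : ℕ) : ℝ) ≠ 0 := by
    intro i
    have := hl _ (List.get_mem l i)
    positivity
  simp only [zt_val, Function.comp]
  rw [Nat.cast_mul, Nat.cast_prod, Nat.cast_prod, Real.log_mul
    (prod_ne_zero_iff.2 (fun i _ => hpos _)) (prod_ne_zero_iff.2 (fun i _ => hpos _)),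
    Real.log_prod (fun i _ => hpos _), Real.log_prod (fun i _ => hpos _),
    mul_add, Real.exp_add, mul_sum, mul_sum, Real.exp_sum, Real.exp_sum]
  rfl

theorem hu_cast {m n : ℕ} (hmn : m = n) (u : Fin n → ℝ) (k : ℕ) (t : ℝ) :
    hu (fun i : Fin m => u (Fin.cast hmn i)) k t = hu u k t := by
  subst hmn; rfl

/-- equal values of `prs_{(A+1,B+2)}` force equal multisets of parts -/
theorem main {A B : ℕ} (hAB : B + 2 ≤ A + 1) {l l' : List ℕ} (hl : ∀ a ∈ l, 0 < a) (hl' : ∀ a ∈ l', 0 < a)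
    (h2 : 1 ≤ l.length) (h2' : 1 ≤ l'.length)
    (hC : ∀ k, 1 ≤ k → ¬ (l.length : ℤ) ∣ (A.factorial : ℤ) * B.factorial * Phi (A + 1) (B + 2) k)
    (h : prsList (A + 1) (B + 2) l = prsList (A + 1) (B + 2) l') :
    (l : Multiset ℕ) = (l' : Multiset ℕ) := by
  have hlen : l.length = l'.length := by
    apply length_eq (a := A + 1) (b := B + 2) (by omega) h2 h2'
    have := congrArg Multiset.card h
    simpa [prsList] using this
  have hm := multiset_eq (lg l) (fun i : Fin l.length => lg l' (Fin.cast hlen i))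
    (moments h2 hC _ _ (fun t => by
      rw [hu_cast hlen, hu_cast hlen, hu_cast hlen, hu_cast hlen, S_eq (A + 1) (B + 1) hAB l hl,
        S_eq (A + 1) (B + 1) hAB l' hl', h]))
  have hx : ∀ (k : List ℕ), (∀ a ∈ k, 0 < a) →
      ((univ : Finset (Fin k.length)).val.map (lg k)).map (fun r => Real.exp r)
        = (k : Multiset ℕ).map (fun a : ℕ => (a : ℝ)) := by
    intro k hk
    rw [Multiset.map_map]
    have e1 : ((univ : Finset (Fin k.length)).val.map ((fun r => Real.exp r) ∘ lg k))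
        = (univ : Finset (Fin k.length)).val.map (fun i => ((k.get i : ℕ) : ℝ)) := by
      apply Multiset.map_congr rfl
      intro i _
      simp only [Function.comp, lg]
      rw [Real.exp_log]
      have := hk _ (List.get_mem k i)
      exact_mod_cast this
    rw [e1]
    have e2 : (univ : Finset (Fin k.length)).val.map (fun i => k.get i) = (k : Multiset ℕ) := by
      rw [Fin.univ_val_map, List.ofFn_get]
    rw [← e2, Multiset.map_map]
    rfl
  have hm' : (univ : Finset (Fin l.length)).val.map (fun i => lg l' (Fin.cast hlen i))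
      = (univ : Finset (Fin l'.length)).val.map (lg l') := by
    rw [Fin.univ_val_map, Fin.univ_val_map]
    congr 1
    exact (List.ofFn_congr hlen.symm (lg l')).symm
  rw [hm'] at hm
  have := hx l hl
  rw [hm, hx l' hl'] at this
  exact (Multiset.map_injective Nat.cast_injective this).symm

/-- **Main theorem.** Let `a ≥ b ≥ 2` and let `P`, `Q` be partitions with at least two parts.
(1) If the number of parts of `P` divides none of the integers `(a-1)! (b-2)! Φ_k(a,b)`, `k ≥ 1`, and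
`prs_{(a,b)}(P) = prs_{(a,b)}(Q)`, then `P` and `Q` have the same parts.
(2) This applies if some prime `q` divides exactly one of the numbers `a(a+1)` and `b(b-1)`, and the
number of parts of `P` is divisible by a power `q^e` that does not divide `(a-1)! (b-2)!`. -/
theorem result :
    (∀ a b : ℕ, 2 ≤ b → b ≤ a → ∀ (m n : ℕ) (P : Nat.Partition m) (Q : Nat.Partition n),
      2 ≤ Multiset.card P.parts → 2 ≤ Multiset.card Q.parts →
      (∀ k : ℕ, 1 ≤ k → ¬ (Multiset.card P.parts : ℤ) ∣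
        ((a - 1).factorial : ℤ) * (b - 2).factorial * Phi a b k) →
      prs a b P = prs a b Q → P.parts = Q.parts) ∧
    (∀ a b : ℕ, 2 ≤ b → b ≤ a → ∀ (m n : ℕ) (P : Nat.Partition m) (Q : Nat.Partition n),
      2 ≤ Multiset.card P.parts → 2 ≤ Multiset.card Q.parts →
      (∃ q e : ℕ, q.Prime ∧ ((q ∣ a * (a + 1) ∧ ¬ q ∣ b * (b - 1)) ∨
          (q ∣ b * (b - 1) ∧ ¬ q ∣ a * (a + 1))) ∧
        q ^ e ∣ Multiset.card P.parts ∧ ¬ q ^ e ∣ (a - 1).factorial * (b - 2).factorial) →
      prs a b P = prs a b Q → P.parts = Q.parts) := by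
  have key1 : ∀ a b : ℕ, 2 ≤ b → b ≤ a → ∀ (m n : ℕ) (P : Nat.Partition m) (Q : Nat.Partition n),
      2 ≤ Multiset.card P.parts → 2 ≤ Multiset.card Q.parts →
      (∀ k : ℕ, 1 ≤ k → ¬ (Multiset.card P.parts : ℤ) ∣
        ((a - 1).factorial : ℤ) * (b - 2).factorial * Phi a b k) →
      prs a b P = prs a b Q → P.parts = Q.parts := by
    intro a b hb hab m n P Q hP hQ hd h
    obtain ⟨A, rfl⟩ : ∃ A, a = A + 1 := ⟨a - 1, by omega⟩
    obtain ⟨B, rfl⟩ : ∃ B, b = B + 2 := ⟨b - 2, by omega⟩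
    simp only [Nat.add_sub_cancel] at hd
    have := main (A := A) (B := B) hab (l := P.parts.sort (· ≥ ·)) (l' := Q.parts.sort (· ≥ ·))
      (fun a ha => P.parts_pos (by simpa using ha)) (fun a ha => Q.parts_pos (by simpa using ha))
      (by simp only [Multiset.length_sort]; omega) (by simp only [Multiset.length_sort]; omega)
      (by simpa only [Multiset.length_sort] using hd) h
    simpa using this
  refine ⟨key1, ?_⟩
  rintro a b hb hab m n P Q hP hQ ⟨q, e, hq, hx, hqe, hne⟩ h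
  refine key1 a b hb hab m n P Q hP hQ ?_ h
  intro k hk hdvd
  -- `q` does not divide `Φ_k`
  have hqi : Prime (q : ℤ) := Nat.prime_iff_prime_int.1 hq
  have hb1 : ((b - 1 : ℕ) : ℤ) = (b : ℤ) - 1 := by push_cast [Nat.cast_sub (show 1 ≤ b by omega)]; ring
  have dA : ∀ x : ℕ, q ∣ x ↔ (q : ℤ) ∣ (x : ℤ) := fun x => Int.natCast_dvd_natCast.symm
  have hPhi : ¬ (q : ℤ) ∣ Phi a b k := by
    intro hd
    unfold Phi at hd
    have hk0 : k ≠ 0 := by omega
    rcases hx with ⟨h1, h2⟩ | ⟨h1, h2⟩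
    · -- q ∣ a (a+1), q ∤ b (b-1)
      have hb' : ¬ (q : ℤ) ∣ (b : ℤ) := fun hh => h2 (dvd_mul_of_dvd_left ((dA b).2 hh) _)
      have hb'' : ¬ (q : ℤ) ∣ (b : ℤ) - 1 := fun hh =>
        h2 (dvd_mul_of_dvd_right ((dA (b - 1)).2 (by rw [hb1]; exact hh)) _)
      rcases (hq.dvd_mul).1 h1 with h3 | h3
      · have ha : (q : ℤ) ∣ (a : ℤ) := (dA a).1 h3
        have ha1 : ¬ (q : ℤ) ∣ (a : ℤ) + 1 := by
          intro hh
          have := dvd_sub hh ha
          rw [add_sub_cancel_left] at this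
          exact hqi.not_dvd_one this
        have h4 : (q : ℤ) ∣ ((a : ℤ) + 1) * ((b : ℤ) - 1) * (b : ℤ) ^ k := by
          have e1 : ((a : ℤ) + 1) * ((b : ℤ) - 1) * (b : ℤ) ^ k
            = (((a : ℤ) + 1) * ((b : ℤ) - 1) * ((a : ℤ) ^ k + (b : ℤ) ^ k)
              - (a : ℤ) * b * (((a : ℤ) + 1) ^ k + ((b : ℤ) - 1) ^ k))
              - (((a : ℤ) + 1) * ((b : ℤ) - 1) * (a : ℤ) ^ k
              - (a : ℤ) * (b * (((a : ℤ) + 1) ^ k + ((b : ℤ) - 1) ^ k))) := by ring
          rw [e1]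
          exact dvd_sub hd (dvd_sub (dvd_mul_of_dvd_right (dvd_pow ha hk0) _) (dvd_mul_of_dvd_left ha _))
        rcases hqi.dvd_or_dvd h4 with h5 | h5
        · rcases hqi.dvd_or_dvd h5 with h6 | h6
          · exact ha1 h6
          · exact hb'' h6
        · exact hb' (hqi.dvd_of_dvd_pow h5)
      · have ha1 : (q : ℤ) ∣ (a : ℤ) + 1 := by have := (dA (a + 1)).1 h3; push_cast at this; exact this
        have ha : ¬ (q : ℤ) ∣ (a : ℤ) := by
          intro hh
          have := dvd_sub ha1 hh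
          rw [add_sub_cancel_left] at this
          exact hqi.not_dvd_one this
        have h4 : (q : ℤ) ∣ (a : ℤ) * b * ((b : ℤ) - 1) ^ k := by
          have e1 : (a : ℤ) * b * ((b : ℤ) - 1) ^ k
            = (((a : ℤ) + 1) * (((b : ℤ) - 1) * ((a : ℤ) ^ k + (b : ℤ) ^ k))
              - (a : ℤ) * b * ((a : ℤ) + 1) ^ k)
              - (((a : ℤ) + 1) * ((b : ℤ) - 1) * ((a : ℤ) ^ k + (b : ℤ) ^ k)
              - (a : ℤ) * b * (((a : ℤ) + 1) ^ k + ((b : ℤ) - 1) ^ k)) := by ring
          rw [e1]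
          exact dvd_sub (dvd_sub (dvd_mul_of_dvd_left ha1 _) (dvd_mul_of_dvd_right (dvd_pow ha1 hk0) _)) hd
        rcases hqi.dvd_or_dvd h4 with h5 | h5
        · rcases hqi.dvd_or_dvd h5 with h6 | h6
          · exact ha h6
          · exact hb' h6
        · exact hb'' (hqi.dvd_of_dvd_pow h5)
    · -- q ∣ b (b-1), q ∤ a (a+1)
      have ha : ¬ (q : ℤ) ∣ (a : ℤ) := fun hh => h2 (dvd_mul_of_dvd_left ((dA a).2 hh) _)
      have ha1 : ¬ (q : ℤ) ∣ (a : ℤ) + 1 := fun hh =>
        h2 (dvd_mul_of_dvd_right ((dA (a + 1)).2 (by push_cast; exact hh)) _)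
      rcases (hq.dvd_mul).1 h1 with h3 | h3
      · have hb' : (q : ℤ) ∣ (b : ℤ) := (dA b).1 h3
        have hb'' : ¬ (q : ℤ) ∣ (b : ℤ) - 1 := by
          intro hh
          have := dvd_sub hb' hh
          rw [sub_sub_cancel] at this
          exact hqi.not_dvd_one this
        have h4 : (q : ℤ) ∣ ((a : ℤ) + 1) * ((b : ℤ) - 1) * (a : ℤ) ^ k := by
          have e1 : ((a : ℤ) + 1) * ((b : ℤ) - 1) * (a : ℤ) ^ k
            = (((a : ℤ) + 1) * ((b : ℤ) - 1) * ((a : ℤ) ^ k + (b : ℤ) ^ k)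
              - (a : ℤ) * b * (((a : ℤ) + 1) ^ k + ((b : ℤ) - 1) ^ k))
              - (((a : ℤ) + 1) * ((b : ℤ) - 1) * (b : ℤ) ^ k
              - (b : ℤ) * (a * (((a : ℤ) + 1) ^ k + ((b : ℤ) - 1) ^ k))) := by ring
          rw [e1]
          exact dvd_sub hd (dvd_sub (dvd_mul_of_dvd_right (dvd_pow hb' hk0) _) (dvd_mul_of_dvd_left hb' _))
        rcases hqi.dvd_or_dvd h4 with h5 | h5
        · rcases hqi.dvd_or_dvd h5 with h6 | h6
          · exact ha1 h6
          · exact hb'' h6
        · exact ha (hqi.dvd_of_dvd_pow h5)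
      · have hb'' : (q : ℤ) ∣ (b : ℤ) - 1 := by rw [← hb1]; exact (dA (b - 1)).1 h3
        have hb' : ¬ (q : ℤ) ∣ (b : ℤ) := by
          intro hh
          have := dvd_sub hh hb''
          rw [sub_sub_cancel] at this
          exact hqi.not_dvd_one this
        have h4 : (q : ℤ) ∣ (a : ℤ) * b * ((a : ℤ) + 1) ^ k := by
          have e1 : (a : ℤ) * b * ((a : ℤ) + 1) ^ k
            = (((b : ℤ) - 1) * (((a : ℤ) + 1) * ((a : ℤ) ^ k + (b : ℤ) ^ k))
              - (a : ℤ) * b * ((b : ℤ) - 1) ^ k)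
              - (((a : ℤ) + 1) * ((b : ℤ) - 1) * ((a : ℤ) ^ k + (b : ℤ) ^ k)
              - (a : ℤ) * b * (((a : ℤ) + 1) ^ k + ((b : ℤ) - 1) ^ k)) := by ring
          rw [e1]
          exact dvd_sub (dvd_sub (dvd_mul_of_dvd_left hb'' _) (dvd_mul_of_dvd_right (dvd_pow hb'' hk0) _)) hd
        rcases hqi.dvd_or_dvd h4 with h5 | h5
        · rcases hqi.dvd_or_dvd h5 with h6 | h6
          · exact ha h6
          · exact hb' h6
        · exact ha1 (hqi.dvd_of_dvd_pow h5)
  have h6 : ((q ^ e : ℕ) : ℤ) ∣ ((a - 1).factorial : ℤ) * (b - 2).factorial * Phi a b k :=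
    (Int.natCast_dvd_natCast.2 hqe).trans hdvd
  have hcop : IsCoprime ((q : ℤ) ^ e) (Phi a b k) :=
    IsCoprime.pow_left ((hqi.coprime_iff_not_dvd).2 hPhi)
  have h7 : (q : ℤ) ^ e ∣ ((a - 1).factorial : ℤ) * (b - 2).factorial :=
    hcop.dvd_of_dvd_mul_right (by push_cast at h6; exact h6)
  exact hne (by exact_mod_cast h7)

end Pool.Agent.Results.MP_0e1197_co.TwoRowShapes
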